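import Pool.Agent.J4.H24.CF.Defs

/-!
# Basic properties of the classes
-/

set_option autoImplicit false

namespace Pool.Agent.J4.H24.CF

open Relation

variable {V : Type} {E σ ρ : V → V → Prop} {o : V → ℝ}

theorem q_symm (h : Nd E σ ρ o) {x y p q : V} (hq : Q E σ x y p q) : Q E σ p q x y := by
  obtain ⟨h1, h2, h3, h4, h5⟩ := hq
  exact ⟨h.q4 x y p q h1 h2 h3, h.es _ _ h2, h.es _ _ h3, fun h6 => h5 (h.es _ _ h6),
    fun h6 => h4 (h.es _ _ h6)⟩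

theorem q_swap (h : Nd E σ ρ o) {x y p q : V} (hq : Q E σ x y p q) : Q E σ y x q p := by
  obtain ⟨h1, h2, h3, h4, h5⟩ := hq
  exact ⟨h.ss _ _ h1, h3, h2, h5, h4⟩

theorem ga_symm (h : Nd E σ ρ o) {s t : V × V} (hst : Ga E σ s t) : Ga E σ t s := by
  induction hst with
  | refl => exact ReflTransGen.refl
  | tail _ h2 ih => exact ReflTransGen.head (q_symm h h2) ih

theorem ga_swap (h : Nd E σ ρ o) {x y u v : V} (hg : Ga E σ (x, y) (u, v)) :
    Ga E σ (y, x) (v, u) := by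
  have key : ∀ s t : V × V, Ga E σ s t → Ga E σ (s.2, s.1) (t.2, t.1) := by
    intro s t hst
    induction hst with
    | refl => exact ReflTransGen.refl
    | tail _ h2 ih => exact ReflTransGen.tail ih (q_swap h h2)
  exact key _ _ hg

/-- a pair joined by a quadruple is incomparable -/
theorem q_inc {x y p q : V} (hq : Q E σ x y p q) : Inc E σ x y :=
  ⟨hq.1, ⟨p, hq.2.1, hq.2.2.2.2⟩, q, hq.2.2.1, hq.2.2.2.1⟩

theorem ga_inc (h : Nd E σ ρ o) {x y u v : V} (hi : Inc E σ x y) (hg : Ga E σ (x, y) (u, v)) :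
    Inc E σ u v := by
  have key : ∀ t : V × V, Ga E σ (x, y) t → Inc E σ t.1 t.2 := by
    intro t ht
    induction ht with
    | refl => exact hi
    | tail _ h2 _ => exact q_inc (q_symm h h2)
  exact key _ hg

/-- separators are in the class -/
theorem ga_sep {x y p q : V} (hσ : σ x y) (h1 : E x p) (h2 : ¬ E y p) (h3 : E y q)
    (h4 : ¬ E x q) : Ga E σ (x, y) (p, q) :=
  ReflTransGen.single ⟨hσ, h1, h3, h4, h2⟩

theorem ga_rho (h : Nd E σ ρ o) {x y u v : V} (hρ : ρ x y) (hg : Ga E σ (x, y) (u, v)) :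
    ρ x u ∧ ρ x v := by
  have key : ∀ t : V × V, Ga E σ (x, y) t → ρ x t.1 ∧ ρ x t.2 := by
    intro t ht
    induction ht with
    | refl => exact ⟨h.rr x, hρ⟩
    | @tail b c _ h2 ih =>
      obtain ⟨g1, g2, g3, g4, g5⟩ := h2
      have r12 : ρ b.1 b.2 := h.rt _ _ _ (h.rs _ _ ih.1) ih.2
      constructor
      · by_contra hc
        have hn : ¬ ρ b.1 c.1 := fun h6 => hc (h.rt _ _ _ ih.1 h6)
        exact g5 ((h.mod _ _ _ r12 g1 hn).1 g2)
      · by_contra hc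
        have hn : ¬ ρ b.1 c.2 := fun h6 => hc (h.rt _ _ _ ih.1 h6)
        exact g4 ((h.mod _ _ _ r12 g1 hn).2 g3)
  exact key _ hg

theorem ga_ord (h : Nd E σ ρ o) {x y u v : V} (hi : Inc E σ x y) (hg : Ga E σ (x, y) (u, v)) :
    (o x < o y ↔ o u < o v) ∧ o u ≠ o v := by
  have hne : ∀ u v : V, Inc E σ u v → o u ≠ o v := by
    rintro u v ⟨h1, ⟨p, h2, h3⟩, q, h4, h5⟩
    exact h.ne u v p q h1 h2 h4 h5 h3
  have key : ∀ t : V × V, Ga E σ (x, y) t → (o x < o y ↔ o t.1 < o t.2) := by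
    intro t ht
    induction ht with
    | refl => exact Iff.rfl
    | tail _ h2 ih =>
      obtain ⟨g1, g2, g3, g4, g5⟩ := h2
      exact ih.trans (h.ord _ _ _ _ g1 g2 g3 g4 g5)
  exact ⟨key _ hg, hne u v (ga_inc h hi hg)⟩

theorem ga_anti (h : Nd E σ ρ o) {x y u v : V} (hi : Inc E σ x y) (hg : Ga E σ (x, y) (u, v)) :
    ¬ Ga E σ (x, y) (v, u) := by
  intro hg'
  obtain ⟨h1, h2⟩ := ga_ord h hi hg
  obtain ⟨h3, -⟩ := ga_ord h hi hg'
  rcases lt_or_gt_of_ne h2 with h4 | h4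
  · exact lt_asymm h4 (h3.1 (h1.2 h4))
  · exact lt_asymm h4 (h1.1 (h3.2 h4))

/-- every element of the support has a neighbour and a non-neighbour on the other side there -/
theorem sup_sep (h : Nd E σ ρ o) {x y u : V} (hi : Inc E σ x y) (hu : Sup E σ x y u) :
    (∃ p, Sup E σ x y p ∧ E u p) ∧ ∃ q, Sup E σ x y q ∧ ¬ σ u q ∧ ¬ E u q := by
  obtain ⟨v, hv | hv⟩ := hu
  · obtain ⟨g1, ⟨p, g2, g3⟩, q, g4, g5⟩ := ga_inc h hi hv
    have hg : Ga E σ (x, y) (p, q) := hv.trans (ga_sep g1 g2 g3 g4 g5)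
    refine ⟨⟨p, ⟨q, Or.inl hg⟩, g2⟩, q, ⟨p, Or.inr hg⟩, fun h6 => ?_, g5⟩
    exact h.en _ _ g4 (h.st _ _ _ (h.ss _ _ g1) h6)
  · obtain ⟨g1, ⟨p, g2, g3⟩, q, g4, g5⟩ := ga_inc h hi hv
    have hg : Ga E σ (x, y) (p, q) := hv.trans (ga_sep g1 g2 g3 g4 g5)
    refine ⟨⟨q, ⟨p, Or.inr hg⟩, g4⟩, p, ⟨q, Or.inl hg⟩, fun h6 => ?_, g3⟩
    exact h.en _ _ g2 (h.st _ _ _ g1 h6)

end Pool.Agent.J4.H24.CF
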