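import Pool.Agent.J4.H24.CF.Defs
set_option autoImplicit false
namespace Pool.Agent.J4.H24.CF
open Relation
variable {V : Type} {E σ ρ : V → V → Prop} {o : V → ℝ}

theorem tr_q_symm (h : Nd E σ ρ o) {x y p q : V} (hq : Q E σ x y p q) : Q E σ p q x y := by
  obtain ⟨h0, h1, h2, h3, h4⟩ := hq
  exact ⟨h.q4 _ _ _ _ h0 h1 h2, h.es _ _ h1, h.es _ _ h2, fun hh => h4 (h.es _ _ hh),
    fun hh => h3 (h.es _ _ hh)⟩

theorem tr_ga_symm (h : Nd E σ ρ o) {s t : V × V} (hst : Ga E σ s t) : Ga E σ t s := by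
  induction hst with
  | refl => exact ReflTransGen.refl
  | tail _ hQ ih => exact ReflTransGen.head (tr_q_symm h hQ) ih

theorem tr_ga_swap (h : Nd E σ ρ o) {x y u v : V} (hg : Ga E σ (x, y) (u, v)) :
    Ga E σ (y, x) (v, u) := by
  have key : ∀ s : V × V, Ga E σ (x, y) s → Ga E σ (y, x) (s.2, s.1) := by
    intro s hs
    induction hs with
    | refl => exact ReflTransGen.refl
    | tail _ hQ ih =>
      obtain ⟨h0, h1, h2, h3, h4⟩ := hQ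
      exact ih.tail ⟨h.ss _ _ h0, h2, h1, h4, h3⟩
  exact key _ hg

theorem tr_ga_inc (h : Nd E σ ρ o) {x y u v : V} (hi : Inc E σ x y)
    (hg : Ga E σ (x, y) (u, v)) : Inc E σ u v := by
  have key : ∀ s : V × V, Ga E σ (x, y) s → Inc E σ s.1 s.2 := by
    intro s hs
    induction hs with
    | refl => exact hi
    | tail _ hQ _ =>
      obtain ⟨h0, h1, h2, h3, h4⟩ := tr_q_symm h hQ
      exact ⟨h0, ⟨_, h1, h4⟩, _, h2, h3⟩
  exact key _ hg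

/-- all or none of the separators -/
theorem tr_aon (h : Nd E σ ρ o) {x y s t w : V} (hg : Ga E σ (x, y) (s, t))
    (hσ : σ w s) (hσt : σ w t) (h1 : ¬ Ga E σ (x, y) (w, t)) (h2 : ¬ Ga E σ (x, y) (s, w))
    {p q : V} (hq : Q E σ s t p q) : E w p ↔ E w q := by
  obtain ⟨hst, e1, e2, e3, e4⟩ := hq
  have hg' : Ga E σ (x, y) (p, q) := hg.tail ⟨hst, e1, e2, e3, e4⟩
  constructor
  · intro hp
    by_contra hnq
    exact h1 (hg'.tail (tr_q_symm h ⟨hσt, hp, e2, hnq, e4⟩))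
  · intro hq
    by_contra hnp
    exact h2 (hg'.tail (tr_q_symm h ⟨h.ss _ _ hσ, e1, hq, e3, hnp⟩))

/-- the invariant when `u` sees no separator -/
def trA (E σ : V → V → Prop) (a x y u w s t : V) : Prop :=
  ¬ E w s ∧ ¬ E w t ∧ σ u s ∧ σ u t ∧ Ga E σ (a, x) (u, s) ∧ Ga E σ (a, y) (u, t) ∧
    ∀ p q, Q E σ s t p q → ¬ E u p ∧ ¬ E u q

/-- the invariants when `u` sees all separators -/
def trB (E σ : V → V → Prop) (a x y u w s t : V) : Prop :=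
  E w s ∧ E w t ∧ σ u s ∧ σ u t ∧ Ga E σ (a, x) (u, s) ∧ Ga E σ (a, y) (u, t) ∧
    ∀ p q, Q E σ s t p q → E u p ∧ E u q

/-- the other invariant when `u` sees all separators -/
def trC (E σ : V → V → Prop) (a x y u w s t : V) : Prop :=
  E w s ∧ E w t ∧ σ u s ∧ σ u t ∧ Ga E σ (a, x) (t, u) ∧ Ga E σ (a, y) (s, u) ∧
    ∀ p q, Q E σ s t p q → E u p ∧ E u q

theorem trA_step (h : Nd E σ ρ o) {a x y u w s t p q : V} (hax : Inc E σ a x)
    (hay : Inc E σ a y) (h1' : ¬ Ga E σ (x, y) (x, a)) (h2 : ¬ Ga E σ (x, y) (a, y))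
    (hg : Ga E σ (x, y) (s, t)) (huw : E u w) (hI : trA E σ a x y u w s t)
    (hQ : Q E σ s t p q) : trA E σ a x y w u p q := by
  obtain ⟨i1, i2, i3, i4, i5, i6, i7⟩ := hI
  obtain ⟨n1, n2⟩ := i7 p q hQ
  have hQ' := hQ
  obtain ⟨hst, e1, e2, e3, e4⟩ := hQ
  have g1 : Ga E σ (a, x) (w, p) := i5.tail ⟨i3, huw, e1, n1, fun hh => i1 (h.es _ _ hh)⟩
  have g2 : Ga E σ (a, y) (w, q) := i6.tail ⟨i4, huw, e2, n2, fun hh => i2 (h.es _ _ hh)⟩
  have s1 : σ w p := (tr_ga_inc h hax g1).1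
  have s2 : σ w q := (tr_ga_inc h hay g2).1
  refine ⟨n1, n2, s1, s2, g1, g2, ?_⟩
  intro p' q' hQ2
  have hgp : Ga E σ (x, y) (p, q) := hg.tail hQ'
  have hA : ∀ p' q', Q E σ p q p' q' → (E w p' ↔ E w q') := fun p' q' hq' =>
    tr_aon h hgp s1 s2 (fun hh => h2 (hh.trans (tr_ga_symm h g2)))
      (fun hh => h1' (hh.trans (tr_ga_symm h (tr_ga_swap h g1)))) hq'
  have hws : ¬ E w s := i1
  have hwt : ¬ E w t := i2
  obtain ⟨k0, k1, k2, k3, k4⟩ := hQ2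
  -- `(p', t)` and `(s, q')` are separators as well
  have m1 : Q E σ p q p' t := ⟨k0, k1, h.es _ _ e2, fun hh => e4 (h.es _ _ hh), k4⟩
  have m2 : Q E σ p q s q' := ⟨k0, h.es _ _ e1, k2, k3, fun hh => e3 (h.es _ _ hh)⟩
  exact ⟨fun hh => hwt ((hA _ _ m1).1 hh), fun hh => hws ((hA _ _ m2).2 hh)⟩

theorem trB_step (h : Nd E σ ρ o) {a x y u w s t p q : V} (hax : Inc E σ a x)
    (hay : Inc E σ a y) (h1' : ¬ Ga E σ (x, y) (x, a)) (h2 : ¬ Ga E σ (x, y) (a, y))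
    (hg : Ga E σ (x, y) (s, t)) (huw : ¬ E u w) (hI : trB E σ a x y u w s t)
    (hQ : Q E σ s t p q) : trC E σ a x y w u p q := by
  obtain ⟨i1, i2, i3, i4, i5, i6, i7⟩ := hI
  obtain ⟨n1, n2⟩ := i7 p q hQ
  have hQ' := hQ
  obtain ⟨hst, e1, e2, e3, e4⟩ := hQ
  have g1 : Ga E σ (a, x) (q, w) := i5.tail ⟨i3, n2, h.es _ _ i1, huw, e3⟩
  have g2 : Ga E σ (a, y) (p, w) := i6.tail ⟨i4, n1, h.es _ _ i2, huw, e4⟩
  have s1 : σ w p := h.ss _ _ (tr_ga_inc h hay g2).1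
  have s2 : σ w q := h.ss _ _ (tr_ga_inc h hax g1).1
  refine ⟨n1, n2, s1, s2, g1, g2, ?_⟩
  intro p' q' hQ2
  have hgp : Ga E σ (x, y) (p, q) := hg.tail hQ'
  have hA : ∀ p' q', Q E σ p q p' q' → (E w p' ↔ E w q') := fun p' q' hq' =>
    tr_aon h hgp s1 s2 (fun hh => h1' (hh.trans (tr_ga_symm h (tr_ga_swap h g1))))
      (fun hh => h2 (hh.trans (tr_ga_symm h g2))) hq'
  obtain ⟨k0, k1, k2, k3, k4⟩ := hQ2
  have m1 : Q E σ p q p' t := ⟨k0, k1, h.es _ _ e2, fun hh => e4 (h.es _ _ hh), k4⟩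
  have m2 : Q E σ p q s q' := ⟨k0, h.es _ _ e1, k2, k3, fun hh => e3 (h.es _ _ hh)⟩
  exact ⟨(hA _ _ m1).2 i2, (hA _ _ m2).1 i1⟩

theorem trC_step (h : Nd E σ ρ o) {a x y u w s t p q : V} (hax : Inc E σ a x)
    (hay : Inc E σ a y) (h1' : ¬ Ga E σ (x, y) (x, a)) (h2 : ¬ Ga E σ (x, y) (a, y))
    (hg : Ga E σ (x, y) (s, t)) (huw : ¬ E u w) (hI : trC E σ a x y u w s t)
    (hQ : Q E σ s t p q) : trB E σ a x y w u p q := by
  obtain ⟨i1, i2, i3, i4, i5, i6, i7⟩ := hI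
  obtain ⟨n1, n2⟩ := i7 p q hQ
  have hQ' := hQ
  obtain ⟨hst, e1, e2, e3, e4⟩ := hQ
  -- `(t, u) - (w, p)` and `(s, u) - (w, q)`
  have g1 : Ga E σ (a, x) (w, p) := i5.tail
    ⟨h.ss _ _ i4, h.es _ _ i2, n1, e4, huw⟩
  have g2 : Ga E σ (a, y) (w, q) := i6.tail
    ⟨h.ss _ _ i3, h.es _ _ i1, n2, e3, huw⟩
  have s1 : σ w p := (tr_ga_inc h hax g1).1
  have s2 : σ w q := (tr_ga_inc h hay g2).1
  refine ⟨n1, n2, s1, s2, g1, g2, ?_⟩
  intro p' q' hQ2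
  have hgp : Ga E σ (x, y) (p, q) := hg.tail hQ'
  have hA : ∀ p' q', Q E σ p q p' q' → (E w p' ↔ E w q') := fun p' q' hq' =>
    tr_aon h hgp s1 s2 (fun hh => h2 (hh.trans (tr_ga_symm h g2)))
      (fun hh => h1' (hh.trans (tr_ga_symm h (tr_ga_swap h g1)))) hq'
  obtain ⟨k0, k1, k2, k3, k4⟩ := hQ2
  have m1 : Q E σ p q p' t := ⟨k0, k1, h.es _ _ e2, fun hh => e4 (h.es _ _ hh), k4⟩
  have m2 : Q E σ p q s q' := ⟨k0, h.es _ _ e1, k2, k3, fun hh => e3 (h.es _ _ hh)⟩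
  exact ⟨(hA _ _ m1).2 i2, (hA _ _ m2).1 i1⟩

/-- the triangle lemma -/
theorem tri (h : Nd E σ ρ o) {a x y : V} (hxy : Inc E σ x y) (hax : Inc E σ a x)
    (hay : Inc E σ a y) (h1 : ¬ Ga E σ (x, y) (a, x)) (h1' : ¬ Ga E σ (x, y) (x, a))
    (h2 : ¬ Ga E σ (x, y) (a, y)) (h2' : ¬ Ga E σ (x, y) (y, a)) : ¬ Sup E σ x y a := by
  obtain ⟨sxy, ⟨p₀, hp1, hp2⟩, q₀, hq1, hq2⟩ := id hxy
  have hA : ∀ p q, Q E σ x y p q → (E a p ↔ E a q) := fun p q hq =>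
    tr_aon h (ReflTransGen.refl) hax.1 hay.1 h2 h1' hq
  have hQ0 : Q E σ x y p₀ q₀ := ⟨sxy, hp1, hq1, hq2, hp2⟩
  by_cases hap : E a p₀
  · -- `a` sees all separators
    have hall : ∀ p q, Q E σ x y p q → E a p ∧ E a q := by
      rintro p q ⟨k0, k1, k2, k3, k4⟩
      have haq : E a q₀ := (hA _ _ hQ0).1 hap
      exact ⟨(hA p q₀ ⟨k0, k1, hq1, hq2, k4⟩).2 haq, (hA p₀ q ⟨k0, hp1, k2, k3, hp2⟩).1 hap⟩
    obtain ⟨-, -, β, hβ1, hβ2⟩ := id hax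
    have hβy : E y β := by
      by_contra hh
      exact hβ2 (hall β q₀ ⟨sxy, hβ1, hq1, hq2, hh⟩).1
    have hβa : ¬ E β a := fun hh => hβ2 (h.es _ _ hh)
    have key : ∀ s : V × V, Ga E σ (x, y) s →
        trB E σ a x y a β s.1 s.2 ∨ trC E σ a x y β a s.1 s.2 := by
      intro s hs
      induction hs with
      | refl => exact Or.inl ⟨h.es _ _ hβ1, h.es _ _ hβy, hax.1, hay.1, ReflTransGen.refl,
          ReflTransGen.refl, hall⟩
      | tail hs hQ ih =>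
        rcases ih with ih | ih
        · exact Or.inr (trB_step h hax hay h1' h2 hs hβ2 ih hQ)
        · exact Or.inl (trC_step h hax hay h1' h2 hs hβa ih hQ)
    rintro ⟨v, hv | hv⟩
    · rcases key _ hv with hk | hk
      · exact hβa hk.1
      · exact h.en _ _ hk.1 (h.sr _)
    · rcases key _ hv with hk | hk
      · exact hβa hk.2.1
      · exact h.en _ _ hk.2.1 (h.sr _)
  · -- `a` sees no separator
    have hnone : ∀ p q, Q E σ x y p q → ¬ E a p ∧ ¬ E a q := by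
      rintro p q ⟨k0, k1, k2, k3, k4⟩
      have haq : ¬ E a q₀ := fun hh => hap ((hA _ _ hQ0).2 hh)
      exact ⟨fun hh => haq ((hA p q₀ ⟨k0, k1, hq1, hq2, k4⟩).1 hh),
        fun hh => hap ((hA p₀ q ⟨k0, hp1, k2, k3, hp2⟩).2 hh)⟩
    obtain ⟨-, ⟨β, hβ1, hβ2⟩, -⟩ := id hax
    have hβy : ¬ E y β := by
      intro hh
      exact (hnone p₀ β ⟨sxy, hp1, hh, hβ2, hp2⟩).2 hβ1
    have key : ∀ s : V × V, Ga E σ (x, y) s →
        trA E σ a x y a β s.1 s.2 ∨ trA E σ a x y β a s.1 s.2 := by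
      intro s hs
      induction hs with
      | refl => exact Or.inl ⟨fun hh => hβ2 (h.es _ _ hh), fun hh => hβy (h.es _ _ hh), hax.1,
          hay.1, ReflTransGen.refl, ReflTransGen.refl, hnone⟩
      | tail hs hQ ih =>
        rcases ih with ih | ih
        · exact Or.inr (trA_step h hax hay h1' h2 hs hβ1 ih hQ)
        · exact Or.inl (trA_step h hax hay h1' h2 hs (h.es _ _ hβ1) ih hQ)
    rintro ⟨v, hv | hv⟩
    · rcases key _ hv with hk | hk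
      · exact hk.1 (h.es _ _ hβ1)
      · exact h.en _ _ (h.es _ _ hβ1) hk.2.2.1
    · rcases key _ hv with hk | hk
      · exact hk.2.1 (h.es _ _ hβ1)
      · exact h.en _ _ (h.es _ _ hβ1) hk.2.2.2.1

end Pool.Agent.J4.H24.CF

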