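import Mathlib

/-!
# Cross-free graphs and equal disks: definitions
-/

set_option autoImplicit false

namespace Pool.Agent.J4.H24.CF

/-- Bipartite graphs whose induced matchings are ordered: there are a set `A` such that every edge
joins `A` to its complement, and a function `o` on the vertices such that `o x ≠ o y`, and
`o x < o y` iff `o p < o q`, whenever `x p` and `y q` form an induced matching and `x`, `y` are on
the same side. -/
def CrossFree {V : Type} (E : V → V → Prop) : Prop :=
  ∃ (A : V → Prop) (o : V → ℝ), (∀ x y, E x y → (A x ↔ ¬ A y)) ∧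
    ∀ x y p q, (A x ↔ A y) → E x p → E y q → ¬ E x q → ¬ E y p →
      o x ≠ o y ∧ (o x < o y ↔ o p < o q)

/-- Intersection graphs of closed disks of radius `1` in the Euclidean plane whose centres
`(x v, y v)` are divided by a vertical line into two sets of diameter at most `2`. -/
def IsSplitUnit {V : Type} (X : SimpleGraph V) : Prop :=
  ∃ (x y : V → ℝ) (A : V → Prop), (∀ u v, A u → ¬ A v → x u ≤ x v) ∧
    (∀ u v, (A u ↔ A v) → (x u - x v) ^ 2 + (y u - y v) ^ 2 ≤ 4) ∧
    ∀ u v, X.Adj u v ↔ u ≠ v ∧ (x u - x v) ^ 2 + (y u - y v) ^ 2 ≤ 4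

/-- Intersection graphs of closed disks of radius `1` in the Euclidean plane, each of which
contains one of two given points. -/
def IsPiercedUnit {V : Type} (X : SimpleGraph V) : Prop :=
  ∃ (z : V → EuclideanSpace ℝ (Fin 2)) (p q : EuclideanSpace ℝ (Fin 2)),
    (∀ v, p ∈ Metric.closedBall (z v) 1 ∨ q ∈ Metric.closedBall (z v) 1) ∧
    ∀ u v : V, X.Adj u v ↔
      u ≠ v ∧ (Metric.closedBall (z u) 1 ∩ Metric.closedBall (z v) 1).Nonempty

end Pool.Agent.J4.H24.CF
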