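import Pool.Agent.J4.H24.CF.TDefs

/-!
# Cross-free bipartite graphs: one vertex distinguishes the classes of `N3` on each side
-/

set_option autoImplicit false
set_option linter.unusedSectionVars false

namespace Pool.Agent.J4.H24.CF

open Relation Pool.Agent.W185.SRG Pool.Agent.J4.H77.CG

variable {V W : Type} [Fintype V] [Fintype W] {G : SimpleGraph V} {H : SimpleGraph W} {N : ℕ}
  {σ ρ η : V → V → Prop} {o : V → ℝ}

namespace D3

theorem iv_iff (hi : Iv G N ρ) {x x' y y' : V} (hT : T G G N [(x, x'), (y, y')]) :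
    ρ x y ↔ ρ x' y' :=
  ⟨hi x x' y y' hT, hi x' x y' y hT.symm⟩

/-- the walks are invariant (own copy of `reD_inv`) -/
theorem reD_inv' (hN : 5 ≤ N) (hσ : Iv G N σ) (hi : Iv G N ρ) {r r' u u' v v' : V}
    (hT : T G G N [(r, r'), (u, u'), (v, v')]) (h : ReD G.Adj σ ρ r u v) :
    ReD G.Adj σ ρ r' u' v' := by
  induction h generalizing v' with
  | refl =>
    have h1 : u' = v' := (hT.eq_iff (by omega) (a := (u, u')) (b := (u, v')) (by simp)
      (by simp)).1 rfl
    rw [h1]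
    exact ReflTransGen.refl
  | @tail b c hub hbc ih =>
    obtain ⟨b', hT'⟩ := T_forth hT (by simp; omega) (by simp) b
    have h1 : ReD G.Adj σ ρ r' u' b' := ih (hT'.mono (by
      intro e he
      simp only [List.mem_cons, List.not_mem_nil, or_false] at he ⊢
      tauto))
    have h2 : T G G N [(b, b'), (c, v')] := hT'.mono (by
      intro e he
      simp only [List.mem_cons, List.not_mem_nil, or_false] at he ⊢
      tauto)
    have h3 : T G G N [(r, r'), (b, b')] := hT'.mono (by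
      intro e he
      simp only [List.mem_cons, List.not_mem_nil, or_false] at he ⊢
      tauto)
    refine ReflTransGen.tail h1 ⟨hi _ _ _ _ h2 hbc.1, fun hs => hbc.2.1 ((iv_iff hσ h2).2 hs), ?_⟩
    have h4 : G.Adj b c ↔ G.Adj b' v' := h2.adj_iff (by omega) (a := (b, b')) (b := (c, v'))
      (by simp) (by simp)
    rw [← h4, ← iv_iff hσ h3]
    exact hbc.2.2

theorem reD_rho (h : Nd G.Adj σ ρ o) {r u v : V} (hD : ReD G.Adj σ ρ r u v) : ρ u v := by
  induction hD with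
  | refl => exact h.rr _
  | tail _ hbc ih => exact h.rt _ _ _ ih hbc.1

/-- another reference on the same side -/
theorem reD_same (h : Nd G.Adj σ ρ o) {r z u v : V} (hrz : σ r z) (hD : ReD G.Adj σ ρ r u v) :
    ReD G.Adj σ ρ z u v := by
  induction hD with
  | refl => exact ReflTransGen.refl
  | @tail a b _ hab ih =>
    obtain ⟨h1, h2, h3⟩ := hab
    exact ih.tail ⟨h1, h2, h3.trans ⟨fun hs => h.st _ _ _ (h.ss _ _ hrz) hs,
      fun hs => h.st _ _ _ hrz hs⟩⟩

/-- another reference on the other side: all arcs are reversed -/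
theorem reD_rev (h : Nd G.Adj σ ρ o) {r z u v : V} (hz : ρ r z) (hrz : ¬ σ r z) (hu : ρ r u)
    (hD : ReD G.Adj σ ρ r u v) : ReD G.Adj σ ρ z v u := by
  induction hD with
  | refl => exact ReflTransGen.refl
  | @tail b c hub hbc ih =>
    refine ReflTransGen.head ?_ ih
    obtain ⟨h1, h2, h3⟩ := hbc
    have hb : ρ r b := h.rt _ _ _ hu (reD_rho h hub)
    have hc : ρ r c := h.rt _ _ _ hb h1
    refine ⟨h.rs _ _ h1, fun hs => h2 (h.ss _ _ hs), ?_⟩
    have h4 : G.Adj c b ↔ G.Adj b c := ⟨fun h' => h'.symm, fun h' => h'.symm⟩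
    rw [h4, h3]
    constructor
    · intro hs
      have h5 : ¬ σ r c := fun hs' => h2 (h.st _ _ _ (h.ss _ _ hs) hs')
      exact h.s3 z r c (h.rs _ _ hz) hc (fun hs' => hrz (h.ss _ _ hs')) h5
    · intro hs
      have h5 : ¬ σ r c := fun hs' => hrz (h.st _ _ _ hs' (h.ss _ _ hs))
      exact h.s3 r c b hc (h.rs _ _ h1) h5 (fun hs' => h2 (h.ss _ _ hs'))

/-- a separator gives a walk -/
theorem sep_walk (h : Nd G.Adj σ ρ o) {r z z₁ b : V} (hz : ρ r z) (hz1 : ρ r z₁) (hs : σ z z₁)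
    (h1 : G.Adj z b) (h2 : ¬ G.Adj z₁ b) :
    ReD G.Adj σ ρ r z z₁ ∨ ReD G.Adj σ ρ r z₁ z := by
  have hzz : ρ z z₁ := h.rt _ _ _ (h.rs _ _ hz) hz1
  have hzb : ρ z b := by
    by_contra hno
    exact h2 ((h.mod z z₁ b hzz hs hno).1 h1)
  have hsb : ¬ σ z b := h.en _ _ h1
  have hb1 : ρ b z₁ := h.rt _ _ _ (h.rs _ _ hzb) hzz
  have hsb1 : ¬ σ z₁ b := fun hs' => hsb (h.st _ _ _ hs hs')
  by_cases hr : σ r z
  · left
    have hrb : ¬ σ r b := fun hs' => hsb (h.st _ _ _ (h.ss _ _ hr) hs')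
    refine ReflTransGen.head ⟨hzb, hsb, ⟨fun _ => hr, fun _ => h1⟩⟩
      (ReflTransGen.single ⟨hb1, fun hs' => hsb1 (h.ss _ _ hs'), ⟨fun h' => absurd h'.symm h2,
        fun h' => absurd h' hrb⟩⟩)
  · right
    have hrb : σ r b := h.s3 r z b hz hzb hr hsb
    have hr1 : ¬ σ r z₁ := fun hs' => hr (h.st _ _ _ hs' (h.ss _ _ hs))
    refine ReflTransGen.head ⟨h.rs _ _ hb1, hsb1, ⟨fun h' => absurd h' h2,
      fun h' => absurd h' hr1⟩⟩
      (ReflTransGen.single ⟨h.rs _ _ hzb, fun hs' => hsb (h.ss _ _ hs'), ⟨fun _ => hrb,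
        fun _ => h1.symm⟩⟩)

/-- a walk can be reversed -/
theorem back (hN : 5 ≤ N) (hσ : Iv G N σ) (hi : Iv G N ρ) {r z z₁ : V}
    (hT : T G G N [(z, z₁), (r, r)]) (hD : ReD G.Adj σ ρ r z z₁) : ReD G.Adj σ ρ r z₁ z := by
  classical
  obtain ⟨β, hβ⟩ := hT.step (by simp; omega) (by simp)
  have hsub : {w | ReD G.Adj σ ρ r z₁ w} ⊆ {w | ReD G.Adj σ ρ r z w} := fun w hw => hD.trans hw
  have him : {w | ReD G.Adj σ ρ r z₁ w} = β '' {w | ReD G.Adj σ ρ r z w} := by
    ext w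
    constructor
    · intro hw
      refine ⟨β.symm w, ?_, β.apply_symm_apply w⟩
      have h1 := hβ (β.symm w)
      rw [β.apply_symm_apply] at h1
      have h2 : T G G N [(r, r), (z, z₁), (β.symm w, w)] := h1.mono (by
        intro e he
        simp only [List.mem_cons, List.not_mem_nil, or_false] at he ⊢
        tauto)
      exact reD_inv' hN hσ hi h2.symm hw
    · rintro ⟨w, hw, rfl⟩
      have h2 : T G G N [(r, r), (z, z₁), (w, β w)] := (hβ w).mono (by
        intro e he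
        simp only [List.mem_cons, List.not_mem_nil, or_false] at he ⊢
        tauto)
      exact reD_inv' hN hσ hi h2 hw
  have hcard : {w | ReD G.Adj σ ρ r z w}.ncard ≤ {w | ReD G.Adj σ ρ r z₁ w}.ncard := by
    rw [him, Set.ncard_image_of_injective _ β.injective]
  have heq := Set.eq_of_subset_of_ncard_le hsub hcard (Set.toFinite _)
  have : z ∈ {w | ReD G.Adj σ ρ r z w} := ReflTransGen.refl
  rw [← heq] at this
  exact this

end D3

theorem disc3 (hN : 5 ≤ N) (h : Nd G.Adj σ ρ o) (hσ : Iv G N σ) (hi : Iv G N ρ) {r z z₁ : V}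
    (hz : ρ r z) (hz1 : ρ r z₁) (hs : σ z z₁) (hT : T G G N [(z, z₁), (r, r)]) :
    N3 G.Adj σ ρ z z₁ := by
  have hzz : ρ z z₁ := h.rt _ _ _ (h.rs _ _ hz) hz1
  by_cases hD : ReD G.Adj σ ρ r z z₁ ∨ ReD G.Adj σ ρ r z₁ z
  · right
    have h12 : ReD G.Adj σ ρ r z z₁ ∧ ReD G.Adj σ ρ r z₁ z := by
      rcases hD with h1 | h1
      · exact ⟨h1, D3.back hN hσ hi hT h1⟩
      · exact ⟨D3.back hN hσ hi hT.symm h1, h1⟩
    by_cases hr : σ r z
    · exact ⟨D3.reD_same h hr h12.1, D3.reD_same h hr h12.2⟩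
    · exact ⟨D3.reD_rev h hz hr hz1 h12.2, D3.reD_rev h hz hr hz h12.1⟩
  · left
    refine ⟨hzz, hs, fun b => ⟨fun h1 => ?_, fun h1 => ?_⟩⟩
    · by_contra h2
      exact hD (D3.sep_walk h hz hz1 hs h1 h2)
    · by_contra h2
      exact hD (D3.sep_walk h hz1 hz (h.ss _ _ hs) h1 h2).symm

end Pool.Agent.J4.H24.CF
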