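import Pool.Agent.J4.H24.CF.TDefs

/-! Project CF, piece IB: invariance of the classes, the supports, the spanning pairs and the blocks. -/

set_option autoImplicit false
set_option linter.unusedSectionVars false

namespace Pool.Agent.J4.H24.CF

open Relation Pool.Agent.W185.SRG Pool.Agent.J4.H77.CG

variable {V W : Type} [Fintype V] [Fintype W] {G : SimpleGraph V} {H : SimpleGraph W} {N : ℕ}
  {σ ρ η : V → V → Prop} {o : V → ℝ}

namespace IbAux

/-- a sublist of pairs -/
lemma sub {L : List (V × V)} (h : T G G N L) {a b : V × V} (ha : a ∈ L) (hb : b ∈ L) :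
    T G G N [a, b] := by
  refine h.mono ?_
  intro e he
  simp only [List.mem_cons, List.not_mem_nil, or_false] at he
  rcases he with rfl | rfl <;> assumption

lemma sub3 {L : List (V × V)} (h : T G G N L) {a b c : V × V} (ha : a ∈ L) (hb : b ∈ L)
    (hc : c ∈ L) : T G G N [a, b, c] := by
  refine h.mono ?_
  intro e he
  simp only [List.mem_cons, List.not_mem_nil, or_false] at he
  rcases he with rfl | rfl | rfl <;> assumption

lemma sub4 {L : List (V × V)} (h : T G G N L) {a b c d : V × V} (ha : a ∈ L) (hb : b ∈ L)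
    (hc : c ∈ L) (hd : d ∈ L) : T G G N [a, b, c, d] := by
  refine h.mono ?_
  intro e he
  simp only [List.mem_cons, List.not_mem_nil, or_false] at he
  rcases he with rfl | rfl | rfl | rfl <;> assumption

/-- the other direction -/
lemma back {r : V → V → Prop} (hr : Iv G N r) {x x' y y' : V} (hT : T G G N [(x, x'), (y, y')])
    (h : r x' y') : r x y :=
  hr x' x y' y hT.symm h

lemma rtg (hN : 5 ≤ N) {r : V → V → Prop} (hr : Iv G N r) : Iv G N (ReflTransGen r) := by
  intro x x' y y' hT h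
  induction h generalizing y' with
  | refl =>
    have : x' = y' := (hT.eq_iff (by omega) (a := (x, x')) (b := (x, y')) (by simp) (by simp)).1 rfl
    rw [this]
  | tail _ h2 ih =>
    rename_i b c _
    obtain ⟨b', hb⟩ := T_forth hT (by simp; omega) (by simp) b
    refine (ih b' (sub hb (by simp) (by simp))).tail ?_
    exact hr b b' c y' (sub hb (by simp) (by simp)) h2

end IbAux

open IbAux

theorem ga_inv (hN : 5 ≤ N) (hσ : Iv G N σ) {x x' y y' u u' v v' : V}
    (hT : T G G N [(x, x'), (y, y'), (u, u'), (v, v')]) (h : Ga G.Adj σ (x, y) (u, v)) :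
    Ga G.Adj σ (x', y') (u', v') := by
  have key : ∀ s : V × V, Ga G.Adj σ (x, y) s → ∀ u' v' : V,
      T G G N [(x, x'), (y, y'), (s.1, u'), (s.2, v')] → Ga G.Adj σ (x', y') (u', v') := by
    intro s hs
    induction hs with
    | refl =>
      intro u' v' hT
      have h1 : x' = u' :=
        (hT.eq_iff (by omega) (a := (x, x')) (b := (x, u')) (by simp) (by simp)).1 rfl
      have h2 : y' = v' :=
        (hT.eq_iff (by omega) (a := (y, y')) (b := (y, v')) (by simp) (by simp)).1 rfl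
      rw [h1, h2]
      exact ReflTransGen.refl
    | tail _ h2 ih =>
      rename_i b c _
      intro u' v' hT
      obtain ⟨p', hp⟩ := T_forth hT (by simp; omega) (by simp) b.1
      obtain ⟨q', hq⟩ := T_forth hp (by simp; omega) (by simp) b.2
      have h3 := ih p' q' (sub4 hq (by simp) (by simp) (by simp) (by simp))
      refine h3.tail ?_
      obtain ⟨h4, h5, h6, h7, h8⟩ := h2
      refine ⟨hσ _ _ _ _ (sub hq (a := (b.1, p')) (b := (b.2, q')) (by simp) (by simp)) h4,
        (hq.adj_iff (by omega) (a := (b.1, p')) (b := (c.1, u')) (by simp) (by simp)).1 h5,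
        (hq.adj_iff (by omega) (a := (b.2, q')) (b := (c.2, v')) (by simp) (by simp)).1 h6,
        fun h9 => h7 ((hq.adj_iff (by omega) (a := (b.1, p')) (b := (c.2, v'))
          (by simp) (by simp)).2 h9),
        fun h9 => h8 ((hq.adj_iff (by omega) (a := (b.2, q')) (b := (c.1, u'))
          (by simp) (by simp)).2 h9)⟩
  exact key (u, v) h u' v' hT

theorem iv_inc (hN : 5 ≤ N) (hσ : Iv G N σ) : Iv G N (Inc G.Adj σ) := by
  rintro x x' y y' hT ⟨h1, ⟨p, h2, h3⟩, q, h4, h5⟩
  refine ⟨hσ _ _ _ _ hT h1, ?_, ?_⟩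
  · obtain ⟨p', hp⟩ := T_forth hT (by simp; omega) (by simp) p
    exact ⟨p', (hp.adj_iff (by omega) (a := (x, x')) (b := (p, p')) (by simp) (by simp)).1 h2,
      fun h9 => h3 ((hp.adj_iff (by omega) (a := (y, y')) (b := (p, p')) (by simp) (by simp)).2 h9)⟩
  · obtain ⟨q', hq⟩ := T_forth hT (by simp; omega) (by simp) q
    exact ⟨q', (hq.adj_iff (by omega) (a := (y, y')) (b := (q, q')) (by simp) (by simp)).1 h4,
      fun h9 => h5 ((hq.adj_iff (by omega) (a := (x, x')) (b := (q, q')) (by simp) (by simp)).2 h9)⟩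

theorem sup_inv (hN : 5 ≤ N) (hσ : Iv G N σ) {x x' y y' u u' : V}
    (hT : T G G N [(x, x'), (y, y'), (u, u')]) (h : Sup G.Adj σ x y u) :
    Sup G.Adj σ x' y' u' := by
  obtain ⟨v, h1⟩ := h
  obtain ⟨v', hv⟩ := T_forth hT (by simp; omega) (by simp) v
  refine ⟨v', h1.imp (fun h2 => ?_) fun h2 => ?_⟩
  · exact ga_inv hN hσ (sub4 hv (by simp) (by simp) (by simp) (by simp)) h2
  · exact ga_inv hN hσ (sub4 hv (by simp) (by simp) (by simp) (by simp)) h2

theorem iv_span (hN : 5 ≤ N) (hσ : Iv G N σ) (hi : Iv G N ρ) : Iv G N (Span G.Adj σ ρ) := by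
  rintro x x' y y' hT ⟨h1, h2, h3⟩
  refine ⟨iv_inc hN hσ _ _ _ _ hT h1, hi _ _ _ _ hT h2, fun w' hw' => ?_⟩
  obtain ⟨w, hw⟩ := T_back hT (by simp; omega) (by simp) w'
  have h4 : ρ x w := back hi (sub hw (a := (x, x')) (b := (w, w')) (by simp) (by simp)) hw'
  exact sup_inv hN hσ (sub3 hw (by simp) (by simp) (by simp)) (h3 w h4)

theorem iv_R (hN : 5 ≤ N) (hσ : Iv G N σ) (hi : Iv G N ρ) : Iv G N (R G.Adj σ ρ) := by
  rintro x x' y y' hT ⟨h1, h2, h3⟩
  refine ⟨hi _ _ _ _ hT h1, hσ _ _ _ _ hT h2, ?_⟩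
  rcases h3 with h3 | ⟨h3, h4⟩
  · left
    intro z'
    obtain ⟨z, hz⟩ := T_back hT (by simp; omega) (by simp) z'
    have h5 := hz.adj_iff (by omega) (a := (x, x')) (b := (z, z')) (by simp) (by simp)
    have h6 := hz.adj_iff (by omega) (a := (y, y')) (b := (z, z')) (by simp) (by simp)
    exact h5.symm.trans ((h3 z).trans h6)
  · right
    exact ⟨iv_inc hN hσ _ _ _ _ hT h3, fun h5 => h4 (back (iv_span hN hσ hi) hT h5)⟩

theorem iv_S (hN : 5 ≤ N) (hσ : Iv G N σ) (hi : Iv G N ρ) : Iv G N (S G.Adj σ ρ) :=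
  rtg hN (iv_R hN hσ hi)

theorem iv_Lk (hN : 5 ≤ N) (hσ : Iv G N σ) (hi : Iv G N ρ) : Iv G N (Lk G.Adj σ ρ) := by
  rintro u u' v v' hT ⟨h1, h2, u₁, u₂, v₁, h3, h4, h5, h6, h7⟩
  have hS := iv_S hN hσ hi
  obtain ⟨a, ha⟩ := T_forth hT (by simp; omega) (by simp) u₁
  obtain ⟨b, hb⟩ := T_forth ha (by simp; omega) (by simp) u₂
  obtain ⟨c, hc⟩ := T_forth hb (by simp; omega) (by simp) v₁
  refine ⟨hi _ _ _ _ hT h1, fun h8 => h2 (back hσ hT h8), a, b, c,
    hS _ _ _ _ (sub hc (by simp) (by simp)) h3, hS _ _ _ _ (sub hc (by simp) (by simp)) h4,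
    hS _ _ _ _ (sub hc (by simp) (by simp)) h5, ?_, ?_⟩
  · exact (hc.adj_iff (by omega) (a := (u₁, a)) (b := (v₁, c)) (by simp) (by simp)).1 h6
  · exact fun h8 => h7 ((hc.adj_iff (by omega) (a := (u₂, b)) (b := (v₁, c))
      (by simp) (by simp)).2 h8)

end Pool.Agent.J4.H24.CF
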