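import Pool.Agent.J4.H24.CF.TDefs
import Pool.Agent.J4.H24.CF.Ib
import Pool.Agent.J4.H24.CF.Lt

/-!
# Project CF (helper24), piece D4 (helper30): the blocks are distinguished
-/

set_option autoImplicit false

namespace Pool.Agent.J4.H24.CF

open Relation Pool.Agent.W185.SRG Pool.Agent.J4.H77.CG

variable {V W : Type} [Fintype V] [Fintype W] {G : SimpleGraph V} {H : SimpleGraph W} {N : ℕ}
  {σ ρ η : V → V → Prop} {o : V → ℝ}

namespace D4

theorem L_inv (hN : 5 ≤ N) (hσ : Iv G N σ) {a b w w' z z' : V}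
    (hT : T G G N [(w, w'), (z, z'), (a, a), (b, b)]) (h : L G.Adj σ a b w z) :
    L G.Adj σ a b w' z' := by
  rcases h with ⟨s, n⟩ | g
  · left
    refine ⟨fun t' ht' => ?_, fun hc => n fun t ht => ?_⟩
    · obtain ⟨t, ht⟩ := T_back hT (by simp only [List.length_cons, List.length_nil]; omega)
        (by simp) t'
      have e1 : G.Adj w t ↔ G.Adj w' t' :=
        ht.adj_iff (by omega) (a := (w, w')) (b := (t, t')) (by simp) (by simp)
      have e2 : G.Adj z t ↔ G.Adj z' t' :=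
        ht.adj_iff (by omega) (a := (z, z')) (b := (t, t')) (by simp) (by simp)
      exact e2.1 (s t (e1.2 ht'))
    · obtain ⟨t', ht'⟩ := T_forth hT (by simp only [List.length_cons, List.length_nil]; omega)
        (by simp) t
      have e1 : G.Adj w t ↔ G.Adj w' t' :=
        ht'.adj_iff (by omega) (a := (w, w')) (b := (t, t')) (by simp) (by simp)
      have e2 : G.Adj z t ↔ G.Adj z' t' :=
        ht'.adj_iff (by omega) (a := (z, z')) (b := (t, t')) (by simp) (by simp)
      exact e1.2 (hc t' (e2.1 ht))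
  · right
    refine ga_inv hN hσ (hT.mono ?_) g
    intro e he
    simp only [List.mem_cons, List.not_mem_nil, or_false] at he ⊢
    tauto

theorem no_L (hN : 5 ≤ N) (h : Nd G.Adj σ ρ o) (hσ : Iv G N σ) (hi : Iv G N ρ) {a b z z₁ : V}
    (hab : Span G.Adj σ ρ a b) (hz : ρ a z) (hz1 : ρ a z₁) (hs : σ z z₁)
    (hT : T G G N [(z, z₁), (a, a), (b, b)]) : ¬ L G.Adj σ a b z z₁ := by
  classical
  intro hL
  obtain ⟨β, hβ⟩ := hT.step (by simp only [List.length_cons, List.length_nil]; omega) (by simp)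
  have hone : ∀ {w w' z z' : V}, T G G N [(w, w'), (z, z'), (a, a), (b, b)] →
      ρ a w ∧ σ w z ∧ L G.Adj σ a b w z → ρ a w' ∧ σ w' z' ∧ L G.Adj σ a b w' z' := by
    intro w w' z z' hT' ⟨k1, k2, k3⟩
    refine ⟨hi _ _ _ _ (hT'.mono ?_) k1, hσ _ _ _ _ (hT'.mono ?_) k2, L_inv hN hσ hT' k3⟩
    · intro e he
      simp only [List.mem_cons, List.not_mem_nil, or_false] at he ⊢
      tauto
    · intro e he
      simp only [List.mem_cons, List.not_mem_nil, or_false] at he ⊢
      tauto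
  have hiff : ∀ w, (ρ a w ∧ σ w z ∧ L G.Adj σ a b w z) ↔
      (ρ a (β w) ∧ σ (β w) z₁ ∧ L G.Adj σ a b (β w) z₁) := by
    intro w
    exact ⟨hone (hβ w), hone (hβ w).symm⟩
  have hcard : (Finset.univ.filter fun w => ρ a w ∧ σ w z ∧ L G.Adj σ a b w z).card =
      (Finset.univ.filter fun w => ρ a w ∧ σ w z₁ ∧ L G.Adj σ a b w z₁).card := by
    refine Finset.card_bij (fun w _ => β w) ?_ ?_ ?_
    · intro w hw
      rw [Finset.mem_filter] at hw ⊢
      exact ⟨Finset.mem_univ _, (hiff w).1 hw.2⟩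
    · intro w _ w' _ hww
      exact β.injective hww
    · intro w' hw'
      rw [Finset.mem_filter] at hw'
      refine ⟨β.symm w', ?_, β.apply_symm_apply w'⟩
      rw [Finset.mem_filter]
      refine ⟨Finset.mem_univ _, (hiff _).2 ?_⟩
      rw [β.apply_symm_apply]
      exact hw'.2
  have hlt : (Finset.univ.filter fun w => ρ a w ∧ σ w z ∧ L G.Adj σ a b w z) ⊂
      (Finset.univ.filter fun w => ρ a w ∧ σ w z₁ ∧ L G.Adj σ a b w z₁) := by
    rw [Finset.ssubset_iff_of_subset]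
    · refine ⟨z, ?_, ?_⟩
      · rw [Finset.mem_filter]
        exact ⟨Finset.mem_univ _, hz, hs, hL⟩
      · rw [Finset.mem_filter]
        rintro ⟨-, -, -, hzz⟩
        exact L_irrefl h hab hzz
    · intro w hw
      rw [Finset.mem_filter] at hw ⊢
      obtain ⟨-, k1, k2, k3⟩ := hw
      exact ⟨Finset.mem_univ _, k1, h.st _ _ _ k2 hs, L_trans h hab k1 hz hz1 k2 hs k3 hL⟩
  have := Finset.card_lt_card hlt
  omega

end D4

theorem disc4 (hN : 5 ≤ N) (h : Nd G.Adj σ ρ o) (hσ : Iv G N σ) (hi : Iv G N ρ) {a b z z₁ : V}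
    (hab : Span G.Adj σ ρ a b) (hz : ρ a z) (hz1 : ρ a z₁) (hs : σ z z₁)
    (hT : T G G N [(z, z₁), (a, a), (b, b)]) : S G.Adj σ ρ z z₁ := by
  rcases L_total h hab hz hz1 hs with k | k | k
  · exact absurd k (D4.no_L hN h hσ hi hab hz hz1 hs hT)
  · exact absurd k (D4.no_L hN h hσ hi hab hz1 hz (h.ss _ _ hs) hT.symm)
  · exact ReflTransGen.single k

end Pool.Agent.J4.H24.CF
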