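import Mathlib

/-!
# Cross-free bipartite graphs: definitions

`E` is the adjacency of a bipartite graph, `σ` the relation of being on the same side, `ρ` an
equivalence relation whose classes (nodes) are seen uniformly (on each side) from outside, and `o`
orders the pairs `x, y` of one side in the induced matchings `x p`, `y q`.
-/

set_option autoImplicit false

namespace Pool.Agent.J4.H24.CF

open Relation

variable {V : Type}

/-- the structure -/
structure Nd (E σ ρ : V → V → Prop) (o : V → ℝ) : Prop where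
  es : ∀ x y, E x y → E y x
  sr : ∀ x, σ x x
  ss : ∀ x y, σ x y → σ y x
  st : ∀ x y z, σ x y → σ y z → σ x z
  en : ∀ x y, E x y → ¬ σ x y
  s3 : ∀ x y z, ρ x y → ρ y z → ¬ σ x y → ¬ σ y z → σ x z
  q4 : ∀ x y p q, σ x y → E x p → E y q → σ p q
  rr : ∀ x, ρ x x
  rs : ∀ x y, ρ x y → ρ y x
  rt : ∀ x y z, ρ x y → ρ y z → ρ x z
  mod : ∀ x y z, ρ x y → σ x y → ¬ ρ x z → (E x z ↔ E y z)
  ord : ∀ x y p q, σ x y → E x p → E y q → ¬ E x q → ¬ E y p → (o x < o y ↔ o p < o q)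
  ne : ∀ x y p q, σ x y → E x p → E y q → ¬ E x q → ¬ E y p → o x ≠ o y

/-- `x p`, `y q` is an induced matching -/
def Q (E σ : V → V → Prop) (x y p q : V) : Prop :=
  σ x y ∧ E x p ∧ E y q ∧ ¬ E x q ∧ ¬ E y p

/-- the classes of ordered pairs -/
def Ga (E σ : V → V → Prop) : V × V → V × V → Prop :=
  ReflTransGen fun s t => Q E σ s.1 s.2 t.1 t.2

/-- `x`, `y` are on the same side and have incomparable neighbourhoods -/
def Inc (E σ : V → V → Prop) (x y : V) : Prop :=
  σ x y ∧ (∃ p, E x p ∧ ¬ E y p) ∧ ∃ q, E y q ∧ ¬ E x q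

/-- `u` is in the support of the class of `x, y` -/
def Sup (E σ : V → V → Prop) (x y u : V) : Prop :=
  ∃ v, Ga E σ (x, y) (u, v) ∨ Ga E σ (x, y) (v, u)

/-- the class of `x, y` spans the node of `x` -/
def Span (E σ ρ : V → V → Prop) (x y : V) : Prop :=
  Inc E σ x y ∧ ρ x y ∧ ∀ w, ρ x w → Sup E σ x y w

/-- walks in the node -/
def ReE (E ρ : V → V → Prop) : V → V → Prop := ReflTransGen fun u v => ρ u v ∧ E u v

/-- walks of the bipartite complement in the node -/
def ReN (E σ ρ : V → V → Prop) : V → V → Prop :=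
  ReflTransGen fun u v => ρ u v ∧ ¬ σ u v ∧ ¬ E u v

/-- walks of the bipartite tournament in the node: arcs are the edges from the side of `r`, and the
non-edges from the other side -/
def ReD (E σ ρ : V → V → Prop) (r : V) : V → V → Prop :=
  ReflTransGen fun u v => ρ u v ∧ ¬ σ u v ∧ (E u v ↔ σ r u)

/-- the node of `x` is connected -/
def Con (E ρ : V → V → Prop) (x : V) : Prop := ∀ y, ρ x y → ReE E ρ x y

/-- the bipartite complement of the node of `x` is connected -/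
def Coc (E σ ρ : V → V → Prop) (x : V) : Prop := ∀ y, ρ x y → ReN E σ ρ x y

/-- the tournament is strongly connected -/
def Str (E σ ρ : V → V → Prop) (x : V) : Prop := ∀ u v, ρ x u → ρ x v → ReD E σ ρ x u v

/-- same side, not separated by the spanning class -/
def R (E σ ρ : V → V → Prop) (u v : V) : Prop :=
  ρ u v ∧ σ u v ∧ ((∀ z, E u z ↔ E v z) ∨ (Inc E σ u v ∧ ¬ Span E σ ρ u v))

/-- the blocks of one side -/
def S (E σ ρ : V → V → Prop) : V → V → Prop := ReflTransGen (R E σ ρ)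

/-- the block of `v` splits the block of `u` -/
def Lk (E σ ρ : V → V → Prop) (u v : V) : Prop :=
  ρ u v ∧ ¬ σ u v ∧ ∃ u₁ u₂ v₁, S E σ ρ u u₁ ∧ S E σ ρ u u₂ ∧ S E σ ρ v v₁ ∧ E u₁ v₁ ∧ ¬ E u₂ v₁

/-- the relation for strongly connected nodes -/
def N4 (E σ ρ : V → V → Prop) (u v : V) : Prop := S E σ ρ u v ∨ Lk E σ ρ u v

/-- the relation for the other connected and co-connected nodes -/
def N3 (E σ ρ : V → V → Prop) (u v : V) : Prop :=
  (ρ u v ∧ σ u v ∧ ∀ z, E u z ↔ E v z) ∨ (ReD E σ ρ u u v ∧ ReD E σ ρ u v u)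

/-- the refinement of the nodes -/
def Nx (E σ ρ : V → V → Prop) (u v : V) : Prop :=
  (¬ Con E ρ u ∧ ReE E ρ u v) ∨
  (Con E ρ u ∧ ¬ Coc E σ ρ u ∧ ReN E σ ρ u v) ∨
  (Con E ρ u ∧ Coc E σ ρ u ∧ ¬ Str E σ ρ u ∧ N3 E σ ρ u v) ∨
  (Con E ρ u ∧ Coc E σ ρ u ∧ Str E σ ρ u ∧ N4 E σ ρ u v)

end Pool.Agent.J4.H24.CF
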