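import Pool.Agent.J4.H24.CF.Defs

/-! Extension of the support of a class. -/

set_option autoImplicit false
set_option linter.unusedVariables false

namespace Pool.Agent.J4.H24.CF
open Relation
variable {V : Type} {E σ ρ : V → V → Prop} {o : V → ℝ}

namespace Ex

lemma q_symm (h : Nd E σ ρ o) {x y p q : V} (hq : Q E σ x y p q) : Q E σ p q x y := by
  obtain ⟨h1, h2, h3, h4, h5⟩ := hq
  exact ⟨h.q4 _ _ _ _ h1 h2 h3, h.es _ _ h2, h.es _ _ h3, fun e => h5 (h.es _ _ e),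
    fun e => h4 (h.es _ _ e)⟩

lemma ga_symm (h : Nd E σ ρ o) {s t : V × V} (hst : Ga E σ s t) : Ga E σ t s := by
  induction hst with
  | refl => exact ReflTransGen.refl
  | @tail b c _ hq ih =>
    exact (show Ga E σ c b from ReflTransGen.single (q_symm h hq)).trans ih

lemma ga_rho (h : Nd E σ ρ o) {x y u v : V} (hρ : ρ x y) (hg : Ga E σ (x, y) (u, v)) :
    ρ x u ∧ ρ x v := by
  suffices hs : ∀ s : V × V, Ga E σ (x, y) s → ρ x s.1 ∧ ρ x s.2 from hs (u, v) hg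
  intro s hs
  induction hs with
  | refl => exact ⟨h.rr x, hρ⟩
  | @tail s t _ hq ih =>
    obtain ⟨h1, h2, h3, h4, h5⟩ := hq
    obtain ⟨i1, i2⟩ := ih
    have i3 : ρ s.1 s.2 := h.rt _ _ _ (h.rs _ _ i1) i2
    constructor
    · by_contra hc
      have hn : ¬ ρ s.1 t.1 := fun e => hc (h.rt _ _ _ i1 e)
      exact h5 ((h.mod _ _ _ i3 h1 hn).1 h2)
    · by_contra hc
      have hn : ¬ ρ s.1 t.2 := fun e => hc (h.rt _ _ _ i1 e)
      exact h4 ((h.mod _ _ _ i3 h1 hn).2 h3)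

lemma ga_inc (h : Nd E σ ρ o) {x y : V} {s : V × V} (hi : Inc E σ x y)
    (hg : Ga E σ (x, y) s) : Inc E σ s.1 s.2 := by
  induction hg with
  | refl => exact hi
  | tail _ hq _ =>
    obtain ⟨h1, h2, h3, h4, h5⟩ := q_symm h hq
    exact ⟨h1, ⟨_, h2, h5⟩, _, h3, h4⟩

lemma sup_sep (h : Nd E σ ρ o) {x y u : V} (hi : Inc E σ x y) (hu : Sup E σ x y u) :
    (∃ p, Sup E σ x y p ∧ E u p) ∧ ∃ q, Sup E σ x y q ∧ ¬ σ u q ∧ ¬ E u q := by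
  obtain ⟨v, hv | hv⟩ := hu
  · obtain ⟨h1, ⟨p, hp1, hp2⟩, q, hq1, hq2⟩ := ga_inc h hi hv
    have hQ : Ga E σ (x, y) (p, q) := hv.tail ⟨h1, hp1, hq1, hq2, hp2⟩
    exact ⟨⟨p, ⟨q, Or.inl hQ⟩, hp1⟩, q, ⟨p, Or.inr hQ⟩,
      fun e => h.en _ _ hq1 (h.st _ _ _ (h.ss _ _ h1) e), hq2⟩
  · obtain ⟨h1, ⟨p, hp1, hp2⟩, q, hq1, hq2⟩ := ga_inc h hi hv
    have hQ : Ga E σ (x, y) (p, q) := hv.tail ⟨h1, hp1, hq1, hq2, hp2⟩
    exact ⟨⟨q, ⟨p, Or.inr hQ⟩, hq1⟩, p, ⟨q, Or.inl hQ⟩,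
      fun e => h.en _ _ hp1 (h.st _ _ _ h1 e), hp2⟩

end Ex

theorem ext (h : Nd E σ ρ o) {a b p q r : V} (hi : Inc E σ a b) (hab : ρ a b) (hp : ρ a p)
    (hq : ρ a q) (hr : ρ a r) (hrS : ¬ Sup E σ a b r) (hpq : σ p q) (hrp : ¬ σ r p)
    (hpf : ∀ k, Sup E σ a b k → ¬ σ k p → E k p) (hqe : ∀ k, Sup E σ a b k → ¬ E k q)
    (h1 : ¬ E r p) (h2 : E r q) :
    ∃ c d, Inc E σ c d ∧ ρ a c ∧ ρ a d ∧ (∀ k, Sup E σ a b k → Sup E σ c d k) ∧ Sup E σ c d r := by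
  have hKρ : ∀ k, Sup E σ a b k → ρ a k := by
    rintro k ⟨v, hv | hv⟩
    · exact (Ex.ga_rho h hab hv).1
    · exact (Ex.ga_rho h hab hv).2
  have haS : Sup E σ a b a := ⟨b, Or.inl ReflTransGen.refl⟩
  -- an element of the support on the side of `r`
  obtain ⟨c, hcS, hcr⟩ : ∃ c, Sup E σ a b c ∧ σ c r := by
    by_cases har : σ a r
    · exact ⟨a, haS, har⟩
    · obtain ⟨⟨c, hc, hac⟩, -⟩ := Ex.sup_sep h hi haS
      refine ⟨c, hc, h.s3 c a r (h.rs _ _ (hKρ c hc)) hr (fun hs => h.en a c hac (h.ss _ _ hs)) har⟩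
  have hside : ∀ k, Sup E σ a b k → σ k r → ¬ σ k p := fun k _ hkr hkp =>
    hrp (h.st _ _ _ (h.ss _ _ hkr) hkp)
  have hside' : ∀ k, Sup E σ a b k → ¬ σ k r → σ k p := fun k hk hkr =>
    h.s3 k r p (h.rt _ _ _ (h.rs _ _ (hKρ k hk)) hr) (h.rt _ _ _ (h.rs _ _ hr) hp) hkr hrp
  have hQ : ∀ k, Sup E σ a b k → σ k r → Q E σ k r p q := fun k hk hkr =>
    ⟨hkr, hpf k hk (hside k hk hkr), h2, hqe k hk, h1⟩
  have hcpq : Ga E σ (c, r) (p, q) := ReflTransGen.single (hQ c hcS hcr)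
  have hclass : ∀ k, Sup E σ a b k → σ k r → Ga E σ (c, r) (k, r) := fun k hk hkr =>
    hcpq.trans (Ex.ga_symm h (ReflTransGen.single (hQ k hk hkr)))
  refine ⟨c, r, ⟨hcr, ⟨p, hpf c hcS (hside c hcS hcr), h1⟩, q, h2, hqe c hcS⟩, hKρ c hcS, hr,
    fun k hk => ?_, ⟨c, Or.inr ReflTransGen.refl⟩⟩
  by_cases hkr : σ k r
  · exact ⟨r, Or.inl (hclass k hk hkr)⟩
  · obtain ⟨⟨k', hk', hkk'⟩, k'', hk'', hσ'', hkk''⟩ := Ex.sup_sep h hi hk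
    have hρk : ∀ j, Sup E σ a b j → ρ j k := fun j hj =>
      h.rt _ _ _ (h.rs _ _ (hKρ j hj)) (hKρ k hk)
    have hρr : ρ k r := h.rt _ _ _ (h.rs _ _ (hKρ k hk)) hr
    by_cases hsee : E r k
    · -- `r` sees the other side
      have hs : σ k'' r := h.s3 k'' k r (hρk _ hk'') hρr (fun hs => hσ'' (h.ss _ _ hs)) hkr
      have hq' : Q E σ k'' r p k :=
        ⟨hs, hpf k'' hk'' (hside k'' hk'' hs), hsee, fun he => hkk'' (h.es _ _ he), h1⟩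
      exact ⟨p, Or.inr ((hclass k'' hk'' hs).trans (ReflTransGen.single hq'))⟩
    · have hs : σ k' r := h.s3 k' k r (hρk _ hk') hρr
        (fun hs => h.en k k' hkk' (h.ss _ _ hs)) hkr
      have hq' : Q E σ k' r k q := ⟨hs, h.es _ _ hkk', h2, hqe k' hk', hsee⟩
      exact ⟨q, Or.inl ((hclass k' hk' hs).trans (ReflTransGen.single hq'))⟩

end Pool.Agent.J4.H24.CF
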