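import Pool.Agent.J4.H24.CF.Cfd

/-! # Piece GE1: complements of intersection graphs of equal disks on two sides of a line -/

set_option autoImplicit false

namespace Pool.Agent.J4.H24.CF

variable {V : Type}

namespace Ge1

theorem key1 {x1 y1 x2 y2 u1 v1 u2 v2 : ℝ} (hx : x1 < x2) (hxu : x2 ≤ u2) (hu : u2 < u1)
    (h22 : 4 < (x2 - u2) ^ 2 + (y2 - v2) ^ 2) (h12 : (x1 - u2) ^ 2 + (y1 - v2) ^ 2 ≤ 4)
    (h21 : (x2 - u1) ^ 2 + (y2 - v1) ^ 2 ≤ 4) : 0 < (y2 - y1) * (v1 - v2) := by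
  have h1 : (v2 - y1) ^ 2 < (v2 - y2) ^ 2 := by nlinarith
  have h2 : (v1 - y2) ^ 2 < (v2 - y2) ^ 2 := by nlinarith
  rw [sq_lt_sq] at h1 h2
  rcases le_or_gt y2 v2 with h | h
  · rw [abs_of_nonneg (sub_nonneg.2 h), abs_lt] at h1 h2
    nlinarith
  · rw [abs_of_neg (sub_neg.2 h), abs_lt] at h1 h2
    nlinarith

theorem key {x1 y1 x2 y2 u1 v1 u2 v2 : ℝ} (hx1 : x1 ≤ u1) (hx2 : x2 ≤ u2)
    (h11 : 4 < (x1 - u1) ^ 2 + (y1 - v1) ^ 2) (h22 : 4 < (x2 - u2) ^ 2 + (y2 - v2) ^ 2)
    (h12 : (x1 - u2) ^ 2 + (y1 - v2) ^ 2 ≤ 4)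
    (h21 : (x2 - u1) ^ 2 + (y2 - v1) ^ 2 ≤ 4) : 0 < (y2 - y1) * (v1 - v2) := by
  by_contra hcon
  have h3 : 0 < (x2 - x1) * (u1 - u2) := by nlinarith
  rcases lt_trichotomy x1 x2 with h | h | h
  · have hu : u2 < u1 := by
      by_contra hu
      nlinarith [mul_nonneg (sub_nonneg.2 h.le) (sub_nonneg.2 (not_lt.1 hu))]
    exact hcon (key1 h hx2 hu h22 h12 h21)
  · rw [h, sub_self, zero_mul] at h3
    exact lt_irrefl _ h3
  · have hu : u1 < u2 := by
      by_contra hu
      nlinarith [mul_nonneg (sub_nonneg.2 h.le) (sub_nonneg.2 (not_lt.1 hu))]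
    have := key1 h hx1 hu h11 h21 h12
    apply hcon
    nlinarith

end Ge1

theorem split_cf {X : SimpleGraph V} (h : IsSplitUnit X) : CrossFree Xᶜ.Adj := by
  classical
  obtain ⟨x, y, A, hA, hside, hadj⟩ := h
  have hE : ∀ u v, Xᶜ.Adj u v → 4 < (x u - x v) ^ 2 + (y u - y v) ^ 2 := by
    intro u v huv
    rw [SimpleGraph.compl_adj, hadj] at huv
    by_contra hcon
    exact huv.2 ⟨huv.1, not_lt.1 hcon⟩
  have hN : ∀ u v, ¬ Xᶜ.Adj u v → (x u - x v) ^ 2 + (y u - y v) ^ 2 ≤ 4 := by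
    intro u v huv
    rw [SimpleGraph.compl_adj, hadj] at huv
    by_cases he : u = v
    · subst he
      norm_num
    · by_contra hcon
      exact huv ⟨he, fun h => hcon h.2⟩
  have hop : ∀ u v, Xᶜ.Adj u v → (A u ↔ ¬ A v) := by
    intro u v huv
    by_contra hcon
    have h1 : A u ↔ A v := by tauto
    exact not_lt.2 (hside u v h1) (hE u v huv)
  refine ⟨A, fun v => if A v then y v else - y v, hop, ?_⟩
  intro a b p q hab hap hbq haq hbp
  have e1 := hE _ _ hap
  have e2 := hE _ _ hbq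
  have e3 := hN _ _ haq
  have e4 := hN _ _ hbp
  have o1 := hop _ _ hap
  have o2 := hop _ _ hbq
  by_cases ha : A a
  · have hb : A b := hab.1 ha
    have hp : ¬ A p := o1.1 ha
    have hq : ¬ A q := o2.1 hb
    have hk := Ge1.key (hA a p ha hp) (hA b q hb hq) e1 e2 e3 e4
    simp only [ha, hb, hp, hq, if_true, if_false]
    constructor
    · intro h
      rw [h, sub_self, zero_mul] at hk
      exact lt_irrefl _ hk
    · constructor
      · intro h
        nlinarith
      · intro h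
        nlinarith
  · have hb : ¬ A b := fun hb => ha (hab.2 hb)
    have hp : A p := by
      by_contra hp
      exact ha (o1.2 hp)
    have hq : A q := by
      by_contra hq
      exact hb (o2.2 hq)
    have hk := Ge1.key (x1 := x p) (y1 := y p) (x2 := x q) (y2 := y q) (u1 := x a) (v1 := y a)
      (u2 := x b) (v2 := y b) (hA p a hp ha) (hA q b hq hb) (by nlinarith) (by nlinarith)
      (by nlinarith) (by nlinarith)
    simp only [ha, hb, hp, hq, if_true, if_false]
    constructor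
    · intro h
      have h' : y a = y b := by linarith
      rw [h', sub_self, mul_zero] at hk
      exact lt_irrefl _ hk
    · constructor
      · intro h
        nlinarith
      · intro h
        nlinarith

end Pool.Agent.J4.H24.CF
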