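import Pool.Agent.J4.H24.CF.Cfd

/-!
# Equal disks pierced by two points: coordinates (piece GE2, helper46)
-/

set_option autoImplicit false

namespace Pool.Agent.J4.H24.CF

variable {V : Type}

namespace Ge2

lemma dist_sq (a b : EuclideanSpace ℝ (Fin 2)) :
    dist a b ^ 2 = (a 0 - b 0) ^ 2 + (a 1 - b 1) ^ 2 := by
  rw [EuclideanSpace.dist_eq, Real.sq_sqrt (Finset.sum_nonneg fun i _ => sq_nonneg _),
    Fin.sum_univ_two, Real.dist_eq, Real.dist_eq, sq_abs, sq_abs]

lemma two (a b : EuclideanSpace ℝ (Fin 2)) : dist a b ≤ 2 ↔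
    (a 0 - b 0) ^ 2 + (a 1 - b 1) ^ 2 ≤ 4 := by
  rw [← dist_sq]
  constructor
  · intro h
    nlinarith [dist_nonneg (x := a) (y := b)]
  · intro h
    nlinarith [dist_nonneg (x := a) (y := b)]

lemma meet (a b : EuclideanSpace ℝ (Fin 2)) :
    (Metric.closedBall a 1 ∩ Metric.closedBall b 1).Nonempty ↔
      (a 0 - b 0) ^ 2 + (a 1 - b 1) ^ 2 ≤ 4 := by
  rw [← two, ← Set.not_disjoint_iff_nonempty_inter,
    disjoint_closedBall_closedBall_iff zero_le_one zero_le_one, not_lt]
  norm_num

/-- two points at distance at most one from the same point -/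
lemma near {a b p : EuclideanSpace ℝ (Fin 2)} (ha : dist a p ≤ 1) (hb : dist b p ≤ 1) :
    (a 0 - b 0) ^ 2 + (a 1 - b 1) ^ 2 ≤ 4 := by
  rw [← two]
  have := dist_triangle_right a b p
  linarith

end Ge2

open Ge2

theorem pierced_split {X : SimpleGraph V} (h : IsPiercedUnit X) : IsSplitUnit X := by
  obtain ⟨z, p, q, h1, h2⟩ := h
  have hp : ∀ v, dist (z v) p ≤ dist (z v) q → dist (z v) p ≤ 1 := by
    intro v hv
    rcases h1 v with k | k
    · rw [Metric.mem_closedBall, dist_comm] at k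
      exact k
    · rw [Metric.mem_closedBall, dist_comm] at k
      exact hv.trans k
  have hq : ∀ v, ¬ dist (z v) p ≤ dist (z v) q → dist (z v) q ≤ 1 := by
    intro v hv
    rcases h1 v with k | k
    · rw [Metric.mem_closedBall, dist_comm] at k
      exact (not_le.1 hv).le.trans k
    · rw [Metric.mem_closedBall, dist_comm] at k
      exact k
  have hd : ∀ u v, (dist (z u) p ≤ dist (z u) q ↔ dist (z v) p ≤ dist (z v) q) →
      (z u 0 - z v 0) ^ 2 + (z u 1 - z v 1) ^ 2 ≤ 4 := by
    intro u v huv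
    by_cases k : dist (z u) p ≤ dist (z u) q
    · exact near (hp u k) (hp v (huv.1 k))
    · exact near (hq u k) (hq v fun e => k (huv.2 e))
  by_cases hpq : p = q
  · subst hpq
    refine ⟨fun v => z v 0, fun v => z v 1, fun v => dist (z v) p ≤ dist (z v) p, ?_, hd, ?_⟩
    · intro u v _ hv
      exact absurd le_rfl hv
    · intro u v
      rw [h2, meet]
  · set c : ℝ := q 0 - p 0 with hc
    set d : ℝ := q 1 - p 1 with hd'
    have hn : 0 < c ^ 2 + d ^ 2 := by
      have : dist q p ^ 2 = c ^ 2 + d ^ 2 := dist_sq q p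
      rw [← this]
      have := dist_pos.2 (Ne.symm hpq)
      positivity
    set n : ℝ := Real.sqrt (c ^ 2 + d ^ 2) with hn'
    have hn0 : 0 < n := Real.sqrt_pos.2 hn
    have hn2 : n ^ 2 = c ^ 2 + d ^ 2 := Real.sq_sqrt hn.le
    have key : ∀ u v, ((c * z u 0 + d * z u 1) / n - (c * z v 0 + d * z v 1) / n) ^ 2 +
        ((c * z u 1 - d * z u 0) / n - (c * z v 1 - d * z v 0) / n) ^ 2 =
        (z u 0 - z v 0) ^ 2 + (z u 1 - z v 1) ^ 2 := by
      intro u v
      have e : ((c * z u 0 + d * z u 1) / n - (c * z v 0 + d * z v 1) / n) ^ 2 +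
        ((c * z u 1 - d * z u 0) / n - (c * z v 1 - d * z v 0) / n) ^ 2 =
        ((c ^ 2 + d ^ 2) * ((z u 0 - z v 0) ^ 2 + (z u 1 - z v 1) ^ 2)) / n ^ 2 := by
        field_simp
        ring
      rw [e, hn2]
      field_simp
    have side : ∀ v, dist (z v) p ≤ dist (z v) q ↔
        2 * (c * z v 0 + d * z v 1) ≤ (q 0 ^ 2 + q 1 ^ 2) - (p 0 ^ 2 + p 1 ^ 2) := by
      intro v
      rw [← sq_le_sq₀ dist_nonneg dist_nonneg, dist_sq, dist_sq, hc, hd']
      constructor <;> intro k <;> nlinarith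
    refine ⟨fun v => (c * z v 0 + d * z v 1) / n, fun v => (c * z v 1 - d * z v 0) / n,
      fun v => dist (z v) p ≤ dist (z v) q, ?_, ?_, ?_⟩
    · intro u v hu hv
      have k1 := (side u).1 hu
      have k2 := not_le.1 fun e => hv ((side v).2 e)
      exact div_le_div_of_nonneg_right (by linarith) hn0.le
    · intro u v huv
      simp only [key]
      exact hd u v huv
    · intro u v
      simp only [key]
      rw [h2, meet]

end Pool.Agent.J4.H24.CF
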