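import Pool.Agent.J4.H24.CF.TDefs

/-! Invariance of the relations under the method. -/

set_option autoImplicit false

namespace Pool.Agent.J4.H24.CF
open Relation Pool.Agent.W185.SRG Pool.Agent.J4.H77.CG
variable {V W : Type} [Fintype V] [Fintype W] {G : SimpleGraph V} {H : SimpleGraph W} {N : ℕ}
  {σ ρ η : V → V → Prop} {o : V → ℝ}

theorem Iv.iff (hi : Iv G N ρ) {x x' y y' : V} (hT : T G G N [(x, x'), (y, y')]) :
    ρ x y ↔ ρ x' y' :=
  ⟨hi _ _ _ _ hT, hi _ _ _ _ hT.symm⟩

/-- invariance of walks -/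
theorem iv_walk (hN : 5 ≤ N) (L : List (V × V)) (hL : L.length ≤ 3) {r r' : V → V → Prop}
    (hr : ∀ u u' v v', T G G N ((u, u') :: (v, v') :: L) → r u v → r' u' v') {x x' y y' : V}
    (hT : T G G N ((x, x') :: (y, y') :: L)) (h : ReflTransGen r x y) :
    ReflTransGen r' x' y' := by
  induction h using ReflTransGen.head_induction_on generalizing x' with
  | refl =>
    have h1 := (hT.eq_iff (by omega) (a := (y, x')) (b := (y, y')) (by simp) (by simp)).1 rfl
    have h2 : x' = y' := h1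
    rw [h2]
  | @head u z h1 _ ih =>
    obtain ⟨z', hz⟩ := T_forth hT (by simp only [List.length_cons]; omega) (by simp) z
    have h3 : T G G N ((u, x') :: (z, z') :: L) := hz.mono (by
      intro e he
      simp only [List.mem_cons] at he ⊢
      tauto)
    have h4 : T G G N ((z, z') :: (y, y') :: L) := hz.mono (by
      intro e he
      simp only [List.mem_cons] at he ⊢
      tauto)
    exact ReflTransGen.head (hr _ _ _ _ h3 h1) (ih h4)

theorem iv_adj (hN : 5 ≤ N) : Iv G N G.Adj := fun x x' y y' hT h =>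
  (hT.adj_iff (by omega) (a := (x, x')) (b := (y, y')) (by simp) (by simp)).1 h

theorem iv_rtg (hN : 5 ≤ N) (hi : Iv G N ρ) : Iv G N (ReflTransGen ρ) := fun _ _ _ _ hT h =>
  iv_walk hN [] (by simp) (fun _ _ _ _ h1 h2 => hi _ _ _ _ h1 h2) hT h

theorem iv_sd (hN : 5 ≤ N) : Iv G N (Sd G.Adj) := by
  refine iv_rtg hN ?_
  rintro x x' z z' hT ⟨y, h1, h2⟩
  obtain ⟨y', hy⟩ := T_forth hT (by simp only [List.length_cons, List.length_nil]; omega) (by simp) y
  exact ⟨y', (hy.adj_iff (by omega) (a := (x, x')) (b := (y, y')) (by simp) (by simp)).1 h1,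
    (hy.adj_iff (by omega) (a := (y, y')) (b := (z, z')) (by simp) (by simp)).1 h2⟩

theorem iv_reE (hN : 5 ≤ N) (hi : Iv G N ρ) : Iv G N (ReE G.Adj ρ) :=
  iv_rtg hN fun _ _ _ _ hT h => ⟨hi _ _ _ _ hT h.1, iv_adj hN _ _ _ _ hT h.2⟩

theorem iv_reN (hN : 5 ≤ N) (hσ : Iv G N σ) (hi : Iv G N ρ) : Iv G N (ReN G.Adj σ ρ) :=
  iv_rtg hN fun _ _ _ _ hT h => ⟨hi _ _ _ _ hT h.1, fun hs => h.2.1 ((hσ.iff hT).2 hs),
    fun he => h.2.2 (((iv_adj hN).iff hT).2 he)⟩

theorem reD_inv (hN : 5 ≤ N) (hσ : Iv G N σ) (hi : Iv G N ρ) {r r' u u' v v' : V}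
    (hT : T G G N [(r, r'), (u, u'), (v, v')]) (h : ReD G.Adj σ ρ r u v) :
    ReD G.Adj σ ρ r' u' v' := by
  refine iv_walk hN [(r, r')] (by simp) (fun u u' v v' h1 h2 => ?_) (hT.mono ?_) h
  · have h3 : T G G N [(u, u'), (v, v')] := h1.mono (by
      intro e he
      simp only [List.mem_cons] at he ⊢
      tauto)
    have h4 : T G G N [(r, r'), (u, u')] := h1.mono (by
      intro e he
      simp only [List.mem_cons, List.not_mem_nil, or_false] at he ⊢
      tauto)
    refine ⟨hi _ _ _ _ h3 h2.1, fun hs => h2.2.1 ((hσ.iff h3).2 hs), ?_⟩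
    rw [← (iv_adj hN).iff h3, ← hσ.iff h4]
    exact h2.2.2
  · intro e he
    simp only [List.mem_cons, List.not_mem_nil, or_false] at he ⊢
    tauto

theorem con_inv (hN : 5 ≤ N) (hi : Iv G N ρ) {x x' : V} (hT : T G G N [(x, x')])
    (h : Con G.Adj ρ x) : Con G.Adj ρ x' := by
  intro y' hy'
  obtain ⟨y, hy⟩ := T_back hT (by simp only [List.length_cons, List.length_nil]; omega) (by simp) y'
  have h1 : T G G N [(x, x'), (y, y')] := hy.mono (by
    intro e he
    simp only [List.mem_cons, List.not_mem_nil, or_false] at he ⊢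
    tauto)
  exact iv_reE hN hi _ _ _ _ h1 (h y ((hi.iff h1).2 hy'))

theorem coc_inv (hN : 5 ≤ N) (hσ : Iv G N σ) (hi : Iv G N ρ) {x x' : V}
    (hT : T G G N [(x, x')]) (h : Coc G.Adj σ ρ x) : Coc G.Adj σ ρ x' := by
  intro y' hy'
  obtain ⟨y, hy⟩ := T_back hT (by simp only [List.length_cons, List.length_nil]; omega) (by simp) y'
  have h1 : T G G N [(x, x'), (y, y')] := hy.mono (by
    intro e he
    simp only [List.mem_cons, List.not_mem_nil, or_false] at he ⊢
    tauto)
  exact iv_reN hN hσ hi _ _ _ _ h1 (h y ((hi.iff h1).2 hy'))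

theorem str_inv (hN : 5 ≤ N) (hσ : Iv G N σ) (hi : Iv G N ρ) {x x' : V}
    (hT : T G G N [(x, x')]) (h : Str G.Adj σ ρ x) : Str G.Adj σ ρ x' := by
  intro u' v' hu' hv'
  obtain ⟨u, hu⟩ := T_back hT (by simp only [List.length_cons, List.length_nil]; omega) (by simp) u'
  obtain ⟨v, hv⟩ := T_back hu (by simp only [List.length_cons, List.length_nil]; omega) (by simp) v'
  have h1 : T G G N [(x, x'), (u, u')] := hv.mono (by
    intro e he
    simp only [List.mem_cons, List.not_mem_nil, or_false] at he ⊢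
    tauto)
  have h2 : T G G N [(x, x'), (v, v')] := hv.mono (by
    intro e he
    simp only [List.mem_cons, List.not_mem_nil, or_false] at he ⊢
    tauto)
  have h3 : T G G N [(x, x'), (u, u'), (v, v')] := hv.mono (by
    intro e he
    simp only [List.mem_cons, List.not_mem_nil, or_false] at he ⊢
    tauto)
  exact reD_inv hN hσ hi h3 (h u v ((hi.iff h1).2 hu') ((hi.iff h2).2 hv'))

theorem iv_N3 (hN : 5 ≤ N) (hσ : Iv G N σ) (hi : Iv G N ρ) : Iv G N (N3 G.Adj σ ρ) := by
  rintro u u' v v' hT (⟨h1, h2, h3⟩ | ⟨h1, h2⟩)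
  · refine Or.inl ⟨hi _ _ _ _ hT h1, hσ _ _ _ _ hT h2, fun z' => ?_⟩
    obtain ⟨z, hz⟩ := T_back hT (by simp only [List.length_cons, List.length_nil]; omega)
      (by simp) z'
    have e1 := hz.adj_iff (by omega) (a := (u, u')) (b := (z, z')) (by simp) (by simp)
    have e2 := hz.adj_iff (by omega) (a := (v, v')) (b := (z, z')) (by simp) (by simp)
    simp only at e1 e2
    rw [← e1, ← e2]
    exact h3 z
  · have h3 : T G G N [(u, u'), (u, u'), (v, v')] := hT.mono (by
      intro e he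
      simp only [List.mem_cons, List.not_mem_nil, or_false] at he ⊢
      tauto)
    have h4 : T G G N [(u, u'), (v, v'), (u, u')] := hT.mono (by
      intro e he
      simp only [List.mem_cons, List.not_mem_nil, or_false] at he ⊢
      tauto)
    exact Or.inr ⟨reD_inv hN hσ hi h3 h1, reD_inv hN hσ hi h4 h2⟩

end Pool.Agent.J4.H24.CF
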