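import Pool.Agent.J4.H24.CF.TDefs

/-!
# Gluing when a pair of vertices distinguishes the classes (piece LD)
-/

set_option autoImplicit false

namespace Pool.Agent.J4.H24.CF

open Relation Pool.Agent.W185.SRG Pool.Agent.J4.H77.CG

variable {V W : Type} [Fintype V] [Fintype W] {G : SimpleGraph V} {H : SimpleGraph W} {N : ℕ}
  {σ ρ η : V → V → Prop}

namespace LD

theorem im_iff (hi : Iv G N ρ) {y z : V} {y' z' : W}
    (hT : T G H N [(y, y'), (z, z')]) : ρ y z ↔ Im G H N ρ y' z' := by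
  constructor
  · exact fun h => ⟨y, z, hT, h⟩
  · rintro ⟨y1, z1, h1, h2⟩
    have h3 : T H G N [(y', y), (z', z)] := T.symm hT
    have h4 : T G G N [(y1, y), (z1, z)] := T.trans [(y1, y', y), (z1, z', z)] h1 h3
    exact hi _ _ _ _ h4 h2

theorem uniq (eσ : Equivalence σ) (iσ : Iv G N σ) (iρ : Iv G N ρ) (eρ : Equivalence ρ)
    (s3 : ∀ x y z, ρ x y → ρ y z → ¬ σ x y → ¬ σ y z → σ x z)
    {r s : V} {r' s' : W}
    (hd : ∀ z z₁, ρ r z → ρ r z₁ → σ z z₁ → T G G N [(z, z₁), (r, r), (s, s)] → η z z₁)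
    {a b : V} {p' : W} (ha : T G H N [(a, p'), (r, r'), (s, s')])
    (hb : T G H N [(b, p'), (r, r'), (s, s')]) (hra : ρ r a) :
    η a b ∧ σ a b ∧ ρ r b := by
  have ha2 : T G H N [(r, r'), (a, p')] := ha.mono (by simp)
  have hb2 : T G H N [(r, r'), (b, p')] := hb.mono (by simp)
  have h1 : ρ r b := (im_iff iρ hb2).2 ((im_iff iρ ha2).1 hra)
  have h2 : σ r a ↔ σ r b := (im_iff iσ ha2).trans (im_iff iσ hb2).symm
  have h3 : σ a b := by
    by_cases h : σ r a
    · exact eσ.trans (eσ.symm h) (h2.1 h)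
    · exact s3 a r b (eρ.symm hra) h1 (fun h' => h (eσ.symm h')) (fun h' => h (h2.2 h'))
  have h4 : T H G N [(p', b), (r', r), (s', s)] := T.symm hb
  have h5 : T G G N [(a, b), (r, r), (s, s)] :=
    T.trans [(a, p', b), (r, r', r), (s, s', s)] ha h4
  exact ⟨hd a b hra h1 h3 h5, h3, h1⟩

end LD

theorem lift_disc (hN : 5 ≤ N) (eσ : Equivalence σ) (eρ : Equivalence ρ) (eη : Equivalence η)
    (hle : ∀ x y, η x y → ρ x y) (iσ : Iv G N σ) (iρ : Iv G N ρ) (iη : Iv G N η)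
    (s3 : ∀ x y z, ρ x y → ρ y z → ¬ σ x y → ¬ σ y z → σ x z)
    (hmod : ∀ x y z, η x y → σ x y → ¬ η x z → (G.Adj x z ↔ G.Adj y z))
    {r s : V} {r' s' : W} (hT : T G H N [(r, r'), (s, s')]) (hrs : ρ r s)
    (hd : ∀ z z₁, ρ r z → ρ r z₁ → σ z z₁ → T G G N [(z, z₁), (r, r), (s, s)] → η z z₁)
    (hI : ∀ z z', ρ r z → T G H N [(z, z'), (r, r'), (s, s')] →
      ∃ f, Is G H σ η (Im G H N σ) (Im G H N η) z z' f) :
    ∃ f, Is G H σ ρ (Im G H N σ) (Im G H N ρ) r r' f := by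
  classical
  obtain ⟨β, hβ⟩ := hT.step (by simp; omega) (by simp)
  -- the isomorphisms of the classes
  have hF : ∀ z, ∃ f, ρ r z → Is G H σ η (Im G H N σ) (Im G H N η) z (β z) f := by
    intro z
    by_cases hz : ρ r z
    · obtain ⟨f, hf⟩ := hI z (β z) hz (hβ z)
      exact ⟨f, fun _ => hf⟩
    · exact ⟨fun _ => r', fun h => absurd h hz⟩
  choose F hF using hF
  -- representatives
  let st : Setoid V := ⟨η, eη⟩
  let c : V → V := fun u => (Quotient.mk st u).out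
  have hc : ∀ u, η (c u) u := fun u => Quotient.exact (s := st) (Quotient.out_eq _)
  have hcc : ∀ u v, η u v → c u = c v := fun u v h => by
    have : Quotient.mk st u = Quotient.mk st v := Quotient.sound h
    simp only [c, this]
  have hrc : ∀ u, ρ r u → ρ r (c u) := fun u hu => eρ.trans hu (eρ.symm (hle _ _ (hc u)))
  let f : V → W := fun u => F (c u) u
  -- the vertex which corresponds to `f u`
  have key : ∀ u, ρ r u → ∃ u₁, T G H N [(u₁, f u), (r, r'), (s, s')] ∧ η u u₁ ∧ σ u u₁ := by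
    intro u hu
    have h1 := hF (c u) (hrc u hu)
    obtain ⟨u₁, h2⟩ := T_back (hβ (c u)) (by simp; omega) (by simp) (f u)
    have h3 : T G H N [(c u, β (c u)), (u₁, f u)] := h2.mono (by simp)
    have h4 : Im G H N η (β (c u)) (f u) := h1.1.mapsTo (hc u)
    have h5 : η (c u) u₁ := (LD.im_iff iη h3).2 h4
    have h6 : σ (c u) u ↔ σ (c u) u₁ := (h1.2.2 u (hc u)).trans (LD.im_iff iσ h3).symm
    refine ⟨u₁, h2.mono (by simp), eη.trans (eη.symm (hc u)) h5, ?_⟩
    by_cases h : σ (c u) u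
    · exact eσ.trans (eσ.symm h) (h6.1 h)
    · exact s3 u (c u) u₁ (hle _ _ (eη.symm (hc u))) (hle _ _ h5) (fun h' => h (eσ.symm h'))
        (fun h' => h (h6.2 h'))
  have hun := @LD.uniq V W _ _ G H N σ ρ η eσ iσ iρ eρ s3 r s r' s' hd
  refine ⟨f, ⟨?_, ?_, ?_⟩, ?_, ?_⟩
  · intro u hu
    obtain ⟨u₁, h1, h2, h3⟩ := key u hu
    have h4 : T G H N [(r, r'), (u₁, f u)] := h1.mono (by simp)
    exact ⟨r, u₁, h4, eρ.trans hu (hle _ _ h2)⟩
  · intro u hu v hv huv
    obtain ⟨u₁, h1, h2, h3⟩ := key u hu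
    obtain ⟨v₁, h1', h2', h3'⟩ := key v hv
    rw [← huv] at h1'
    obtain ⟨h4, -, -⟩ := hun h1 h1' (eρ.trans hu (hle _ _ h2))
    have h5 : η u v := eη.trans h2 (eη.trans h4 (eη.symm h2'))
    have h6 := hcc u v h5
    have h7 := (hF (c u) (hrc u hu)).1.injOn
    refine h7 (hc u) (eη.trans (hc u) h5) ?_
    show F (c u) u = F (c u) v
    have h8 : F (c u) u = F (c v) v := huv
    rw [h8, h6]
  · intro w' hw'
    obtain ⟨w, h1⟩ := T_back hT (by simp; omega) (by simp) w'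
    have h2 : T G H N [(r, r'), (w, w')] := h1.mono (by simp)
    have h3 : ρ r w := (LD.im_iff iρ h2).2 hw'
    obtain ⟨z₁, h4⟩ := T_back h1 (by simp; omega) (by simp) (β (c w))
    have h5 : T G H N [(z₁, β (c w)), (r, r'), (s, s')] := h4.mono (by simp)
    obtain ⟨h6, -, -⟩ := hun (hβ (c w)) h5 (hrc w h3)
    have h7 : η z₁ w := eη.trans (eη.symm h6) (hc w)
    have h8 : T G H N [(z₁, β (c w)), (w, w')] := h4.mono (by simp)
    have h9 : Im G H N η (β (c w)) w' := ⟨z₁, w, h8, h7⟩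
    obtain ⟨u, hu, hu2⟩ := (hF (c w) (hrc w h3)).1.surjOn h9
    have hu' : η (c w) u := hu
    refine ⟨u, eρ.trans (hrc w h3) (hle _ _ hu'), ?_⟩
    show F (c u) u = w'
    have h10 : c u = c w := hcc u w (eη.trans (eη.symm hu') (hc w))
    rw [h10]
    exact hu2
  · intro u v hu hv
    obtain ⟨u₁, h1, h2, h3⟩ := key u hu
    obtain ⟨v₁, h1', h2', h3'⟩ := key v hv
    by_cases h : η u v
    · have h4 := hcc u v h
      have h5 := (hF (c u) (hrc u hu)).2.1 u v (hc u) (eη.trans (hc u) h)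
      show G.Adj u v ↔ H.Adj (F (c u) u) (F (c v) v)
      rw [← h4]
      exact h5
    · obtain ⟨v₂, h4⟩ := T_back h1 (by simp; omega) (by simp) (f v)
      have h5 : T G H N [(v₂, f v), (r, r'), (s, s')] := h4.mono (by simp)
      obtain ⟨h6, h7, -⟩ := hun h1' h5 (eρ.trans hv (hle _ _ h2'))
      have h8 : η v v₂ := eη.trans h2' h6
      have h9 : σ v v₂ := eσ.trans h3' h7
      have h10 : G.Adj u₁ v₂ ↔ H.Adj (f u) (f v) :=
        h4.adj_iff (by omega) (a := (u₁, f u)) (b := (v₂, f v)) (by simp) (by simp)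
      have h11 : G.Adj u v ↔ G.Adj u₁ v := hmod u u₁ v h2 h3 h
      have h12 : G.Adj v u₁ ↔ G.Adj v₂ u₁ := hmod v v₂ u₁ h8 h9 (fun h' =>
        h (eη.trans h2 (eη.symm h')))
      rw [h11, G.adj_comm, h12, G.adj_comm, h10]
  · intro u hu
    obtain ⟨u₁, h1, h2, h3⟩ := key u hu
    have h4 : T G H N [(r, r'), (u₁, f u)] := h1.mono (by simp)
    rw [← LD.im_iff iσ h4]
    exact ⟨fun h => eσ.trans h h3, fun h => eσ.trans h (eσ.symm h3)⟩

end Pool.Agent.J4.H24.CF
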