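import Pool.Agent.J4.H24.CF.TDefs

/-!
# Gluing when a pair distinguishes the classes (independent copy)
-/

set_option autoImplicit false
set_option linter.unusedSectionVars false

namespace Pool.Agent.J4.H24.CF.LdB

open Relation Pool.Agent.W185.SRG Pool.Agent.J4.H77.CG Pool.Agent.J4.H24.CF

variable {V W : Type} [Fintype V] [Fintype W] {G : SimpleGraph V} {H : SimpleGraph W} {N : ℕ}
  {σ ρ η : V → V → Prop} {o : V → ℝ}

theorem im_iff' (hi : Iv G N ρ) {y z : V} {y' z' : W}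
    (hT : T G H N [(y, y'), (z, z')]) : ρ y z ↔ Im G H N ρ y' z' := by
  constructor
  · intro h
    exact ⟨y, z, hT, h⟩
  · rintro ⟨y₁, z₁, h1, h2⟩
    have h3 : T H G N [(y', y), (z', z)] := T.symm hT
    have h4 : T G G N [(y₁, y), (z₁, z)] := T.trans [(y₁, y', y), (z₁, z', z)] h1 h3
    exact hi _ _ _ _ h4 h2

/-- two elements of the node of `r` on the same side with respect to `r` -/
theorem same_side (eσ : Equivalence σ) (eρ : Equivalence ρ)
    (s3 : ∀ x y z, ρ x y → ρ y z → ¬ σ x y → ¬ σ y z → σ x z) {r u v : V} (hu : ρ r u)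
    (hv : ρ r v) (huv : σ r u ↔ σ r v) : σ u v := by
  by_cases h : σ r u
  · exact eσ.trans (eσ.symm h) (huv.1 h)
  · exact s3 u r v (eρ.symm hu) hv (fun h' => h (eσ.symm h')) (fun h' => h (huv.2 h'))

theorem lift_disc (hN : 5 ≤ N) (eσ : Equivalence σ) (eρ : Equivalence ρ) (eη : Equivalence η)
    (hle : ∀ x y, η x y → ρ x y) (iσ : Iv G N σ) (iρ : Iv G N ρ) (iη : Iv G N η)
    (s3 : ∀ x y z, ρ x y → ρ y z → ¬ σ x y → ¬ σ y z → σ x z)
    (hmod : ∀ x y z, η x y → σ x y → ¬ η x z → (G.Adj x z ↔ G.Adj y z))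
    {r s : V} {r' s' : W} (hT : T G H N [(r, r'), (s, s')]) (hrs : ρ r s)
    (hd : ∀ z z₁, ρ r z → ρ r z₁ → σ z z₁ → T G G N [(z, z₁), (r, r), (s, s)] → η z z₁)
    (hI : ∀ z z', ρ r z → T G H N [(z, z'), (r, r'), (s, s')] →
      ∃ f, Is G H σ η (Im G H N σ) (Im G H N η) z z' f) :
    ∃ f, Is G H σ ρ (Im G H N σ) (Im G H N ρ) r r' f := by
  classical
  obtain ⟨β, hβ⟩ := hT.step (by simp; omega) (by simp)
  -- representatives
  let st : Setoid V := ⟨η, eη⟩
  let rep : V → V := fun u => (Quotient.mk st u).out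
  have hrep : ∀ u, η (rep u) u := fun u => Quotient.exact (Quotient.out_eq (Quotient.mk st u))
  have hrepeq : ∀ u v, η u v → rep u = rep v := by
    intro u v huv
    have : Quotient.mk st u = Quotient.mk st v := Quotient.sound huv
    show (Quotient.mk st u).out = (Quotient.mk st v).out
    rw [this]
  have hρrep : ∀ u, ρ r u → ρ r (rep u) := fun u hu =>
    eρ.trans hu (eρ.symm (hle _ _ (hrep u)))
  have hex : ∀ z, ∃ f : V → W, ρ r z →
      Is G H σ η (Im G H N σ) (Im G H N η) z (β z) f := by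
    intro z
    by_cases hz : ρ r z
    · obtain ⟨f, hf⟩ := hI z (β z) hz (hβ z)
      exact ⟨f, fun _ => hf⟩
    · exact ⟨β, fun h => absurd h hz⟩
  choose F hF using hex
  let f : V → W := fun u => F (rep u) u
  have hTr : ∀ {u : V} {w : W}, T G H N [(u, w), (r, r'), (s, s')] →
      ((ρ r u ↔ Im G H N ρ r' w) ∧ (σ r u ↔ Im G H N σ r' w)) := by
    intro u w h
    have h1 : T G H N [(r, r'), (u, w)] := h.mono (by
      intro e he
      simp only [List.mem_cons, List.not_mem_nil, or_false] at he ⊢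
      tauto)
    exact ⟨im_iff' iρ h1, im_iff' iσ h1⟩
  -- Claim 1
  have c1 : ∀ u, ρ r u → ∃ u₁, T G H N [(u₁, f u), (r, r'), (s, s')] ∧ η u u₁ ∧ σ u u₁ := by
    intro u hu
    have hz := hρrep u hu
    obtain ⟨hb, ha, hs⟩ := hF (rep u) hz
    have hmem : Im G H N η (β (rep u)) (f u) := hb.mapsTo (show η (rep u) u from hrep u)
    obtain ⟨u₁, hu₁⟩ := T_back (hβ (rep u)) (by simp; omega) (by simp) (f u)
    have h1 : T G H N [(rep u, β (rep u)), (u₁, f u)] := hu₁.mono (by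
      intro e he
      simp only [List.mem_cons, List.not_mem_nil, or_false] at he ⊢
      tauto)
    have h2 : T G H N [(u₁, f u), (r, r'), (s, s')] := hu₁.mono (by
      intro e he
      simp only [List.mem_cons, List.not_mem_nil, or_false] at he ⊢
      tauto)
    have h3 : η (rep u) u₁ := (im_iff' iη h1).2 hmem
    have h4 : σ (rep u) u ↔ σ (rep u) u₁ :=
      (hs u (hrep u)).trans (im_iff' iσ h1).symm
    exact ⟨u₁, h2, eη.trans (eη.symm (hrep u)) h3,
      same_side eσ eρ s3 (hle _ _ (hrep u)) (hle _ _ h3) h4⟩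
  -- Claim 3
  have c3 : ∀ u v, ρ r u → ρ r v → ¬ η u v →
      (f u ≠ f v ∧ (G.Adj u v ↔ H.Adj (f u) (f v))) := by
    intro u v hu hv huv
    obtain ⟨u₁, hu1, hu2, hu3⟩ := c1 u hu
    obtain ⟨v₁, hv1, hv2, hv3⟩ := c1 v hv
    obtain ⟨v₂, hv₂⟩ := T_back hu1 (by simp; omega) (by simp) (f v)
    have h1 : T G H N [(v₂, f v), (r, r'), (s, s')] := hv₂.mono (by
      intro e he
      simp only [List.mem_cons, List.not_mem_nil, or_false] at he ⊢
      tauto)
    have h2 : T H G N [(f v, v₂), (r', r), (s', s)] := T.symm h1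
    have h3 : T G G N [(v₁, v₂), (r, r), (s, s)] :=
      T.trans [(v₁, f v, v₂), (r, r', r), (s, s', s)] hv1 h2
    have hρ1 : ρ r v₁ := eρ.trans hv (hle _ _ hv2)
    have hρ2 : ρ r v₂ := (hTr h1).1.2 ((hTr hv1).1.1 hρ1)
    have hσ12 : σ v₁ v₂ := same_side eσ eρ s3 hρ1 hρ2 ((hTr hv1).2.trans (hTr h1).2.symm)
    have hη12 : η v₁ v₂ := hd v₁ v₂ hρ1 hρ2 hσ12 h3
    have hηv : η v v₂ := eη.trans hv2 hη12
    have hσv : σ v v₂ := eσ.trans hv3 hσ12
    constructor
    · intro he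
      have h4 := hv₂.eq_iff (by omega) (a := (v₂, f v)) (b := (u₁, f u)) (by simp) (by simp)
      have h5 : v₂ = u₁ := h4.2 he.symm
      exact huv (eη.trans hu2 (h5 ▸ eη.symm hηv))
    · have h4 := hv₂.adj_iff (by omega) (a := (u₁, f u)) (b := (v₂, f v)) (by simp) (by simp)
      have h5 : G.Adj u v ↔ G.Adj u₁ v := hmod u u₁ v hu2 hu3 huv
      have h6 : G.Adj v u₁ ↔ G.Adj v₂ u₁ := hmod v v₂ u₁ hηv hσv (fun h =>
        huv (eη.trans hu2 (eη.symm h)))
      rw [h5, G.adj_comm u₁ v, h6, G.adj_comm v₂ u₁]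
      exact h4
  have c4 : ∀ u v, ρ r u → η u v →
      ((f u = f v → u = v) ∧ (G.Adj u v ↔ H.Adj (f u) (f v))) := by
    intro u v hu huv
    obtain ⟨hb, ha, hs⟩ := hF (rep u) (hρrep u hu)
    have h1 : f v = F (rep u) v := by
      show F (rep v) v = _
      rw [hrepeq u v huv]
    have h2 : f u = F (rep u) u := rfl
    rw [h1, h2]
    have h3 : η (rep u) v := eη.trans (hrep u) huv
    exact ⟨fun h => hb.injOn (hrep u) h3 h, ha u v (hrep u) h3⟩
  refine ⟨f, ⟨?_, ?_, ?_⟩, ?_, ?_⟩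
  · intro u hu
    obtain ⟨u₁, hu1, hu2, -⟩ := c1 u hu
    exact (hTr hu1).1.1 (eρ.trans hu (hle _ _ hu2))
  · intro u hu v hv huv
    by_cases h : η u v
    · exact (c4 u v hu h).1 huv
    · exact absurd huv (c3 u v hu hv h).1
  · intro w' hw'
    have hw' : Im G H N ρ r' w' := hw'
    obtain ⟨w, hw⟩ := T_back hT (by simp; omega) (by simp) w'
    have hρw : ρ r w := (hTr hw).1.2 hw'
    obtain ⟨w₂, hw₂⟩ := T_back (hβ (rep w)) (by simp; omega) (by simp) w'
    have h1 : T G H N [(w₂, w'), (r, r'), (s, s')] := hw₂.mono (by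
      intro e he
      simp only [List.mem_cons, List.not_mem_nil, or_false] at he ⊢
      tauto)
    have h2 : T G H N [(rep w, β (rep w)), (w₂, w')] := hw₂.mono (by
      intro e he
      simp only [List.mem_cons, List.not_mem_nil, or_false] at he ⊢
      tauto)
    have h3 : T G G N [(w, w₂), (r, r), (s, s)] :=
      T.trans [(w, w', w₂), (r, r', r), (s, s', s)] hw (T.symm h1)
    have hρ2 : ρ r w₂ := (hTr h1).1.2 hw'
    have hσ : σ w w₂ := same_side eσ eρ s3 hρw hρ2 ((hTr hw).2.trans (hTr h1).2.symm)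
    have hη : η w w₂ := hd w w₂ hρw hρ2 hσ h3
    have h4 : Im G H N η (β (rep w)) w' := (im_iff' iη h2).1 (eη.trans (hrep w) hη)
    obtain ⟨u, hu, huw⟩ := (hF (rep w) (hρrep w hρw)).1.surjOn h4
    have hu : η (rep w) u := hu
    have h5 : rep u = rep w := hrepeq u w (eη.trans (eη.symm hu) (hrep w))
    refine ⟨u, ?_, ?_⟩
    · exact eρ.trans (hρrep w hρw) (hle _ _ hu)
    · show F (rep u) u = w'
      rw [h5]
      exact huw
  · intro u v hu hv
    by_cases h : η u v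
    · exact (c4 u v hu h).2
    · exact (c3 u v hu hv h).2
  · intro u hu
    obtain ⟨u₁, hu1, hu2, hu3⟩ := c1 u hu
    rw [← (hTr hu1).2]
    exact ⟨fun h => eσ.trans h hu3, fun h => eσ.trans h (eσ.symm hu3)⟩

end Pool.Agent.J4.H24.CF.LdB
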