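import Pool.Agent.J4.H24.CF.Bl

/-!
# Project CF (helper24), piece MA (helper89): the vertices which split a block form one block
-/

set_option autoImplicit false

namespace Pool.Agent.J4.H24.CF

open Relation

variable {V : Type} {E σ ρ : V → V → Prop} {o : V → ℝ}

namespace Ma

/-- separators on the two sides of an incomparable pair of a block are related -/
theorem sep_R (h : Nd E σ ρ o) {a b p q : V} (hρ : ρ a b) (hσ : σ a b) (hn : ¬ Span E σ ρ a b)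
    (h1 : E a p) (h2 : ¬ E b p) (h3 : E b q) (h4 : ¬ E a q) : R E σ ρ p q := by
  have hap : ρ a p := by
    by_contra hc
    exact h2 ((h.mod a b p hρ hσ hc).1 h1)
  have haq : ρ a q := by
    by_contra hc
    exact h4 ((h.mod a b q hρ hσ hc).2 h3)
  have hpq : σ p q := h.q4 a b p q hσ h1 h3
  have e1 : E p a := h.es _ _ h1
  have e2 : ¬ E p b := fun hc => h2 (h.es _ _ hc)
  have e3 : E q b := h.es _ _ h3
  have e4 : ¬ E q a := fun hc => h4 (h.es _ _ hc)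
  refine ⟨h.rt _ _ _ (h.rs _ _ hap) haq, hpq, Or.inr ⟨⟨hpq, ⟨a, e1, e4⟩, ⟨b, e3, e2⟩⟩, fun hs => ?_⟩⟩
  exact hn (span_ga h hs (ReflTransGen.single ⟨hpq, e1, e3, e2, e4⟩)).1

/-- all separators of an incomparable pair of a block are in one block -/
theorem sep_S (h : Nd E σ ρ o) {a b s t : V} (hS : S E σ ρ a b) (hi : Inc E σ a b)
    (hs : ¬ (E a s ↔ E b s)) (ht : ¬ (E a t ↔ E b t)) : S E σ ρ s t := by
  obtain ⟨hρ, hσ⟩ := s_rho h hS
  have hn : ¬ Span E σ ρ a b := fun hc => not_S h hc hS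
  obtain ⟨-, ⟨p, hp1, hp2⟩, ⟨q, hq1, hq2⟩⟩ := hi
  -- every separator is related to `p`
  have key : ∀ r, ¬ (E a r ↔ E b r) → S E σ ρ p r := by
    intro r hr
    by_cases har : E a r
    · have hbr : ¬ E b r := fun hc => hr ⟨fun _ => hc, fun _ => har⟩
      exact (ReflTransGen.single (sep_R h hρ hσ hn hp1 hp2 hq1 hq2)).trans
        (s_symm h (ReflTransGen.single (sep_R h hρ hσ hn har hbr hq1 hq2)))
    · have hbr : E b r := by
        by_contra hc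
        exact hr ⟨fun h' => absurd h' har, fun h' => absurd h' hc⟩
      exact ReflTransGen.single (sep_R h hρ hσ hn hp1 hp2 hbr har)
  exact (s_symm h (key s hs)).trans (key t ht)

/-- `s` separates `a` from an incomparable element of its block -/
def P (E σ ρ : V → V → Prop) (a s : V) : Prop :=
  ∃ y, S E σ ρ a y ∧ Inc E σ a y ∧ ¬ (E a s ↔ E y s)

theorem P_S (h : Nd E σ ρ o) {a s t : V} (hs : P E σ ρ a s) (ht : P E σ ρ a t) : S E σ ρ s t := by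
  obtain ⟨y, hy, hiy, hsy⟩ := hs
  obtain ⟨z, hz, hiz, htz⟩ := ht
  by_cases hd : ∃ r, ¬ (E a r ↔ E y r) ∧ ¬ (E a r ↔ E z r)
  · obtain ⟨r, hr1, hr2⟩ := hd
    exact (sep_S h hy hiy hsy hr1).trans (sep_S h hz hiz hr2 htz)
  · have hd' : ∀ r, ¬ (E a r ↔ E y r) → (E a r ↔ E z r) := by
      intro r hr
      by_contra hc
      exact hd ⟨r, hr, hc⟩
    have hyz : S E σ ρ y z := (s_symm h hy).trans hz
    have hi : Inc E σ y z := by
      obtain ⟨-, ⟨p, hp1, hp2⟩, ⟨q, hq1, hq2⟩⟩ := hiy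
      refine ⟨(s_rho h hyz).2, ⟨q, hq1, fun hc => ?_⟩, ⟨p, ?_, hp2⟩⟩
      · exact hq2 ((hd' q fun h' => hq2 (h'.2 hq1)).2 hc)
      · exact (hd' p fun h' => hp2 (h'.1 hp1)).1 hp1
    refine sep_S h hyz hi (fun hc => ?_) (fun hc => ?_)
    · have := hd' s hsy
      exact hsy (this.trans hc.symm)
    · by_cases hay : E a t ↔ E y t
      · exact htz (hay.trans hc)
      · exact htz (hd' t hay)

/-- along a block -/
theorem P_walk (h : Nd E σ ρ o) {a c : V} (hac : S E σ ρ a c) :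
    ∀ s t, P E σ ρ a s → P E σ ρ c t → S E σ ρ s t := by
  induction hac with
  | refl => exact fun s t hs ht => P_S h hs ht
  | @tail b c hab hbc ih =>
    intro s t hs ht
    obtain ⟨hρ, hσ, hc⟩ := hbc
    rcases hc with htw | ⟨hi, hn⟩
    · refine ih s t hs ?_
      obtain ⟨y, hy, ⟨hy0, ⟨p, hp1, hp2⟩, ⟨q, hq1, hq2⟩⟩, hty⟩ := ht
      refine ⟨y, (ReflTransGen.single ⟨hρ, hσ, Or.inl htw⟩).trans hy,
        ⟨h.st _ _ _ hσ hy0, ⟨p, (htw p).2 hp1, hp2⟩, ⟨q, hq1, fun hc => hq2 ((htw q).1 hc)⟩⟩, ?_⟩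
      intro hc
      exact hty ((htw t).symm.trans hc)
    · obtain ⟨-, ⟨p, hp1, hp2⟩, ⟨q, hq1, hq2⟩⟩ := id hi
      have hR : R E σ ρ b c := ⟨hρ, hσ, Or.inr ⟨hi, hn⟩⟩
      have h1 : P E σ ρ b p :=
        ⟨c, ReflTransGen.single hR, hi, fun hc => hp2 (hc.1 hp1)⟩
      have h2 : P E σ ρ c p :=
        ⟨b, s_symm h (ReflTransGen.single hR), ⟨h.ss _ _ hσ, ⟨q, hq1, hq2⟩, ⟨p, hp1, hp2⟩⟩,
          fun hc => hp2 (hc.2 hp1)⟩
      exact (ih s p hs h1).trans (P_S h h2 ht)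

/-- a vertex which distinguishes two elements of a block separates a step -/
theorem exists_step {a b u : V} (hab : S E σ ρ a b) (h1 : E a u)
    (h2 : ¬ E b u) : ∃ c d, S E σ ρ a c ∧ R E σ ρ c d ∧ Inc E σ c d ∧ ¬ Span E σ ρ c d ∧
      E c u ∧ ¬ E d u := by
  induction hab with
  | refl => exact absurd h1 h2
  | @tail b c hab hbc ih =>
    by_cases hb : E b u
    · have hbc' := hbc
      obtain ⟨hρ, hσ, hc⟩ := hbc
      rcases hc with htw | ⟨hi, hn⟩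
      · exact absurd ((htw u).1 hb) h2
      · exact ⟨b, c, hab, hbc', hi, hn, hb, h2⟩
    · exact ih hb

end Ma

theorem splitters (h : Nd E σ ρ o) {v₁ v₂ v₃ v₄ u w : V} (h12 : S E σ ρ v₁ v₂)
    (h13 : S E σ ρ v₁ v₃) (h14 : S E σ ρ v₁ v₄) (e1 : E v₁ u) (e2 : ¬ E v₂ u) (hu : ¬ σ v₁ u)
    (e3 : E v₃ w) (e4 : ¬ E v₄ w) (hw : ¬ σ v₁ w) : S E σ ρ u w := by
  obtain ⟨a, b, ha, hab, hi, -, ha1, hb1⟩ := Ma.exists_step h12 e1 e2
  obtain ⟨c, d, hc, hcd, hi', -, hc1, hd1⟩ := Ma.exists_step ((s_symm h h13).trans h14) e3 e4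
  have hac : S E σ ρ a c := (s_symm h ha).trans (h13.trans hc)
  exact Ma.P_walk h hac u w ⟨b, ReflTransGen.single hab, hi, fun hh => hb1 (hh.1 ha1)⟩
    ⟨d, ReflTransGen.single hcd, hi', fun hh => hd1 (hh.1 hc1)⟩

theorem lk_symm (h : Nd E σ ρ o) {u v : V} (hl : Lk E σ ρ u v) : Lk E σ ρ v u := by
  obtain ⟨hρ, hσ, u₁, u₂, v₁, hu1, hu2, hv1, h1, h2⟩ := hl
  obtain ⟨a, b, ha, hab, hi, hn, ha1, hb1⟩ :=
    Ma.exists_step ((s_symm h hu1).trans hu2) h1 h2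
  obtain ⟨-, -, ⟨q, hq1, hq2⟩⟩ := hi
  have hR := Ma.sep_R h hab.1 hab.2.1 hn ha1 hb1 hq1 hq2
  exact ⟨h.rs _ _ hρ, fun hc => hσ (h.ss _ _ hc), v₁, q, a, hv1, hv1.trans (ReflTransGen.single hR),
    hu1.trans ha, h.es _ _ ha1, fun hc => hq2 (h.es _ _ hc)⟩

theorem lk_trans (h : Nd E σ ρ o) {u v w : V} (h1 : Lk E σ ρ u v) (h2 : Lk E σ ρ v w) :
    S E σ ρ u w := by
  obtain ⟨-, -, v₁, v₂, u₁, hv1, hv2, hu1, e1, e2⟩ := lk_symm h h1
  obtain ⟨-, -, v₃, v₄, w₁, hv3, hv4, hw1, e3, e4⟩ := h2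
  have h13 : S E σ ρ v₁ v₃ := (s_symm h hv1).trans hv3
  have hsp := splitters h ((s_symm h hv1).trans hv2) h13 ((s_symm h hv1).trans hv4) e1 e2
    (h.en _ _ e1) e3 e4 (fun hc => h.en _ _ e3 (h.st _ _ _ (h.ss _ _ (s_rho h h13).2) hc))
  exact hu1.trans (hsp.trans (s_symm h hw1))

end Pool.Agent.J4.H24.CF
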