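import Pool.Agent.J4.H24.CF.TDefs
import Pool.Agent.J4.H24.CF.Cfd

/-!
# N0: the top level, the nodes are the connected components and the sides are given by the even walks
-/

set_option autoImplicit false

namespace Pool.Agent.J4.H24.CF

open Relation Pool.Agent.W185.SRG Pool.Agent.J4.H77.CG

namespace N0

variable {V : Type} {E : V → V → Prop}

theorem rtg_symm {r : V → V → Prop} (hr : ∀ x y, r x y → r y x) {x y : V}
    (h : ReflTransGen r x y) : ReflTransGen r y x := by
  induction h with
  | refl => exact ReflTransGen.refl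
  | tail _ hb ih => exact ReflTransGen.head (hr _ _ hb) ih

theorem sd_side {A : V → Prop} (hA : ∀ x y, E x y → (A x ↔ ¬ A y)) {x y : V}
    (h : Sd E x y) : A x ↔ A y := by
  unfold Sd at h
  induction h with
  | refl => exact Iff.rfl
  | tail _ hb ih =>
    obtain ⟨u, h1, h2⟩ := hb
    have e1 := hA _ _ h1
    have e2 := hA _ _ h2
    tauto

theorem sd_symm (hE : ∀ x y, E x y → E y x) {x y : V} (h : Sd E x y) : Sd E y x :=
  rtg_symm (fun _ _ hab => by
    obtain ⟨u, h1, h2⟩ := hab
    exact ⟨u, hE _ _ h2, hE _ _ h1⟩) h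

/-- an even walk with an edge added at both ends is even -/
theorem sd_ends {x w y v : V} (h1 : E x w) (h2 : Sd E w y) (h3 : E y v) : Sd E x v := by
  unfold Sd at h2
  induction h2 generalizing v with
  | refl => exact ReflTransGen.single ⟨_, h1, h3⟩
  | tail _ hb ih =>
    obtain ⟨u, e1, e2⟩ := hb
    have h4 : Sd E x u := ih e1
    exact ReflTransGen.tail h4 ⟨_, e2, h3⟩

/-- walks are even or odd -/
theorem walk_cases {x y : V} (h : ReflTransGen E x y) :
    Sd E x y ∨ ∃ w, Sd E x w ∧ E w y := by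
  induction h with
  | refl => exact Or.inl ReflTransGen.refl
  | tail _ hb ih =>
    rcases ih with h1 | ⟨w, h1, h2⟩
    · exact Or.inr ⟨_, h1, hb⟩
    · exact Or.inl (ReflTransGen.tail h1 ⟨_, h2, hb⟩)

end N0

variable {V : Type} [Fintype V] {G : SimpleGraph V}

theorem nd_top (h : CrossFree G.Adj) :
    ∃ o, Nd G.Adj (Sd G.Adj) (ReflTransGen G.Adj) o := by
  obtain ⟨A, o, hA, ho⟩ := h
  have hE : ∀ x y, G.Adj x y → G.Adj y x := fun _ _ e => e.symm
  refine ⟨o, ?_⟩
  refine
    { es := hE
      sr := fun _ => ReflTransGen.refl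
      ss := fun _ _ => N0.sd_symm hE
      st := fun _ _ _ h1 h2 => ReflTransGen.trans h1 h2
      en := fun x y he hs => ?_
      s3 := fun x y z hxy hyz h1 h2 => ?_
      q4 := fun x y p q hs h1 h2 => N0.sd_ends (hE _ _ h1) hs h2
      rr := fun _ => ReflTransGen.refl
      rs := fun _ _ => N0.rtg_symm hE
      rt := fun _ _ _ h1 h2 => h1.trans h2
      mod := fun x y z hxy _ hn => ⟨fun he => absurd (ReflTransGen.single he) hn,
        fun he => absurd (hxy.tail he) hn⟩
      ord := fun x y p q hs h1 h2 h3 h4 => (ho x y p q (N0.sd_side hA hs) h1 h2 h3 h4).2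
      ne := fun x y p q hs h1 h2 h3 h4 => (ho x y p q (N0.sd_side hA hs) h1 h2 h3 h4).1 }
  · have e1 := hA _ _ he
    have e2 := N0.sd_side hA hs
    tauto
  · rcases N0.walk_cases hxy with h3 | ⟨w, h3, h4⟩
    · exact absurd h3 h1
    · rcases N0.walk_cases (N0.rtg_symm hE hyz) with h5 | ⟨v, h5, h6⟩
      · exact absurd (N0.sd_symm hE h5) h2
      · -- x ~ w - y - v ~ z
        have h7 : Sd G.Adj w v := ReflTransGen.single ⟨y, h4, hE _ _ h6⟩
        exact ReflTransGen.trans (ReflTransGen.trans h3 h7) (N0.sd_symm hE h5)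

end Pool.Agent.J4.H24.CF
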