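import Pool.Agent.J4.H24.CF.TDefs

/-!
# The Weisfeiler-Leman method and complements
-/

set_option autoImplicit false

namespace Pool.Agent.J4.H24.CF

open Relation Pool.Agent.W185.SRG Pool.Agent.J4.H77.CG Pool.Agent.N624.NT

variable {V W : Type} [Fintype V] [Fintype W] {G : SimpleGraph V} {H : SimpleGraph W}

omit [Fintype V] [Fintype W] in
theorem Wc.iso {k : ℕ} {u : Fin k → V} {v : Fin k → W} (h : isoType G k u = isoType H k v) :
    isoType Gᶜ k u = isoType Hᶜ k v := by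
  have e1 : ∀ i j, (u i = u j) = (v i = v j) := fun i j =>
    congrFun (congrFun (congrArg Prod.fst h) i) j
  have e2 : ∀ i j, (G.Adj (u i) (u j)) = (H.Adj (v i) (v j)) := fun i j =>
    congrFun (congrFun (congrArg Prod.snd h) i) j
  refine Prod.ext ?_ ?_
  · funext i j
    exact e1 i j
  · funext i j
    show (Gᶜ.Adj (u i) (u j)) = (Hᶜ.Adj (v i) (v j))
    rw [SimpleGraph.compl_adj, SimpleGraph.compl_adj, ne_eq, ne_eq, e1 i j, e2 i j]

theorem wl_compl {k : ℕ} (h : WLEquivalent k G H) : WLEquivalent k Gᶜ Hᶜ := by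
  obtain ⟨ψ, hψ⟩ := h
  refine ⟨ψ, fun t S => ?_⟩
  exact Sm.of_bisim (G := Gᶜ) (H := Hᶜ) (fun u v => Sm G H k u v)
    (fun u v h => Wc.iso (h 0)) (fun u v h => h.step) (u := S) (v := ψ S) (fun t => hψ t S) t

end Pool.Agent.J4.H24.CF
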