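import Pool.Agent.J4.H24.CF.NxAux
import Pool.Agent.J4.H24.CF.Bl
import Pool.Agent.J4.H24.CF.Ma

/-!
# The refinement of the nodes is a structure of the same kind (piece NX, helper50)
-/

set_option autoImplicit false

namespace Pool.Agent.J4.H24.CF

open Relation

variable {V : Type} {E σ ρ : V → V → Prop} {o : V → ℝ}

theorem nx_nd [Finite V] (h : Nd E σ ρ o) : Nd E σ (Nx E σ ρ) o :=
  NxAux.nx_nd h (fun _ _ => s_symm h) (fun _ _ => s_rho h) (fun _ _ => lk_symm h)
    (fun _ _ _ => lk_trans h)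

theorem nx_le (h : Nd E σ ρ o) {x y : V} (hxy : Nx E σ ρ x y) : ρ x y :=
  NxAux.nx_le h (fun _ _ => s_rho h) hxy

end Pool.Agent.J4.H24.CF
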