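import Pool.Agent.J4.H24.CF.Nx3

/-!
# The refinement: the type of a node
-/

set_option autoImplicit false

namespace Pool.Agent.J4.H24.CF

open Relation

variable {V : Type} {E σ ρ : V → V → Prop} {o : V → ℝ}

theorem reE_symm (h : Nd E σ ρ o) {x y : V} (hxy : ReE E ρ x y) : ReE E ρ y x := by
  unfold ReE at hxy ⊢
  induction hxy with
  | refl => exact ReflTransGen.refl
  | tail _ h2 ih => exact ReflTransGen.head ⟨h.rs _ _ h2.1, h.es _ _ h2.2⟩ ih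

theorem reN_symm (h : Nd E σ ρ o) {x y : V} (hxy : ReN E σ ρ x y) : ReN E σ ρ y x := by
  unfold ReN at hxy ⊢
  induction hxy with
  | refl => exact ReflTransGen.refl
  | tail _ h2 ih =>
    exact ReflTransGen.head ⟨h.rs _ _ h2.1, fun h' => h2.2.1 (h.ss _ _ h'),
      fun h' => h2.2.2 (h.es _ _ h')⟩ ih

theorem con_mp (h : Nd E σ ρ o) {x y : V} (hxy : ρ x y) (hc : Con E ρ x) : Con E ρ y := by
  intro w hw
  exact (reE_symm h (hc y hxy)).trans (hc w (h.rt _ _ _ hxy hw))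

theorem con_iff (h : Nd E σ ρ o) {x y : V} (hxy : ρ x y) : Con E ρ x ↔ Con E ρ y :=
  ⟨con_mp h hxy, con_mp h (h.rs _ _ hxy)⟩

theorem coc_mp (h : Nd E σ ρ o) {x y : V} (hxy : ρ x y) (hc : Coc E σ ρ x) : Coc E σ ρ y := by
  intro w hw
  exact (reN_symm h (hc y hxy)).trans (hc w (h.rt _ _ _ hxy hw))

theorem coc_iff (h : Nd E σ ρ o) {x y : V} (hxy : ρ x y) : Coc E σ ρ x ↔ Coc E σ ρ y :=
  ⟨coc_mp h hxy, coc_mp h (h.rs _ _ hxy)⟩

/-- another reference on the same side -/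
theorem reD_same (h : Nd E σ ρ o) {r s x y : V} (hrs : σ r s) (hxy : ReD E σ ρ r x y) :
    ReD E σ ρ s x y := by
  unfold ReD at hxy ⊢
  induction hxy with
  | refl => exact ReflTransGen.refl
  | tail _ h2 ih =>
    refine ih.tail ⟨h2.1, h2.2.1, h2.2.2.trans ⟨fun h' => h.st _ _ _ (h.ss _ _ hrs) h',
      fun h' => h.st _ _ _ hrs h'⟩⟩

/-- another reference on the other side -/
theorem reD_other (h : Nd E σ ρ o) {r s x y : V} (hr : ρ r s) (hrs : ¬ σ r s) (hx : ρ r x)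
    (hxy : ReD E σ ρ r x y) : ReD E σ ρ s y x := by
  unfold ReD at hxy ⊢
  induction hxy with
  | refl => exact ReflTransGen.refl
  | tail h1 h2 ih =>
    rename_i b c
    have hb : ρ r b := h.rt _ _ _ hx (reD_rho h (r := r) h1)
    have hc : ρ r c := h.rt _ _ _ hb h2.1
    refine ReflTransGen.head ⟨h.rs _ _ h2.1, fun h' => h2.2.1 (h.ss _ _ h'), ?_⟩ ih
    have e1 : E c b ↔ E b c := ⟨h.es _ _, h.es _ _⟩
    rw [e1, h2.2.2]
    constructor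
    · intro h3
      have h4 : ¬ σ r c := fun h' => h2.2.1 (h.st _ _ _ (h.ss _ _ h3) h')
      exact h.s3 _ _ _ (h.rs _ _ hr) hc (fun h' => hrs (h.ss _ _ h')) h4
    · intro h3
      have h4 : ¬ σ r c := fun h' => hrs (h.st _ _ _ h' (h.ss _ _ h3))
      exact h.s3 _ _ _ hc (h.rs _ _ h2.1) h4 (fun h' => h2.2.1 (h.ss _ _ h'))

theorem str_mp (h : Nd E σ ρ o) {x y : V} (hxy : ρ x y) (hc : Str E σ ρ x) : Str E σ ρ y := by
  intro u v hu hv
  have hu' := h.rt _ _ _ hxy hu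
  have hv' := h.rt _ _ _ hxy hv
  by_cases hσ : σ x y
  · exact reD_same h hσ (hc u v hu' hv')
  · exact reD_other h hxy hσ hv' (hc v u hv' hu')

theorem str_iff (h : Nd E σ ρ o) {x y : V} (hxy : ρ x y) : Str E σ ρ x ↔ Str E σ ρ y :=
  ⟨str_mp h hxy, str_mp h (h.rs _ _ hxy)⟩

/-! ### `N3` is an equivalence relation -/

theorem n3_rho (h : Nd E σ ρ o) {x y : V} (hxy : N3 E σ ρ x y) : ρ x y := by
  rcases hxy with h1 | h1
  · exact h1.1
  · exact reD_rho h h1.1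

theorem n3_symm (h : Nd E σ ρ o) {x y : V} (hxy : N3 E σ ρ x y) : N3 E σ ρ y x := by
  have hρ := n3_rho h hxy
  rcases hxy with h1 | ⟨h1, h2⟩
  · exact Or.inl ⟨h.rs _ _ h1.1, h.ss _ _ h1.2.1, fun z => (h1.2.2 z).symm⟩
  · by_cases hσ : σ x y
    · exact Or.inr ⟨reD_same h hσ h2, reD_same h hσ h1⟩
    · exact Or.inr ⟨reD_other h hρ hσ (h.rr x) h1, reD_other h hρ hσ hρ h2⟩

/-- cycles through `y`, seen from `x` -/
theorem reD_ref (h : Nd E σ ρ o) {x y z : V} (hρ : ρ x y) (h1 : ReD E σ ρ y y z)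
    (h2 : ReD E σ ρ y z y) : ReD E σ ρ x y z ∧ ReD E σ ρ x z y := by
  by_cases hσ : σ x y
  · exact ⟨reD_same h (h.ss _ _ hσ) h1, reD_same h (h.ss _ _ hσ) h2⟩
  · have hσ' : ¬ σ y x := fun h' => hσ (h.ss _ _ h')
    exact ⟨reD_other h (h.rs _ _ hρ) hσ' (reD_rho h h1) h2,
      reD_other h (h.rs _ _ hρ) hσ' (h.rr y) h1⟩

/-- a twin of a vertex in a cycle is in the cycle -/
theorem n3_twin (h : Nd E σ ρ o) {x y z : V} (h1 : ρ x y) (hσ : σ x y)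
    (ht : ∀ w, E x w ↔ E y w) (h2 : ReD E σ ρ y y z) (h3 : ReD E σ ρ y z y) :
    N3 E σ ρ x z := by
  have hσ' := h.ss _ _ hσ
  rcases ReflTransGen.cases_head h2 with h4 | ⟨a, ha, haz⟩
  · rw [← h4]
    exact Or.inl ⟨h1, hσ, ht⟩
  rcases ReflTransGen.cases_tail h3 with h5 | ⟨b, hzb, hb⟩
  · rw [← h5]
    exact Or.inl ⟨h1, hσ, ht⟩
  refine Or.inr ⟨reD_same h hσ' ?_, reD_same h hσ' ?_⟩
  · refine ReflTransGen.head ⟨h.rt _ _ _ h1 ha.1,
      fun h' => ha.2.1 (h.st _ _ _ hσ' h'), ?_⟩ haz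
    rw [ht a, ha.2.2]
    exact ⟨fun _ => hσ', fun _ => h.sr y⟩
  · refine hzb.tail ⟨h.rt _ _ _ hb.1 (h.rs _ _ h1), fun h' => hb.2.1 (h.st _ _ _ h' hσ), ?_⟩
    have e1 : E b x ↔ E b y := ⟨fun h' => h.es _ _ ((ht b).1 (h.es _ _ h')),
      fun h' => h.es _ _ ((ht b).2 (h.es _ _ h'))⟩
    rw [e1, hb.2.2]

theorem n3_trans (h : Nd E σ ρ o) {x y z : V} (hxy : N3 E σ ρ x y) (hyz : N3 E σ ρ y z) :
    N3 E σ ρ x z := by
  have hρ := n3_rho h hxy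
  have hyx := n3_symm h hxy
  rcases hyz with h2 | ⟨h2, h2'⟩
  · rcases hxy with h1 | ⟨_, _⟩
    · exact Or.inl ⟨h.rt _ _ _ h1.1 h2.1, h.st _ _ _ h1.2.1 h2.2.1,
        fun w => (h1.2.2 w).trans (h2.2.2 w)⟩
    · rcases hyx with h1 | ⟨h1, h1'⟩
      · exact Or.inl ⟨h.rt _ _ _ (h.rs _ _ h1.1) h2.1, h.st _ _ _ (h.ss _ _ h1.2.1) h2.2.1,
          fun w => (h1.2.2 w).symm.trans (h2.2.2 w)⟩
      · exact n3_symm h (n3_twin h (h.rs _ _ h2.1) (h.ss _ _ h2.2.1) (fun w => (h2.2.2 w).symm)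
          h1 h1')
  · rcases hxy with h1 | ⟨h1, h1'⟩
    · exact n3_twin h h1.1 h1.2.1 h1.2.2 h2 h2'
    · obtain ⟨h3, h3'⟩ := reD_ref h hρ h2 h2'
      exact Or.inr ⟨h1.trans h3, h3'.trans h1'⟩

end Pool.Agent.J4.H24.CF
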