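import Pool.Agent.J4.H24.CF.Defs

/-!
# The refinement: modules
-/

set_option autoImplicit false

namespace Pool.Agent.J4.H24.CF

open Relation

variable {V : Type} {E σ ρ : V → V → Prop} {o : V → ℝ}

theorem reE_rho (h : Nd E σ ρ o) {x y : V} (hxy : ReE E ρ x y) : ρ x y := by
  unfold ReE at hxy
  induction hxy with
  | refl => exact h.rr x
  | tail _ h2 ih => exact h.rt _ _ _ ih h2.1

theorem reN_rho (h : Nd E σ ρ o) {x y : V} (hxy : ReN E σ ρ x y) : ρ x y := by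
  unfold ReN at hxy
  induction hxy with
  | refl => exact h.rr x
  | tail _ h2 ih => exact h.rt _ _ _ ih h2.1

theorem reD_rho (h : Nd E σ ρ o) {r x y : V} (hxy : ReD E σ ρ r x y) : ρ x y := by
  unfold ReD at hxy
  induction hxy with
  | refl => exact h.rr x
  | tail _ h2 ih => exact h.rt _ _ _ ih h2.1

theorem S_rho (h : Nd E σ ρ o) {x y : V} (hxy : S E σ ρ x y) : ρ x y ∧ σ x y := by
  unfold S at hxy
  induction hxy with
  | refl => exact ⟨h.rr x, h.sr x⟩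
  | tail _ h2 ih => exact ⟨h.rt _ _ _ ih.1 h2.1, h.st _ _ _ ih.2 h2.2.1⟩

theorem nx_le (h : Nd E σ ρ o) {x y : V} (hxy : Nx E σ ρ x y) : ρ x y := by
  rcases hxy with ⟨_, h1⟩ | ⟨_, _, h1⟩ | ⟨_, _, _, h1⟩ | ⟨_, _, _, h1⟩
  · exact reE_rho h h1
  · exact reN_rho h h1
  · rcases h1 with h1 | h1
    · exact h1.1
    · exact reD_rho h h1.1
  · rcases h1 with h1 | h1
    · exact (S_rho h h1).1
    · exact h1.1

/-- no edges inside a side -/
theorem no_edge (h : Nd E σ ρ o) {x y : V} (hs : σ x y) : ¬ E x y := fun he => h.en x y he hs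

theorem nx_mod (h : Nd E σ ρ o) {x y z : V} (hxy : Nx E σ ρ x y) (hs : σ x y)
    (hz : ¬ Nx E σ ρ x z) : E x z ↔ E y z := by
  have hρ : ρ x y := nx_le h hxy
  by_cases hxz : ρ x z
  swap
  · exact h.mod x y z hρ hs hxz
  have hyz : ρ y z := h.rt _ _ _ (h.rs _ _ hρ) hxz
  by_cases hσ : σ x z
  · have hσ' : σ y z := h.st _ _ _ (h.ss _ _ hs) hσ
    exact ⟨fun he => absurd he (no_edge h hσ), fun he => absurd he (no_edge h hσ')⟩
  have hσ' : ¬ σ y z := fun h' => hσ (h.st _ _ _ hs h')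
  have hzx : ¬ σ z x := fun h' => hσ (h.ss _ _ h')
  have hzy : ¬ σ z y := fun h' => hσ' (h.ss _ _ h')
  rcases hxy with ⟨c1, h1⟩ | ⟨c1, c2, h1⟩ | ⟨c1, c2, c3, h1⟩ | ⟨c1, c2, c3, h1⟩
  · constructor
    · intro he
      exact absurd (Or.inl ⟨c1, ReflTransGen.single ⟨hxz, he⟩⟩) hz
    · intro he
      exact absurd (Or.inl ⟨c1, h1.tail ⟨hyz, he⟩⟩) hz
  · constructor
    · intro _
      by_contra he
      exact hz (Or.inr (Or.inl ⟨c1, c2, h1.tail ⟨hyz, hσ', he⟩⟩))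
    · intro _
      by_contra he
      exact hz (Or.inr (Or.inl ⟨c1, c2, ReflTransGen.single ⟨hxz, hσ, he⟩⟩))
  · rcases h1 with h1 | ⟨h1, h2⟩
    · exact h1.2.2 z
    · constructor
      · intro he
        by_contra hne
        have a1 : ReD E σ ρ x x z := ReflTransGen.single ⟨hxz, hσ, ⟨fun _ => h.sr x, fun _ => he⟩⟩
        have a2 : ReD E σ ρ x z x := by
          refine ReflTransGen.head ⟨h.rs _ _ hyz, hzy, ⟨fun h' => absurd (h.es _ _ h') hne,
            fun h' => absurd h' hσ⟩⟩ h2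
        exact hz (Or.inr (Or.inr (Or.inl ⟨c1, c2, c3, Or.inr ⟨a1, a2⟩⟩)))
      · intro he
        by_contra hne
        have a1 : ReD E σ ρ x x z := h1.tail ⟨hyz, hσ', ⟨fun _ => hs, fun _ => he⟩⟩
        have a2 : ReD E σ ρ x z x := ReflTransGen.single ⟨h.rs _ _ hxz, hzx,
          ⟨fun h' => absurd (h.es _ _ h') hne, fun h' => absurd h' hσ⟩⟩
        exact hz (Or.inr (Or.inr (Or.inl ⟨c1, c2, c3, Or.inr ⟨a1, a2⟩⟩)))
  · rcases h1 with h1 | h1
    swap
    · exact absurd hs h1.2.1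
    constructor
    · intro he
      by_contra hne
      exact hz (Or.inr (Or.inr (Or.inr ⟨c1, c2, c3, Or.inr ⟨hxz, hσ, x, y, z,
        ReflTransGen.refl, h1, ReflTransGen.refl, he, hne⟩⟩)))
    · intro he
      by_contra hne
      exact hz (Or.inr (Or.inr (Or.inr ⟨c1, c2, c3, Or.inr ⟨hxz, hσ, y, x, z,
        h1, ReflTransGen.refl, ReflTransGen.refl, he, hne⟩⟩)))

end Pool.Agent.J4.H24.CF
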