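import Pool.Agent.J4.H24.CF.Defs

/-!
Project CF, piece NX (copy by helper66): the refinement is again a structure of nodes. The facts on
the blocks are hypotheses here.
-/

set_option autoImplicit false
namespace Pool.Agent.J4.H24.CF
open Relation
variable {V : Type} {E σ ρ : V → V → Prop} {o : V → ℝ}

namespace NX66

lemma reE_symm (h : Nd E σ ρ o) {u v : V} (hr : ReE E ρ u v) : ReE E ρ v u := by
  induction hr with
  | refl => exact ReflTransGen.refl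
  | tail _ hs ih => exact ReflTransGen.head ⟨h.rs _ _ hs.1, h.es _ _ hs.2⟩ ih

lemma reE_rho (h : Nd E σ ρ o) {u v : V} (hr : ReE E ρ u v) : ρ u v := by
  induction hr with
  | refl => exact h.rr _
  | tail _ hs ih => exact h.rt _ _ _ ih hs.1

lemma reN_symm (h : Nd E σ ρ o) {u v : V} (hr : ReN E σ ρ u v) : ReN E σ ρ v u := by
  induction hr with
  | refl => exact ReflTransGen.refl
  | tail _ hs ih =>
    exact ReflTransGen.head ⟨h.rs _ _ hs.1, fun hc => hs.2.1 (h.ss _ _ hc),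
      fun hc => hs.2.2 (h.es _ _ hc)⟩ ih

lemma reN_rho (h : Nd E σ ρ o) {u v : V} (hr : ReN E σ ρ u v) : ρ u v := by
  induction hr with
  | refl => exact h.rr _
  | tail _ hs ih => exact h.rt _ _ _ ih hs.1

lemma reD_rho (h : Nd E σ ρ o) {r u v : V} (hr : ReD E σ ρ r u v) : ρ u v := by
  induction hr with
  | refl => exact h.rr _
  | tail _ hs ih => exact h.rt _ _ _ ih hs.1

/-- two sides only -/
lemma side (h : Nd E σ ρ o) {x y u : V} (hxy : ρ x y) (hxu : ρ x u) (hs : ¬ σ x y) :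
    σ y u ↔ ¬ σ x u := by
  constructor
  · intro h1 h2
    exact hs (h.st _ _ _ h2 (h.ss _ _ h1))
  · intro h1
    exact h.s3 y x u (h.rs _ _ hxy) hxu (fun hc => hs (h.ss _ _ hc)) h1

lemma reD_same (h : Nd E σ ρ o) {r r' u v : V} (hs : σ r r') (hr : ReD E σ ρ r u v) :
    ReD E σ ρ r' u v := by
  induction hr with
  | refl => exact ReflTransGen.refl
  | @tail a b _ hst ih =>
    refine ReflTransGen.tail ih ⟨hst.1, hst.2.1, hst.2.2.trans ?_⟩
    exact ⟨fun h1 => h.st _ _ _ (h.ss _ _ hs) h1, fun h1 => h.st _ _ _ hs h1⟩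

lemma reD_diff (h : Nd E σ ρ o) {r r' u v : V} (hrr : ρ r r') (hs : ¬ σ r r') (hu : ρ r u)
    (hr : ReD E σ ρ r u v) : ReD E σ ρ r' v u := by
  induction hr with
  | refl => exact ReflTransGen.refl
  | @tail a b hab hst ih =>
    have ha : ρ r a := h.rt _ _ _ hu (reD_rho h hab)
    have hb : ρ r b := h.rt _ _ _ ha hst.1
    refine ReflTransGen.head ⟨h.rs _ _ hst.1, fun hc => hst.2.1 (h.ss _ _ hc), ?_⟩ ih
    rw [side h hrr hb hs]
    have h1 : σ r b ↔ ¬ σ r a := by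
      constructor
      · intro h2 h3
        exact hst.2.1 (h.st _ _ _ (h.ss _ _ h3) h2)
      · intro h2
        exact h.s3 r a b ha hst.1 h2 hst.2.1
    rw [h1, not_not]
    have h2 : E b a ↔ E a b := ⟨h.es _ _, h.es _ _⟩
    rw [h2]
    exact hst.2.2

lemma con_congr (h : Nd E σ ρ o) {x y : V} (hxy : ρ x y) (hc : Con E ρ x) : Con E ρ y :=
  fun z hz => (reE_symm h (hc y hxy)).trans (hc z (h.rt _ _ _ hxy hz))

lemma coc_congr (h : Nd E σ ρ o) {x y : V} (hxy : ρ x y) (hc : Coc E σ ρ x) : Coc E σ ρ y :=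
  fun z hz => (reN_symm h (hc y hxy)).trans (hc z (h.rt _ _ _ hxy hz))

lemma str_congr (h : Nd E σ ρ o) {x y : V} (hxy : ρ x y) (hc : Str E σ ρ x) : Str E σ ρ y := by
  intro u v hu hv
  have hu' := h.rt _ _ _ hxy hu
  have hv' := h.rt _ _ _ hxy hv
  by_cases hs : σ x y
  · exact reD_same h hs (hc u v hu' hv')
  · exact reD_diff h hxy hs hv' (hc v u hv' hu')

/-! ## the relation of the third case -/

lemma cyc_change (h : Nd E σ ρ o) {u v w : V} (huv : ρ u v) (h1 : ReD E σ ρ v v w)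
    (h2 : ReD E σ ρ v w v) : ReD E σ ρ u v w ∧ ReD E σ ρ u w v := by
  by_cases hs : σ v u
  · exact ⟨reD_same h hs h1, reD_same h hs h2⟩
  · have hvu := h.rs _ _ huv
    exact ⟨reD_diff h hvu hs (reD_rho h h1) h2, reD_diff h hvu hs (h.rr _) h1⟩

lemma n3_rho (h : Nd E σ ρ o) {u v : V} (hn : N3 E σ ρ u v) : ρ u v := by
  rcases hn with hn | hn
  · exact hn.1
  · exact reD_rho h hn.1

lemma n3_refl (h : Nd E σ ρ o) (u : V) : N3 E σ ρ u u :=
  Or.inl ⟨h.rr _, h.sr _, fun _ => Iff.rfl⟩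

lemma n3_symm (h : Nd E σ ρ o) {u v : V} (hn : N3 E σ ρ u v) : N3 E σ ρ v u := by
  rcases hn with hn | hn
  · exact Or.inl ⟨h.rs _ _ hn.1, h.ss _ _ hn.2.1, fun z => (hn.2.2 z).symm⟩
  · right
    have := cyc_change h (h.rs _ _ (reD_rho h hn.1)) hn.1 hn.2
    exact ⟨this.2, this.1⟩

/-- a twin of a vertex of a cycle -/
lemma twin_cycle (h : Nd E σ ρ o) {u v w : V} (huv : ρ u v) (hs : σ u v)
    (ht : ∀ z, E u z ↔ E v z) (h1 : ReD E σ ρ v v w) (h2 : ReD E σ ρ v w v) :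
    N3 E σ ρ u w := by
  have hsv : σ v u := h.ss _ _ hs
  have h1' := reD_same h hsv h1
  have h2' := reD_same h hsv h2
  rcases ReflTransGen.cases_head h1' with h3 | ⟨a, ha, haw⟩
  · rw [← h3]
    exact Or.inl ⟨huv, hs, ht⟩
  rcases ReflTransGen.cases_tail h2' with h3 | ⟨b, hwb, hb⟩
  · rw [← h3]
    exact Or.inl ⟨huv, hs, ht⟩
  right
  constructor
  · refine ReflTransGen.head ⟨h.rt _ _ _ huv ha.1, fun hc => ha.2.1 (h.st _ _ _ hsv hc), ?_⟩ haw
    rw [ht a, ha.2.2]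
    exact ⟨fun _ => h.sr _, fun _ => hs⟩
  · refine ReflTransGen.tail hwb ⟨h.rt _ _ _ hb.1 (h.rs _ _ huv),
      fun hc => hb.2.1 (h.st _ _ _ hc hs), ?_⟩
    rw [← hb.2.2]
    constructor
    · intro h5; exact h.es _ _ ((ht b).1 (h.es _ _ h5))
    · intro h5; exact h.es _ _ ((ht b).2 (h.es _ _ h5))

lemma n3_trans (h : Nd E σ ρ o) {u v w : V} (h1 : N3 E σ ρ u v) (h2 : N3 E σ ρ v w) :
    N3 E σ ρ u w := by
  rcases h1 with h1 | h1
  · rcases h2 with h2 | h2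
    · exact Or.inl ⟨h.rt _ _ _ h1.1 h2.1, h.st _ _ _ h1.2.1 h2.2.1,
        fun z => (h1.2.2 z).trans (h2.2.2 z)⟩
    · exact twin_cycle h h1.1 h1.2.1 h1.2.2 h2.1 h2.2
  · rcases h2 with h2 | h2
    · -- w is a twin of v, u v in a cycle
      have h3 := cyc_change h (h.rs _ _ (reD_rho h h1.1)) h1.1 h1.2
      exact n3_symm h (twin_cycle h (h.rs _ _ h2.1) (h.ss _ _ h2.2.1)
        (fun z => (h2.2.2 z).symm) h3.2 h3.1)
    · have h3 := cyc_change h (reD_rho h h1.1) h2.1 h2.2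
      exact Or.inr ⟨h1.1.trans h3.1, h3.2.trans h1.2⟩

lemma n3_mod (h : Nd E σ ρ o) {x y z : V} (hn : N3 E σ ρ x y) (hs : σ x y) (hxz : ρ x z)
    (hsz : ¬ σ x z) (hnz : ¬ N3 E σ ρ x z) : E x z ↔ E y z := by
  rcases hn with hn | hn
  · exact hn.2.2 z
  have hy : ρ x y := reD_rho h hn.1
  have hsyz : ¬ σ y z := fun hc => hsz (h.st _ _ _ hs hc)
  have hzy : ρ z y := h.rt _ _ _ (h.rs _ _ hxz) hy
  by_contra hcon
  apply hnz
  right
  by_cases h1 : E x z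
  · have h2 : ¬ E y z := fun h3 => hcon ⟨fun _ => h3, fun _ => h1⟩
    have s1 : ρ x z ∧ ¬ σ x z ∧ (E x z ↔ σ x x) := ⟨hxz, hsz, fun _ => h.sr _, fun _ => h1⟩
    have s2 : ρ z y ∧ ¬ σ z y ∧ (E z y ↔ σ x z) :=
      ⟨hzy, fun hc => hsyz (h.ss _ _ hc), fun h5 => absurd (h.es _ _ h5) h2, fun h5 => absurd h5 hsz⟩
    exact ⟨ReflTransGen.single s1, (ReflTransGen.head s2 hn.2)⟩
  · have h2 : E y z := by
      by_contra h3
      exact hcon ⟨fun h4 => absurd h4 h1, fun h4 => absurd h4 h3⟩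
    have s1 : ρ y z ∧ ¬ σ y z ∧ (E y z ↔ σ x y) := ⟨h.rs _ _ hzy, hsyz, fun _ => hs, fun _ => h2⟩
    have s2 : ρ z x ∧ ¬ σ z x ∧ (E z x ↔ σ x z) :=
      ⟨h.rs _ _ hxz, fun hc => hsz (h.ss _ _ hc), fun h5 => absurd (h.es _ _ h5) h1,
        fun h5 => absurd h5 hsz⟩
    exact ⟨ReflTransGen.tail hn.1 s1, ReflTransGen.single s2⟩

/-! ## the facts on the blocks (pieces BL and MA) -/

/-- the facts on the blocks -/
structure Bl (E σ ρ : V → V → Prop) : Prop where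
  s_symm : ∀ u v, S E σ ρ u v → S E σ ρ v u
  s_rho : ∀ u v, S E σ ρ u v → ρ u v ∧ σ u v
  lk_symm : ∀ u v, Lk E σ ρ u v → Lk E σ ρ v u
  lk_trans : ∀ u v w, Lk E σ ρ u v → Lk E σ ρ v w → S E σ ρ u w

variable (b : Bl E σ ρ)
include b

lemma n4_rho {u v : V} (hn : N4 E σ ρ u v) : ρ u v := by
  rcases hn with hn | hn
  · exact (b.s_rho _ _ hn).1
  · exact hn.1

lemma n4_symm {u v : V} (hn : N4 E σ ρ u v) : N4 E σ ρ v u := by
  rcases hn with hn | hn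
  · exact Or.inl (b.s_symm _ _ hn)
  · exact Or.inr (b.lk_symm _ _ hn)

lemma s_lk (h : Nd E σ ρ o) {u v w : V} (h1 : S E σ ρ u v) (h2 : Lk E σ ρ v w) :
    Lk E σ ρ u w := by
  obtain ⟨h3, h4, u1, u2, v1, h5, h6, h7⟩ := h2
  obtain ⟨h8, h9⟩ := b.s_rho _ _ h1
  exact ⟨h.rt _ _ _ h8 h3, fun hc => h4 (h.st _ _ _ (h.ss _ _ h9) hc), u1, u2, v1,
    h1.trans h5, h1.trans h6, h7⟩

lemma n4_trans (h : Nd E σ ρ o) {u v w : V} (h1 : N4 E σ ρ u v) (h2 : N4 E σ ρ v w) :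
    N4 E σ ρ u w := by
  rcases h1 with h1 | h1
  · rcases h2 with h2 | h2
    · exact Or.inl (h1.trans h2)
    · exact Or.inr (s_lk b h h1 h2)
  · rcases h2 with h2 | h2
    · exact Or.inr (b.lk_symm _ _ (s_lk b h (b.s_symm _ _ h2) (b.lk_symm _ _ h1)))
    · exact Or.inl (b.lk_trans _ _ _ h1 h2)

lemma n4_mod (h : Nd E σ ρ o) {x y z : V} (hn : N4 E σ ρ x y) (hs : σ x y) (hxz : ρ x z)
    (hsz : ¬ σ x z) (hnz : ¬ N4 E σ ρ x z) : E x z ↔ E y z := by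
  rcases hn with hn | hn
  · constructor
    · intro h1
      by_contra h2
      exact hnz (Or.inr ⟨hxz, hsz, x, y, z, ReflTransGen.refl, hn, ReflTransGen.refl, h1, h2⟩)
    · intro h1
      by_contra h2
      exact hnz (Or.inr ⟨hxz, hsz, y, x, z, hn, ReflTransGen.refl, ReflTransGen.refl, h1, h2⟩)
  · exact absurd hs hn.2.1

lemma nx_le' (h : Nd E σ ρ o) {x y : V} (hxy : Nx E σ ρ x y) : ρ x y := by
  rcases hxy with h1 | h1 | h1 | h1
  · exact reE_rho h h1.2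
  · exact reN_rho h h1.2.2
  · exact n3_rho h h1.2.2.2
  · exact n4_rho b h1.2.2.2

lemma nx_symm (h : Nd E σ ρ o) {x y : V} (hxy : Nx E σ ρ x y) : Nx E σ ρ y x := by
  have hr := nx_le' b h hxy
  have hr' := h.rs _ _ hr
  rcases hxy with h1 | h1 | h1 | h1
  · exact Or.inl ⟨fun hc => h1.1 (con_congr h hr' hc), reE_symm h h1.2⟩
  · exact Or.inr (Or.inl ⟨con_congr h hr h1.1, fun hc => h1.2.1 (coc_congr h hr' hc),
      reN_symm h h1.2.2⟩)
  · exact Or.inr (Or.inr (Or.inl ⟨con_congr h hr h1.1, coc_congr h hr h1.2.1,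
      fun hc => h1.2.2.1 (str_congr h hr' hc), n3_symm h h1.2.2.2⟩))
  · exact Or.inr (Or.inr (Or.inr ⟨con_congr h hr h1.1, coc_congr h hr h1.2.1,
      str_congr h hr h1.2.2.1, n4_symm b h1.2.2.2⟩))

lemma nx_trans (h : Nd E σ ρ o) {x y z : V} (hxy : Nx E σ ρ x y) (hyz : Nx E σ ρ y z) :
    Nx E σ ρ x z := by
  have hr := nx_le' b h hxy
  have hr' := h.rs _ _ hr
  rcases hxy with h1 | h1 | h1 | h1
  · rcases hyz with h2 | h2 | h2 | h2
    · exact Or.inl ⟨h1.1, h1.2.trans h2.2⟩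
    · exact absurd (con_congr h hr' h2.1) h1.1
    · exact absurd (con_congr h hr' h2.1) h1.1
    · exact absurd (con_congr h hr' h2.1) h1.1
  · rcases hyz with h2 | h2 | h2 | h2
    · exact absurd (con_congr h hr h1.1) h2.1
    · exact Or.inr (Or.inl ⟨h1.1, h1.2.1, h1.2.2.trans h2.2.2⟩)
    · exact absurd (coc_congr h hr' h2.2.1) h1.2.1
    · exact absurd (coc_congr h hr' h2.2.1) h1.2.1
  · rcases hyz with h2 | h2 | h2 | h2
    · exact absurd (con_congr h hr h1.1) h2.1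
    · exact absurd (coc_congr h hr h1.2.1) h2.2.1
    · exact Or.inr (Or.inr (Or.inl ⟨h1.1, h1.2.1, h1.2.2.1, n3_trans h h1.2.2.2 h2.2.2.2⟩))
    · exact absurd (str_congr h hr' h2.2.2.1) h1.2.2.1
  · rcases hyz with h2 | h2 | h2 | h2
    · exact absurd (con_congr h hr h1.1) h2.1
    · exact absurd (coc_congr h hr h1.2.1) h2.2.1
    · exact absurd (str_congr h hr h1.2.2.1) h2.2.2.1
    · exact Or.inr (Or.inr (Or.inr ⟨h1.1, h1.2.1, h1.2.2.1, n4_trans b h h1.2.2.2 h2.2.2.2⟩))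

lemma nx_refl (h : Nd E σ ρ o) (x : V) : Nx E σ ρ x x := by
  by_cases h1 : Con E ρ x
  · by_cases h2 : Coc E σ ρ x
    · by_cases h3 : Str E σ ρ x
      · exact Or.inr (Or.inr (Or.inr ⟨h1, h2, h3, Or.inl ReflTransGen.refl⟩))
      · exact Or.inr (Or.inr (Or.inl ⟨h1, h2, h3, n3_refl h x⟩))
    · exact Or.inr (Or.inl ⟨h1, h2, ReflTransGen.refl⟩)
  · exact Or.inl ⟨h1, ReflTransGen.refl⟩

lemma nx_mod (h : Nd E σ ρ o) {x y z : V} (hxy : Nx E σ ρ x y) (hs : σ x y)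
    (hxz : ¬ Nx E σ ρ x z) : E x z ↔ E y z := by
  have hr := nx_le' b h hxy
  by_cases hz : ρ x z
  swap
  · exact h.mod x y z hr hs hz
  by_cases hsz : σ x z
  · constructor
    · intro h1; exact absurd hsz (h.en _ _ h1)
    · intro h1; exact absurd (h.st _ _ _ (h.ss _ _ hs) hsz) (h.en _ _ h1)
  have hyz : ρ y z := h.rt _ _ _ (h.rs _ _ hr) hz
  have hsyz : ¬ σ y z := fun hc => hsz (h.st _ _ _ hs hc)
  rcases hxy with h1 | h1 | h1 | h1
  · constructor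
    · intro h2; exact absurd (Or.inl ⟨h1.1, ReflTransGen.single ⟨hz, h2⟩⟩) hxz
    · intro h2; exact absurd (Or.inl ⟨h1.1, ReflTransGen.tail h1.2 ⟨hyz, h2⟩⟩) hxz
  · have e1 : E x z := by
      by_contra h2
      exact hxz (Or.inr (Or.inl ⟨h1.1, h1.2.1, ReflTransGen.single ⟨hz, hsz, h2⟩⟩))
    have e2 : E y z := by
      by_contra h2
      exact hxz (Or.inr (Or.inl ⟨h1.1, h1.2.1, ReflTransGen.tail h1.2.2 ⟨hyz, hsyz, h2⟩⟩))
    exact ⟨fun _ => e2, fun _ => e1⟩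
  · exact n3_mod h h1.2.2.2 hs hz hsz
      fun hc => hxz (Or.inr (Or.inr (Or.inl ⟨h1.1, h1.2.1, h1.2.2.1, hc⟩)))
  · exact n4_mod b h h1.2.2.2 hs hz hsz
      fun hc => hxz (Or.inr (Or.inr (Or.inr ⟨h1.1, h1.2.1, h1.2.2.1, hc⟩)))

theorem nx_nd' (h : Nd E σ ρ o) : Nd E σ (Nx E σ ρ) o where
  es := h.es
  sr := h.sr
  ss := h.ss
  st := h.st
  en := h.en
  s3 := fun x y z h1 h2 => h.s3 x y z (nx_le' b h h1) (nx_le' b h h2)
  q4 := h.q4
  rr := nx_refl b h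
  rs := fun _ _ => nx_symm b h
  rt := fun _ _ _ => nx_trans b h
  mod := fun _ _ _ => nx_mod b h
  ord := h.ord
  ne := h.ne

end NX66

end Pool.Agent.J4.H24.CF
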