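import Pool.Agent.J4.H24.CF.Defs

/-!
# The refinement of the nodes is a structure of the same kind (piece NX, helper50)

The facts of the pieces BL and MA are hypotheses here.
-/

set_option autoImplicit false

namespace Pool.Agent.J4.H24.CF

open Relation

variable {V : Type} {E σ ρ : V → V → Prop} {o : V → ℝ}

namespace NxAux

lemma reE_le (h : Nd E σ ρ o) {x y : V} (hxy : ReE E ρ x y) : ρ x y := by
  induction hxy with
  | refl => exact h.rr x
  | tail _ hs ih => exact h.rt _ _ _ ih hs.1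

lemma reN_le (h : Nd E σ ρ o) {x y : V} (hxy : ReN E σ ρ x y) : ρ x y := by
  induction hxy with
  | refl => exact h.rr x
  | tail _ hs ih => exact h.rt _ _ _ ih hs.1

lemma reD_le (h : Nd E σ ρ o) {r x y : V} (hxy : ReD E σ ρ r x y) : ρ x y := by
  induction hxy with
  | refl => exact h.rr x
  | tail _ hs ih => exact h.rt _ _ _ ih hs.1

lemma reE_symm (h : Nd E σ ρ o) {x y : V} (hxy : ReE E ρ x y) : ReE E ρ y x := by
  induction hxy with
  | refl => exact ReflTransGen.refl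
  | tail _ hs ih => exact ReflTransGen.head ⟨h.rs _ _ hs.1, h.es _ _ hs.2⟩ ih

lemma reN_symm (h : Nd E σ ρ o) {x y : V} (hxy : ReN E σ ρ x y) : ReN E σ ρ y x := by
  induction hxy with
  | refl => exact ReflTransGen.refl
  | tail _ hs ih =>
    exact ReflTransGen.head ⟨h.rs _ _ hs.1, fun e => hs.2.1 (h.ss _ _ e),
      fun e => hs.2.2 (h.es _ _ e)⟩ ih

lemma con_congr (h : Nd E σ ρ o) {x y : V} (hxy : ρ x y) (hc : Con E ρ x) : Con E ρ y := by
  intro z hz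
  exact (reE_symm h (hc y hxy)).trans (hc z (h.rt _ _ _ hxy hz))

lemma coc_congr (h : Nd E σ ρ o) {x y : V} (hxy : ρ x y) (hc : Coc E σ ρ x) : Coc E σ ρ y := by
  intro z hz
  exact (reN_symm h (hc y hxy)).trans (hc z (h.rt _ _ _ hxy hz))

/-- the side of a vertex of the node -/
lemma side (h : Nd E σ ρ o) {x y u : V} (hxy : ρ x y) (hs : ¬ σ x y) (hu : ρ x u) :
    σ y u ↔ ¬ σ x u := by
  constructor
  · intro h1 h2
    exact hs (h.st _ _ _ h2 (h.ss _ _ h1))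
  · intro h1
    exact h.s3 y x u (h.rs _ _ hxy) hu (fun e => hs (h.ss _ _ e)) h1

/-- the reference point can be changed on its side -/
lemma reD_same (h : Nd E σ ρ o) {x y u v : V} (hs : σ x y) (hd : ReD E σ ρ x u v) :
    ReD E σ ρ y u v := by
  refine ReflTransGen.mono ?_ _ _ hd
  rintro a b ⟨h1, h2, h3⟩
  refine ⟨h1, h2, h3.trans ?_⟩
  exact ⟨fun e => h.st _ _ _ (h.ss _ _ hs) e, fun e => h.st _ _ _ hs e⟩

/-- a reference point on the other side reverses the arcs -/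
lemma reD_other (h : Nd E σ ρ o) {x y u v : V} (hxy : ρ x y) (hs : ¬ σ x y) (hu : ρ x u)
    (hd : ReD E σ ρ x u v) : ReD E σ ρ y v u := by
  induction hd with
  | refl => exact ReflTransGen.refl
  | @tail b c hb hs' ih =>
    refine ReflTransGen.head ?_ ih
    obtain ⟨h1, h2, h3⟩ := hs'
    have hxb : ρ x b := h.rt _ _ _ hu (reD_le h hb)
    have hxc : ρ x c := h.rt _ _ _ hxb h1
    refine ⟨h.rs _ _ h1, fun e => h2 (h.ss _ _ e), ?_⟩
    have h4 : E c b ↔ E b c := ⟨h.es _ _, h.es _ _⟩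
    have h5 : σ y c ↔ ¬ σ x c := side h hxy hs hxc
    have h6 : σ x c ↔ ¬ σ x b := by
      constructor
      · intro e1 e2
        exact h2 (h.st _ _ _ (h.ss _ _ e2) e1)
      · intro e1
        exact h.s3 x b c hxb h1 e1 h2
    rw [h4, h3, h5, h6, not_not]

lemma str_congr (h : Nd E σ ρ o) {x y : V} (hxy : ρ x y) (hc : Str E σ ρ x) : Str E σ ρ y := by
  intro u v hu hv
  have hxu := h.rt _ _ _ hxy hu
  have hxv := h.rt _ _ _ hxy hv
  by_cases hs : σ x y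
  · exact reD_same h hs (hc u v hxu hxv)
  · exact reD_other h hxy hs hxv (hc v u hxv hxu)

/-! ### `N3` -/

lemma n3_le (h : Nd E σ ρ o) {x y : V} (hxy : N3 E σ ρ x y) : ρ x y := by
  rcases hxy with h1 | h1
  · exact h1.1
  · exact reD_le h h1.1

/-- the second alternative for any reference point -/
lemma cyc_congr (h : Nd E σ ρ o) {r s u v : V} (hrs : ρ r s) (hru : ρ r u)
    (hc : ReD E σ ρ r u v ∧ ReD E σ ρ r v u) : ReD E σ ρ s u v ∧ ReD E σ ρ s v u := by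
  by_cases hs : σ r s
  · exact ⟨reD_same h hs hc.1, reD_same h hs hc.2⟩
  · exact ⟨reD_other h hrs hs (h.rt _ _ _ hru (reD_le h hc.1)) hc.2, reD_other h hrs hs hru hc.1⟩

lemma n3_symm (h : Nd E σ ρ o) {x y : V} (hxy : N3 E σ ρ x y) : N3 E σ ρ y x := by
  rcases hxy with h1 | h1
  · exact Or.inl ⟨h.rs _ _ h1.1, h.ss _ _ h1.2.1, fun z => (h1.2.2 z).symm⟩
  · exact Or.inr (cyc_congr h (reD_le h h1.1) (h.rr x) h1).symm

/-- a twin of a vertex of a cycle is in the cycle -/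
lemma twin_cyc (h : Nd E σ ρ o) {r u v w : V} (huv : ρ u v) (hs : σ u v)
    (ht : ∀ z, E u z ↔ E v z) (hne : v ≠ w) (hc : ReD E σ ρ r v w ∧ ReD E σ ρ r w v) :
    ReD E σ ρ r u w ∧ ReD E σ ρ r w u := by
  have hsr : σ r u ↔ σ r v := ⟨fun e => h.st _ _ _ e hs, fun e => h.st _ _ _ e (h.ss _ _ hs)⟩
  constructor
  · rcases ReflTransGen.cases_head hc.1 with h1 | ⟨a, ⟨h1, h2, h3⟩, h4⟩
    · exact absurd h1 hne
    · refine ReflTransGen.head ⟨h.rt _ _ _ huv h1, fun e => h2 (h.st _ _ _ (h.ss _ _ hs) e), ?_⟩ h4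
      rw [ht a, h3, hsr]
  · rcases ReflTransGen.cases_tail hc.2 with h1 | ⟨a, h4, ⟨h1, h2, h3⟩⟩
    · exact absurd h1 hne
    · refine ReflTransGen.tail h4 ⟨h.rt _ _ _ h1 (h.rs _ _ huv),
        fun e => h2 (h.st _ _ _ e hs), ?_⟩
      rw [← h3]
      exact ⟨fun e => h.es _ _ ((ht a).1 (h.es _ _ e)), fun e => h.es _ _ ((ht a).2 (h.es _ _ e))⟩

lemma n3_trans (h : Nd E σ ρ o) {x y z : V} (hxy : N3 E σ ρ x y) (hyz : N3 E σ ρ y z) :
    N3 E σ ρ x z := by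
  have hρ := n3_le h hxy
  rcases hxy with h1 | h1
  · rcases hyz with h2 | h2
    · exact Or.inl ⟨h.rt _ _ _ h1.1 h2.1, h.st _ _ _ h1.2.1 h2.2.1,
        fun w => (h1.2.2 w).trans (h2.2.2 w)⟩
    · by_cases hne : y = z
      · subst hne
        exact Or.inl h1
      · have h3 := twin_cyc h h1.1 h1.2.1 h1.2.2 hne h2
        exact Or.inr (cyc_congr h (h.rs _ _ hρ) (h.rs _ _ hρ) h3)
  · rcases hyz with h2 | h2
    · by_cases hne : x = y
      · subst hne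
        exact Or.inl h2
      · have h3 := twin_cyc h (h.rs _ _ h2.1) (h.ss _ _ h2.2.1) (fun w => (h2.2.2 w).symm)
          (fun e => hne e.symm) h1.symm
        exact Or.inr h3.symm
    · have h3 := cyc_congr h (h.rs _ _ hρ) (h.rr y) h2
      exact Or.inr ⟨h1.1.trans h3.1, h3.2.trans h1.2⟩

/-! ### `N4` -/

lemma n4_symm (hS : ∀ u v, S E σ ρ u v → S E σ ρ v u) (hL : ∀ u v, Lk E σ ρ u v → Lk E σ ρ v u)
    {x y : V} (hxy : N4 E σ ρ x y) : N4 E σ ρ y x := by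
  rcases hxy with h1 | h1
  · exact Or.inl (hS _ _ h1)
  · exact Or.inr (hL _ _ h1)

lemma s_lk (h : Nd E σ ρ o) (hR : ∀ u v, S E σ ρ u v → ρ u v ∧ σ u v)
    {x y z : V} (hxy : S E σ ρ x y) (hyz : Lk E σ ρ y z) : Lk E σ ρ x z := by
  obtain ⟨h1, h2, u₁, u₂, v₁, h3, h4, h5, h6, h7⟩ := hyz
  obtain ⟨g1, g2⟩ := hR _ _ hxy
  exact ⟨h.rt _ _ _ g1 h1, fun e => h2 (h.st _ _ _ (h.ss _ _ g2) e), u₁, u₂, v₁, hxy.trans h3,
    hxy.trans h4, h5, h6, h7⟩

lemma lk_s (h : Nd E σ ρ o) (hS : ∀ u v, S E σ ρ u v → S E σ ρ v u)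
    (hR : ∀ u v, S E σ ρ u v → ρ u v ∧ σ u v)
    {x y z : V} (hxy : Lk E σ ρ x y) (hyz : S E σ ρ y z) : Lk E σ ρ x z := by
  obtain ⟨h1, h2, u₁, u₂, v₁, h3, h4, h5, h6, h7⟩ := hxy
  obtain ⟨g1, g2⟩ := hR _ _ hyz
  exact ⟨h.rt _ _ _ h1 g1, fun e => h2 (h.st _ _ _ e (h.ss _ _ g2)), u₁, u₂, v₁, h3, h4,
    (hS _ _ hyz).trans h5, h6, h7⟩

lemma n4_trans (h : Nd E σ ρ o) (hS : ∀ u v, S E σ ρ u v → S E σ ρ v u)
    (hR : ∀ u v, S E σ ρ u v → ρ u v ∧ σ u v)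
    (hT : ∀ u v w, Lk E σ ρ u v → Lk E σ ρ v w → S E σ ρ u w)
    {x y z : V} (hxy : N4 E σ ρ x y) (hyz : N4 E σ ρ y z) : N4 E σ ρ x z := by
  rcases hxy with h1 | h1
  · rcases hyz with h2 | h2
    · exact Or.inl (h1.trans h2)
    · exact Or.inr (s_lk h hR h1 h2)
  · rcases hyz with h2 | h2
    · exact Or.inr (lk_s h hS hR h1 h2)
    · exact Or.inl (hT _ _ _ h1 h2)

lemma n4_le (hR : ∀ u v, S E σ ρ u v → ρ u v ∧ σ u v) {x y : V} (hxy : N4 E σ ρ x y) :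
    ρ x y := by
  rcases hxy with h1 | h1
  · exact (hR _ _ h1).1
  · exact h1.1

/-! ### `Nx` -/

lemma nx_le (h : Nd E σ ρ o) (hR : ∀ u v, S E σ ρ u v → ρ u v ∧ σ u v) {x y : V}
    (hxy : Nx E σ ρ x y) : ρ x y := by
  rcases hxy with h1 | h1 | h1 | h1
  · exact reE_le h h1.2
  · exact reN_le h h1.2.2
  · exact n3_le h h1.2.2.2
  · exact n4_le hR h1.2.2.2

lemma nx_refl (h : Nd E σ ρ o) (x : V) : Nx E σ ρ x x := by
  by_cases h1 : Con E ρ x
  · by_cases h2 : Coc E σ ρ x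
    · by_cases h3 : Str E σ ρ x
      · exact Or.inr (Or.inr (Or.inr ⟨h1, h2, h3, Or.inl ReflTransGen.refl⟩))
      · exact Or.inr (Or.inr (Or.inl ⟨h1, h2, h3,
          Or.inl ⟨h.rr x, h.sr x, fun z => Iff.rfl⟩⟩))
    · exact Or.inr (Or.inl ⟨h1, h2, ReflTransGen.refl⟩)
  · exact Or.inl ⟨h1, ReflTransGen.refl⟩

lemma con_iff (h : Nd E σ ρ o) {x y : V} (hxy : ρ x y) : Con E ρ x ↔ Con E ρ y :=
  ⟨con_congr h hxy, con_congr h (h.rs _ _ hxy)⟩

lemma coc_iff (h : Nd E σ ρ o) {x y : V} (hxy : ρ x y) : Coc E σ ρ x ↔ Coc E σ ρ y :=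
  ⟨coc_congr h hxy, coc_congr h (h.rs _ _ hxy)⟩

lemma str_iff (h : Nd E σ ρ o) {x y : V} (hxy : ρ x y) : Str E σ ρ x ↔ Str E σ ρ y :=
  ⟨str_congr h hxy, str_congr h (h.rs _ _ hxy)⟩

/-- `Nx` in the node of `x` is one of the four relations -/
lemma nx_cases (h : Nd E σ ρ o) (x : V) :
    (∀ u v, ρ x u → (Nx E σ ρ u v ↔ ReE E ρ u v)) ∧ ¬ Con E ρ x ∨
    (∀ u v, ρ x u → (Nx E σ ρ u v ↔ ReN E σ ρ u v)) ∧ Con E ρ x ∨
    (∀ u v, ρ x u → (Nx E σ ρ u v ↔ N3 E σ ρ u v)) ∧ Con E ρ x ∨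
    (∀ u v, ρ x u → (Nx E σ ρ u v ↔ N4 E σ ρ u v)) ∧ Con E ρ x := by
  by_cases h1 : Con E ρ x
  · by_cases h2 : Coc E σ ρ x
    · by_cases h3 : Str E σ ρ x
      · refine Or.inr (Or.inr (Or.inr ⟨fun u v hu => ?_, h1⟩))
        have g1 := (con_iff h hu).1 h1
        have g2 := (coc_iff h hu).1 h2
        have g3 := (str_iff h hu).1 h3
        simp [Nx, g1, g2, g3]
      · refine Or.inr (Or.inr (Or.inl ⟨fun u v hu => ?_, h1⟩))
        have g1 := (con_iff h hu).1 h1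
        have g2 := (coc_iff h hu).1 h2
        have g3 := (str_iff h hu).not.1 h3
        simp [Nx, g1, g2, g3]
    · refine Or.inr (Or.inl ⟨fun u v hu => ?_, h1⟩)
      have g1 := (con_iff h hu).1 h1
      have g2 := (coc_iff h hu).not.1 h2
      simp [Nx, g1, g2]
  · refine Or.inl ⟨fun u v hu => ?_, h1⟩
    have g1 := (con_iff h hu).not.1 h1
    simp [Nx, g1]

theorem nx_nd (h : Nd E σ ρ o) (hS : ∀ u v, S E σ ρ u v → S E σ ρ v u)
    (hR : ∀ u v, S E σ ρ u v → ρ u v ∧ σ u v) (hL : ∀ u v, Lk E σ ρ u v → Lk E σ ρ v u)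
    (hT : ∀ u v w, Lk E σ ρ u v → Lk E σ ρ v w → S E σ ρ u w) :
    Nd E σ (Nx E σ ρ) o := by
  have hle : ∀ x y, Nx E σ ρ x y → ρ x y := fun x y => nx_le h hR
  refine ⟨h.es, h.sr, h.ss, h.st, h.en, fun x y z h1 h2 => h.s3 x y z (hle _ _ h1) (hle _ _ h2),
    h.q4, nx_refl h, fun x y hxy => ?_, fun x y z hxy hyz => ?_, fun x y z hxy hs hz => ?_,
    h.ord, h.ne⟩
  · have hρ := hle _ _ hxy
    rcases nx_cases h x with ⟨h1, -⟩ | ⟨h1, -⟩ | ⟨h1, -⟩ | ⟨h1, -⟩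
    · rw [h1 _ _ (h.rr x)] at hxy
      rw [h1 _ _ hρ]
      exact reE_symm h hxy
    · rw [h1 _ _ (h.rr x)] at hxy
      rw [h1 _ _ hρ]
      exact reN_symm h hxy
    · rw [h1 _ _ (h.rr x)] at hxy
      rw [h1 _ _ hρ]
      exact n3_symm h hxy
    · rw [h1 _ _ (h.rr x)] at hxy
      rw [h1 _ _ hρ]
      exact n4_symm hS hL hxy
  · have hρ := hle _ _ hxy
    rcases nx_cases h x with ⟨h1, -⟩ | ⟨h1, -⟩ | ⟨h1, -⟩ | ⟨h1, -⟩
    · rw [h1 _ _ (h.rr x)] at hxy ⊢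
      rw [h1 _ _ hρ] at hyz
      exact hxy.trans hyz
    · rw [h1 _ _ (h.rr x)] at hxy ⊢
      rw [h1 _ _ hρ] at hyz
      exact hxy.trans hyz
    · rw [h1 _ _ (h.rr x)] at hxy ⊢
      rw [h1 _ _ hρ] at hyz
      exact n3_trans h hxy hyz
    · rw [h1 _ _ (h.rr x)] at hxy ⊢
      rw [h1 _ _ hρ] at hyz
      exact n4_trans h hS hR hT hxy hyz
  · have hρ := hle _ _ hxy
    by_cases hxz : ρ x z
    swap
    · exact h.mod x y z hρ hs hxz
    have hyz : ρ y z := h.rt _ _ _ (h.rs _ _ hρ) hxz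
    rcases nx_cases h x with ⟨h1, -⟩ | ⟨h1, -⟩ | ⟨h1, -⟩ | ⟨h1, -⟩
    · rw [h1 _ _ (h.rr x)] at hxy hz
      constructor
      · intro e
        exact absurd (ReflTransGen.single ⟨hxz, e⟩) hz
      · intro e
        exact absurd (hxy.tail ⟨hyz, e⟩) hz
    · rw [h1 _ _ (h.rr x)] at hxy hz
      constructor
      · intro e
        by_contra e'
        have h2 : ¬ σ y z := fun e2 => h.en _ _ e (h.st _ _ _ hs e2)
        exact hz (hxy.tail ⟨hyz, h2, e'⟩)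
      · intro e
        by_contra e'
        have h2 : ¬ σ x z := fun e2 => h.en _ _ e (h.st _ _ _ (h.ss _ _ hs) e2)
        exact hz (ReflTransGen.single ⟨hxz, h2, e'⟩)
    · rw [h1 _ _ (h.rr x)] at hxy hz
      rcases hxy with h2 | ⟨h2, h3⟩
      · exact h2.2.2 z
      · constructor
        · intro e
          by_contra e'
          have h4 : ¬ σ x z := h.en _ _ e
          have h5 : ¬ σ y z := fun e2 => h4 (h.st _ _ _ hs e2)
          apply hz
          refine Or.inr ⟨ReflTransGen.single ⟨hxz, h4, iff_of_true e (h.sr x)⟩, ?_⟩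
          refine ReflTransGen.head ⟨h.rs _ _ hyz, fun e2 => h5 (h.ss _ _ e2), ?_⟩ h3
          exact iff_of_false (fun e2 => e' (h.es _ _ e2)) h4
        · intro e
          by_contra e'
          have h5 : ¬ σ y z := h.en _ _ e
          have h4 : ¬ σ x z := fun e2 => h5 (h.st _ _ _ (h.ss _ _ hs) e2)
          apply hz
          refine Or.inr ⟨ReflTransGen.tail h2 ⟨hyz, h5, iff_of_true e hs⟩, ?_⟩
          refine ReflTransGen.single ⟨h.rs _ _ hxz, fun e2 => h4 (h.ss _ _ e2), ?_⟩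
          exact iff_of_false (fun e2 => e' (h.es _ _ e2)) h4
    · rw [h1 _ _ (h.rr x)] at hxy hz
      rcases hxy with h2 | h2
      · constructor
        · intro e
          by_contra e'
          exact hz (Or.inr ⟨hxz, h.en _ _ e, x, y, z, ReflTransGen.refl, h2, ReflTransGen.refl,
            e, e'⟩)
        · intro e
          by_contra e'
          have h4 : ¬ σ x z := fun e2 => h.en _ _ e (h.st _ _ _ (h.ss _ _ hs) e2)
          exact hz (Or.inr ⟨hxz, h4, y, x, z, h2, ReflTransGen.refl, ReflTransGen.refl,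
            e, e'⟩)
      · exact absurd hs h2.2.1

end NxAux

end Pool.Agent.J4.H24.CF
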