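import Pool.Agent.J4.H24.CF.Nx1

/-!
# The refinement: the assembly
-/

set_option autoImplicit false

namespace Pool.Agent.J4.H24.CF

open Relation

variable {V : Type} {E σ ρ : V → V → Prop} {o : V → ℝ}

theorem nx_refl (x : V) : Nx E σ ρ x x := by
  by_cases c1 : Con E ρ x
  · by_cases c2 : Coc E σ ρ x
    · by_cases c3 : Str E σ ρ x
      · exact Or.inr (Or.inr (Or.inr ⟨c1, c2, c3, Or.inl ReflTransGen.refl⟩))
      · exact Or.inr (Or.inr (Or.inl ⟨c1, c2, c3, Or.inr ⟨ReflTransGen.refl,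
          ReflTransGen.refl⟩⟩))
    · exact Or.inr (Or.inl ⟨c1, c2, ReflTransGen.refl⟩)
  · exact Or.inl ⟨c1, ReflTransGen.refl⟩

/-- the refinement on a node of a given type -/
theorem nx_iff (h : Nd E σ ρ o) {x y : V} (hxy : ρ x y) {w : V} : Nx E σ ρ y w ↔
    (¬ Con E ρ x ∧ ReE E ρ y w) ∨
    (Con E ρ x ∧ ¬ Coc E σ ρ x ∧ ReN E σ ρ y w) ∨
    (Con E ρ x ∧ Coc E σ ρ x ∧ ¬ Str E σ ρ x ∧ N3 E σ ρ y w) ∨
    (Con E ρ x ∧ Coc E σ ρ x ∧ Str E σ ρ x ∧ N4 E σ ρ y w) := by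
  unfold Nx
  rw [con_iff h hxy, coc_iff h hxy, str_iff h hxy]

theorem nx_nd' (h : Nd E σ ρ o) (hS : ∀ {u v : V}, S E σ ρ u v → S E σ ρ v u)
    (hL : ∀ {u v : V}, Lk E σ ρ u v → Lk E σ ρ v u)
    (hLL : ∀ {u v w : V}, Lk E σ ρ u v → Lk E σ ρ v w → S E σ ρ u w) :
    Nd E σ (Nx E σ ρ) o := by
  have hSL : ∀ {u v w : V}, S E σ ρ u v → Lk E σ ρ v w → Lk E σ ρ u w := by
    intro u v w h1 h2
    obtain ⟨h3, h4, a, b, c, ha, hb, hc, e1, e2⟩ := h2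
    exact ⟨h.rt _ _ _ (S_rho h h1).1 h3,
      fun h' => h4 (h.st _ _ _ (h.ss _ _ (S_rho h h1).2) h'),
      a, b, c, h1.trans ha, h1.trans hb, hc, e1, e2⟩
  have hLS : ∀ {u v w : V}, Lk E σ ρ u v → S E σ ρ v w → Lk E σ ρ u w := by
    intro u v w h1 h2
    exact hL (hSL (hS h2) (hL h1))
  have n4s : ∀ {u v : V}, N4 E σ ρ u v → N4 E σ ρ v u := by
    intro u v h1
    rcases h1 with h1 | h1
    · exact Or.inl (hS h1)
    · exact Or.inr (hL h1)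
  have n4t : ∀ {u v w : V}, N4 E σ ρ u v → N4 E σ ρ v w → N4 E σ ρ u w := by
    intro u v w h1 h2
    rcases h1 with h1 | h1
    · rcases h2 with h2 | h2
      · exact Or.inl (h1.trans h2)
      · exact Or.inr (hSL h1 h2)
    · rcases h2 with h2 | h2
      · exact Or.inr (hLS h1 h2)
      · exact Or.inl (hLL h1 h2)
  refine ⟨h.es, h.sr, h.ss, h.st, h.en, ?_, h.q4, nx_refl, ?_, ?_, ?_, h.ord, h.ne⟩
  · intro x y z h1 h2
    exact h.s3 x y z (nx_le h h1) (nx_le h h2)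
  · intro x y h1
    rw [nx_iff h (nx_le h h1)]
    rcases h1 with ⟨c1, h1⟩ | ⟨c1, c2, h1⟩ | ⟨c1, c2, c3, h1⟩ | ⟨c1, c2, c3, h1⟩
    · exact Or.inl ⟨c1, reE_symm h h1⟩
    · exact Or.inr (Or.inl ⟨c1, c2, reN_symm h h1⟩)
    · exact Or.inr (Or.inr (Or.inl ⟨c1, c2, c3, n3_symm h h1⟩))
    · exact Or.inr (Or.inr (Or.inr ⟨c1, c2, c3, n4s h1⟩))
  · intro x y z h1 h2
    rw [nx_iff h (nx_le h h1)] at h2
    rcases h1 with ⟨c1, h1⟩ | ⟨c1, c2, h1⟩ | ⟨c1, c2, c3, h1⟩ | ⟨c1, c2, c3, h1⟩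
    · rcases h2 with ⟨_, h2⟩ | ⟨d1, _⟩ | ⟨d1, _⟩ | ⟨d1, _⟩
      · exact Or.inl ⟨c1, h1.trans h2⟩
      · exact absurd d1 c1
      · exact absurd d1 c1
      · exact absurd d1 c1
    · rcases h2 with ⟨d1, _⟩ | ⟨_, _, h2⟩ | ⟨_, d2, _⟩ | ⟨_, d2, _⟩
      · exact absurd c1 d1
      · exact Or.inr (Or.inl ⟨c1, c2, h1.trans h2⟩)
      · exact absurd d2 c2
      · exact absurd d2 c2
    · rcases h2 with ⟨d1, _⟩ | ⟨_, d2, _⟩ | ⟨_, _, _, h2⟩ | ⟨_, _, d3, _⟩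
      · exact absurd c1 d1
      · exact absurd c2 d2
      · exact Or.inr (Or.inr (Or.inl ⟨c1, c2, c3, n3_trans h h1 h2⟩))
      · exact absurd d3 c3
    · rcases h2 with ⟨d1, _⟩ | ⟨_, d2, _⟩ | ⟨_, _, d3, _⟩ | ⟨_, _, _, h2⟩
      · exact absurd c1 d1
      · exact absurd c2 d2
      · exact absurd c3 d3
      · exact Or.inr (Or.inr (Or.inr ⟨c1, c2, c3, n4t h1 h2⟩))
  · intro x y z h1 h2 h3
    exact nx_mod h h1 h2 h3

end Pool.Agent.J4.H24.CF
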