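import Pool.Agent.J4.H24.CF.Defs

/-!
# A connected and co-connected node has an incomparable pair
-/

set_option autoImplicit false

namespace Pool.Agent.J4.H24.CF

open Relation

variable {V : Type} {E σ ρ : V → V → Prop} {o : V → ℝ}

/-- A connected and co-connected node with two vertices has two incomparable vertices on one
side. -/
theorem exists_inc [Finite V] (h : Nd E σ ρ o) {x y : V} (hxy : ρ x y) (hne : x ≠ y)
    (hc : Con E ρ x) (hn : Coc E σ ρ x) : ∃ a b, ρ x a ∧ ρ x b ∧ Inc E σ a b := by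
  classical
  by_contra hcon
  push Not at hcon
  have hfin : Set.Finite {a : V | ρ x a ∧ σ x a} := Set.toFinite _
  obtain ⟨a, ⟨hra, hsa⟩, hmax⟩ := Set.exists_max_image {a : V | ρ x a ∧ σ x a}
    (fun a => {z : V | E a z}.ncard) hfin ⟨x, h.rr x, h.sr x⟩
  -- all neighbourhoods are in the one of `a`
  have hsub : ∀ b, ρ x b → σ x b → ∀ z, E b z → E a z := by
    intro b hrb hsb
    have hab : σ a b := h.st _ _ _ (h.ss _ _ hsa) hsb
    have hni := hcon a b hra hrb
    by_contra hcc
    push Not at hcc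
    obtain ⟨q, hq1, hq2⟩ := hcc
    have hab' : ∀ p, E a p → E b p := by
      by_contra hcc
      push Not at hcc
      exact hni ⟨hab, hcc, q, hq1, hq2⟩
    have hlt : {z : V | E a z}.ncard < {z : V | E b z}.ncard := by
      apply Set.ncard_lt_ncard _ (Set.toFinite _)
      refine ⟨hab', fun hh => hq2 (hh hq1)⟩
    exact absurd (hmax b ⟨hrb, hsb⟩) (not_le.mpr hlt)
  -- `a` is adjacent to the other side
  have hall : ∀ z, ρ x z → ¬ σ x z → E a z := by
    intro z hrz hsz
    have hzx : x ≠ z := fun hh => hsz (hh ▸ h.sr x)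
    rcases (hc z hrz).cases_tail with hh | ⟨w, -, hwz, hE⟩
    · exact absurd hh.symm hzx
    · have hrw : ρ z w := h.rs _ _ hwz
      have hzw : ¬ σ z w := h.en _ _ (h.es _ _ hE)
      exact hsub w (h.rt _ _ _ hrz hrw) (h.s3 _ _ _ hrz hrw hsz hzw) z hE
  have hiso : ∀ u, ρ a u → ¬ σ a u → E a u := by
    intro u h1 h2
    exact hall u (h.rt _ _ _ hra h1) (fun hh => h2 (h.st _ _ _ (h.ss _ _ hsa) hh))
  by_cases hax : x = a
  · subst hax
    rcases (hn y hxy).cases_head with hh | ⟨w, ⟨h1, h2, h3⟩, -⟩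
    · exact hne hh
    · exact h3 (hiso w h1 h2)
  · rcases (hn a hra).cases_tail with hh | ⟨w, -, h1, h2, h3⟩
    · exact hax hh.symm
    · exact h3 (h.es _ _ (hiso w (h.rs _ _ h1) (fun hh => h2 (h.ss _ _ hh))))

end Pool.Agent.J4.H24.CF
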