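import Pool.Agent.J4.H24.CF.Ga
import Pool.Agent.J4.H24.CF.Su
import Pool.Agent.J4.H24.CF.Xi
import Pool.Agent.J4.H24.CF.Ex

set_option autoImplicit false

namespace Pool.Agent.J4.H24.CF

open Relation

variable {V : Type} {E σ ρ : V → V → Prop} {o : V → ℝ}


namespace SpB

/-- a property which is closed under the arcs of the tournament holds on the node -/
theorem close (h : Nd E σ ρ o) {x : V} (hs : Str E σ ρ x) {P : V → Prop}
    (hP : ∀ u v, ρ x u → ρ x v → P u → ¬ σ u v → (E u v ↔ σ x u) → P v) {u₀ : V} (h0 : ρ x u₀)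
    (hP0 : P u₀) : ∀ v, ρ x v → P v := by
  intro v hv
  have h1 := hs u₀ v h0 hv
  have h2 : ρ x v ∧ P v := by
    clear hv
    induction h1 with
    | refl => exact ⟨h0, hP0⟩
    | tail _ hbc ih =>
      have h3 := h.rt _ _ _ ih.1 hbc.1
      exact ⟨h3, hP _ _ ih.1 h3 ih.2 hbc.2.1 hbc.2.2⟩
  exact h2.2

theorem closeE (h : Nd E σ ρ o) {x : V} (hc : Con E ρ x) {P : V → Prop}
    (hP : ∀ u v, ρ x u → ρ x v → E u v → P u → P v) (hP0 : P x) : ∀ v, ρ x v → P v := by
  intro v hv
  have h1 := hc v hv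
  have h2 : ρ x v ∧ P v := by
    clear hv
    induction h1 with
    | refl => exact ⟨h.rr x, hP0⟩
    | tail _ hbc ih =>
      have h3 := h.rt _ _ _ ih.1 hbc.1
      exact ⟨h3, hP _ _ ih.1 h3 hbc.2 ih.2⟩
  exact h2.2

theorem closeN (h : Nd E σ ρ o) {x : V} (hc : Coc E σ ρ x) {P : V → Prop}
    (hP : ∀ u v, ρ x u → ρ x v → ¬ σ u v → ¬ E u v → P u → P v) (hP0 : P x) :
    ∀ v, ρ x v → P v := by
  intro v hv
  have h1 := hc v hv
  have h2 : ρ x v ∧ P v := by
    clear hv
    induction h1 with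
    | refl => exact ⟨h.rr x, hP0⟩
    | tail _ hbc ih =>
      have h3 := h.rt _ _ _ ih.1 hbc.1
      exact ⟨h3, hP _ _ ih.1 h3 hbc.2.1 hbc.2.2 ih.2⟩
  exact h2.2

/-- a pair with the greatest support -/
theorem exists_max [Finite V] (h : Nd E σ ρ o) {x y : V} (hxy : ρ x y) (hne : x ≠ y)
    (hc : Con E ρ x) (hn : Coc E σ ρ x) : ∃ a b, ρ x a ∧ ρ x b ∧ Inc E σ a b ∧
      ∀ c d, ρ x c → ρ x d → Inc E σ c d → (∀ k, Sup E σ a b k → Sup E σ c d k) →
        ∀ k, Sup E σ c d k → Sup E σ a b k := by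
  obtain ⟨a₀, b₀, h1, h2, h3⟩ := exists_inc h hxy hne hc hn
  obtain ⟨⟨a, b⟩, ⟨h4, h5, h6⟩, h7⟩ := Set.exists_max_image
    {p : V × V | ρ x p.1 ∧ ρ x p.2 ∧ Inc E σ p.1 p.2}
    (fun p => Set.ncard {k | Sup E σ p.1 p.2 k}) (Set.toFinite _) ⟨(a₀, b₀), h1, h2, h3⟩
  refine ⟨a, b, h4, h5, h6, fun c d hc hd hcd hsub k hk => ?_⟩
  by_contra hk'
  have h8 := h7 (c, d) ⟨hc, hd, hcd⟩
  have h9 : Set.ncard {k | Sup E σ a b k} < Set.ncard {k | Sup E σ c d k} := by
    apply Set.ncard_lt_ncard _ (Set.toFinite _)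
    exact ⟨fun k hk => hsub k hk, fun hc' => hk' (hc' hk)⟩
  simp only at h8
  omega

end SpB

open SpB in
theorem exists_span [Finite V] (h : Nd E σ ρ o) {x y : V} (hxy : ρ x y) (hne : x ≠ y)
    (hc : Con E ρ x) (hn : Coc E σ ρ x) (hs : Str E σ ρ x) :
    ∃ a b, ρ x a ∧ Span E σ ρ a b := by
  obtain ⟨a, b, hxa, hxb, hi, hmax⟩ := exists_max h hxy hne hc hn
  have hab : ρ a b := h.rt _ _ _ (h.rs _ _ hxa) hxb
  refine ⟨a, b, hxa, hi, hab, ?_⟩
  -- notation
  set K : V → Prop := fun k => Sup E σ a b k with hK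
  have haK : K a := ⟨b, Or.inl ReflTransGen.refl⟩
  have hKρ : ∀ k, K k → ρ x k := by
    rintro k ⟨v, hv | hv⟩
    · exact h.rt _ _ _ hxa (ga_rho h hab hv).1
    · exact h.rt _ _ _ hxa (ga_rho h hab hv).2
  -- both sides are met by K
  have hK0 : ∀ w, ρ x w → ∃ k, K k ∧ ¬ σ k w := by
    intro w hw
    by_cases haw : σ a w
    · obtain ⟨⟨p, hp, hap⟩, -⟩ := sup_sep h hi haK
      refine ⟨p, hp, fun hpw => h.en _ _ hap ?_⟩
      exact h.st _ _ _ haw (h.ss _ _ hpw)
    · exact ⟨a, haK, haw⟩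
  -- sides in the node
  have hside : ∀ u v w, ρ x u → ρ x v → ρ x w → ¬ σ u v → ¬ σ v w → σ u w := by
    intro u v w hu hv hw h1 h2
    exact h.s3 _ _ _ (h.rt _ _ _ (h.rs _ _ hu) hv) (h.rt _ _ _ (h.rs _ _ hv) hw) h1 h2
  have hss : ∀ u v, ¬ σ u v → ¬ σ v u := fun u v h1 h2 => h1 (h.ss _ _ h2)
  have hes : ∀ u v, ¬ E u v → ¬ E v u := fun u v h1 h2 => h1 (h.es _ _ h2)
  set Full : V → Prop := fun w => ρ x w ∧ ¬ K w ∧ ∀ k, K k → ¬ σ k w → E k w with hFull
  set Emp : V → Prop := fun w => ρ x w ∧ ¬ K w ∧ ∀ k, K k → ¬ E k w with hEmp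
  have hdich : ∀ w, ρ x w → K w ∨ Full w ∨ Emp w := by
    intro w hw
    by_cases hKw : K w
    · exact Or.inl hKw
    right
    obtain ⟨k₀, hk₀, hk₀w⟩ := hK0 w hw
    by_cases hE : E k₀ w
    · left
      refine ⟨hw, hKw, fun k hk hkw => ?_⟩
      have h1 : σ k₀ k := hside _ _ _ (hKρ _ hk₀) hw (hKρ _ hk) hk₀w (hss _ _ hkw)
      exact (sup_unif h hi hKw hk₀ hk h1).1 hE
    · right
      refine ⟨hw, hKw, fun k hk hkw => ?_⟩
      have h1 : σ k₀ k := hside _ _ _ (hKρ _ hk₀) hw (hKρ _ hk) hk₀w (hss _ _ (h.en _ _ hkw))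
      exact hE ((sup_unif h hi hKw hk₀ hk h1).2 hkw)
  -- the main exchange property
  have star : ∀ p q r, Full p → Emp q → ρ x r → ¬ K r → σ p q → ¬ σ r p → E r q → E r p := by
    intro p q r hp hq hr hrK hpq hrp hrq
    by_contra hE
    have e := fun w (hw : ρ x w) => h.rt _ _ _ (h.rs _ _ hxa) hw
    obtain ⟨c, d, hcd, hac, had, hsub, hr'⟩ := ext h hi hab (e p hp.1) (e q hq.1) (e r hr) hrK hpq
      hrp hp.2.2 hq.2.2 hE hrq
    exact hrK (hmax c d (h.rt _ _ _ hxa hac) (h.rt _ _ _ hxa had) hcd hsub r hr')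
  -- it suffices that K is the whole node
  suffices hall : ∀ w, ρ x w → K w from fun w hw => hall w (h.rt _ _ _ hxa hw)
  -- the dichotomy
  have hcases : (∀ p q, Full p → Full q → ¬ σ p q → E p q) ∨ (∀ p q, Emp p → Emp q → ¬ E p q) := by
    by_contra hcon
    push Not at hcon
    obtain ⟨⟨p, q, hp, hq, hpq, hEpq⟩, ⟨u, v, hu, hv, huv⟩⟩ := hcon
    -- a version with the sides fixed
    have key : ∀ p q u v, Full p → Full q → ¬ σ p q → Emp u → Emp v → E u v → σ u p → E p q := by
      intro p q u v hp hq hpq hu hv huv hup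
      have huv' := h.en _ _ huv
      have hqv : σ q v := by
        apply hside q p v hq.1 hp.1 hv.1 (hss _ _ hpq)
        intro hpv
        exact huv' (h.st _ _ _ hup hpv)
      have huq : ¬ σ u q := fun h1 => huv' (h.st _ _ _ h1 hqv)
      have h1 : E u q := star q v u hq hv hu.1 hu.2.1 hqv huq huv
      have h2 : E v p := by
        apply star p u v hp hu hv.1 hv.2.1 (h.ss _ _ hup) ?_ (h.es _ _ huv)
        intro h3
        exact huv' (h.st _ _ _ hup (h.ss _ _ h3))
      exact star q v p hq hv hp.1 hp.2.1 hqv hpq (h.es _ _ h2)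
    by_cases hup : σ u p
    · exact hEpq (key p q u v hp hq hpq hu hv huv hup)
    · have huq : σ u q := by
        apply hside u p q hu.1 hp.1 hq.1 hup hpq
      exact hEpq (h.es _ _ (key q p u v hq hp (hss _ _ hpq) hu hv huv huq))
  have hKE : ∀ k w, K k → Emp w → ¬ E k w := fun k w hk hw => hw.2.2 k hk
  have hKF : ∀ k w, K k → Full w → ¬ σ k w → E k w := fun k w hk hw => hw.2.2 k hk
  have hnEF : ∀ w, Emp w → Full w → False := by
    intro w h1 h2
    obtain ⟨k, hk, hkw⟩ := hK0 w h1.1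
    exact h1.2.2 k hk (h2.2.2 k hk hkw)
  rcases hcases with hFF | hEE
  · -- Z
    set Z : V → Prop := fun z => Emp z ∧ ∃ z', Emp z' ∧ E z z' with hZ
    have hZF : ∀ z v, Z z → Full v → ¬ σ z v → E z v := by
      rintro z v ⟨hz, z', hz', hzz'⟩ hv hzv
      have hvz' : σ v z' := hside _ _ _ hv.1 hz.1 hz'.1 (hss _ _ hzv) (h.en _ _ hzz')
      exact star v z' z hv hz' hz.1 hz.2.1 hvz' hzv hzz'
    -- first closed set
    have c1 : ∀ v, ρ x v → K v ∨ Z v ∨ (σ x v ∧ Emp v ∧ ¬ Z v) ∨ (¬ σ x v ∧ Full v) := by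
      apply close h hs (P := fun v => K v ∨ Z v ∨ (σ x v ∧ Emp v ∧ ¬ Z v) ∨ (¬ σ x v ∧ Full v))
        ?_ hxa (Or.inl haK)
      intro u v hu hv hPu huv hE
      have hv3 := hdich v hv
      by_cases hxu : σ x u
      · -- u on side A, arc is an edge, v on side B
        have hEuv : E u v := hE.2 hxu
        have hxv : ¬ σ x v := fun h1 => huv (h.st _ _ _ (h.ss _ _ hxu) h1)
        rcases hv3 with hv3 | hv3 | hv3
        · exact Or.inl hv3
        · exact Or.inr (Or.inr (Or.inr ⟨hxv, hv3⟩))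
        · right; left
          refine ⟨hv3, u, ?_, h.es _ _ hEuv⟩
          rcases hPu with hPu | hPu | hPu | hPu
          · exact absurd hEuv (hKE u v hPu hv3)
          · exact hPu.1
          · exact hPu.2.1
          · exact absurd hxu hPu.1
      · have hEuv : ¬ E u v := fun h1 => hxu (hE.1 h1)
        have hxv : σ x v := hside _ _ _ (h.rr x) hu hv hxu huv
        rcases hv3 with hv3 | hv3 | hv3
        · exact Or.inl hv3
        · exfalso
          rcases hPu with hPu | hPu | hPu | hPu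
          · exact hEuv (hKF u v hPu hv3 huv)
          · exact hEuv (hZF u v hPu hv3 huv)
          · exact hxu hPu.1
          · exact hEuv (hFF u v hPu.2 hv3 huv)
        · by_cases hZv : Z v
          · exact Or.inr (Or.inl hZv)
          · exact Or.inr (Or.inr (Or.inl ⟨hxv, hv3, hZv⟩))
    -- second closed set
    have c2 : ∀ v, ρ x v → K v ∨ Z v := by
      intro w hw
      by_contra hcon
      push Not at hcon
      have hw2 : (σ x w ∧ Emp w ∧ ¬ Z w) ∨ (¬ σ x w ∧ Full w) := by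
        rcases c1 w hw with h1 | h1 | h1
        · exact absurd h1 hcon.1
        · exact absurd h1 hcon.2
        · exact h1
      have c3 : ∀ v, ρ x v → (σ x v ∧ Emp v ∧ ¬ Z v) ∨ (¬ σ x v ∧ Full v) := by
        apply close h hs (P := fun v => (σ x v ∧ Emp v ∧ ¬ Z v) ∨ (¬ σ x v ∧ Full v)) ?_ hw hw2
        intro u v hu hv hPu huv hE
        by_cases hxu : σ x u
        · have hEuv : E u v := hE.2 hxu
          rcases hPu with hPu | hPu
          · rcases c1 v hv with h1 | h1 | h1 | h1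
            · exact absurd (h.es _ _ hEuv) (hKE v u h1 hPu.2.1)
            · exact absurd ⟨hPu.2.1, v, h1.1, hEuv⟩ hPu.2.2
            · exact absurd ⟨hPu.2.1, v, h1.2.1, hEuv⟩ hPu.2.2
            · exact Or.inr h1
          · exact absurd hxu hPu.1
        · have hEuv : ¬ E u v := fun h1 => hxu (hE.1 h1)
          rcases hPu with hPu | hPu
          · exact absurd hPu.1 hxu
          · rcases c1 v hv with h1 | h1 | h1 | h1
            · exact absurd (h.es _ _ (hKF v u h1 hPu.2 (hss _ _ huv))) hEuv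
            · exact absurd (h.es _ _ (hZF v u h1 hPu.2 (hss _ _ huv))) hEuv
            · exact Or.inl h1
            · exact absurd (hside _ _ _ (h.rr x) hu hv hxu huv) h1.1
      rcases c3 a hxa with h1 | h1
      · exact h1.2.1.2.1 haK
      · exact h1.2.2.1 haK
    -- K is closed under edges
    have hxK : K x := by
      rcases c2 x (h.rr x) with h1 | h1
      · exact h1
      · exfalso
        have h2 : ∀ v, ρ x v → Z v := by
          apply closeE h hc ?_ h1
          intro u v hu hv hE hu2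
          rcases c2 v hv with h3 | h3
          · exact absurd (h.es _ _ hE) (hKE v u h3 hu2.1)
          · exact h3
        exact (h2 a hxa).1.2.1 haK
    apply closeE h hc ?_ hxK
    intro u v hu hv hE hu2
    rcases c2 v hv with h3 | h3
    · exact h3
    · exact absurd hE (hKE u v hu2 h3.1)
  · -- Y
    set Z : V → Prop := fun z => Full z ∧ ∃ z', Full z' ∧ ¬ σ z z' ∧ ¬ E z z' with hZ
    have hZF : ∀ z v, Z z → Emp v → ¬ E z v := by
      rintro z v ⟨hz, z', hz', hzz', hE'⟩ hv hzv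
      have hvz' : σ z' v := hside _ _ _ hz'.1 hz.1 hv.1 (hss _ _ hzz') (h.en _ _ hzv)
      exact hE' (star z' v z hz' hv hz.1 hz.2.1 hvz' hzz' hzv)
    -- first closed set
    have c1 : ∀ v, ρ x v → K v ∨ Z v ∨ (¬ σ x v ∧ Full v ∧ ¬ Z v) ∨ (σ x v ∧ Emp v) := by
      apply close h hs (P := fun v => K v ∨ Z v ∨ (¬ σ x v ∧ Full v ∧ ¬ Z v) ∨ (σ x v ∧ Emp v))
        ?_ hxa (Or.inl haK)
      intro u v hu hv hPu huv hE
      have hv3 := hdich v hv
      by_cases hxu : σ x u
      · -- u on side A, arc is an edge, v on side B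
        have hEuv : E u v := hE.2 hxu
        have hxv : ¬ σ x v := fun h1 => huv (h.st _ _ _ (h.ss _ _ hxu) h1)
        rcases hv3 with hv3 | hv3 | hv3
        · exact Or.inl hv3
        · by_cases hZv : Z v
          · exact Or.inr (Or.inl hZv)
          · exact Or.inr (Or.inr (Or.inl ⟨hxv, hv3, hZv⟩))
        · exfalso
          rcases hPu with hPu | hPu | hPu | hPu
          · exact hKE u v hPu hv3 hEuv
          · exact hZF u v hPu hv3 hEuv
          · exact hPu.1 hxu
          · exact hEE u v hPu.2 hv3 hEuv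
      · have hEuv : ¬ E u v := fun h1 => hxu (hE.1 h1)
        have hxv : σ x v := hside _ _ _ (h.rr x) hu hv hxu huv
        rcases hv3 with hv3 | hv3 | hv3
        · exact Or.inl hv3
        · right; left
          refine ⟨hv3, u, ?_, hss _ _ huv, hes _ _ hEuv⟩
          rcases hPu with hPu | hPu | hPu | hPu
          · exact absurd (hKF u v hPu hv3 huv) hEuv
          · exact hPu.1
          · exact hPu.2.1
          · exact absurd hPu.1 hxu
        · exact Or.inr (Or.inr (Or.inr ⟨hxv, hv3⟩))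
    -- second closed set
    have c2 : ∀ v, ρ x v → K v ∨ Z v := by
      intro w hw
      by_contra hcon
      push Not at hcon
      have hw2 : (¬ σ x w ∧ Full w ∧ ¬ Z w) ∨ (σ x w ∧ Emp w) := by
        rcases c1 w hw with h1 | h1 | h1
        · exact absurd h1 hcon.1
        · exact absurd h1 hcon.2
        · exact h1
      have c3 : ∀ v, ρ x v → (¬ σ x v ∧ Full v ∧ ¬ Z v) ∨ (σ x v ∧ Emp v) := by
        apply close h hs (P := fun v => (¬ σ x v ∧ Full v ∧ ¬ Z v) ∨ (σ x v ∧ Emp v)) ?_ hw hw2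
        intro u v hu hv hPu huv hE
        by_cases hxu : σ x u
        · have hEuv : E u v := hE.2 hxu
          have hxv : ¬ σ x v := fun h1 => huv (h.st _ _ _ (h.ss _ _ hxu) h1)
          rcases hPu with hPu | hPu
          · exact absurd hxu hPu.1
          · rcases c1 v hv with h1 | h1 | h1 | h1
            · exact absurd (h.es _ _ hEuv) (hKE v u h1 hPu.2)
            · exact absurd (h.es _ _ hEuv) (hZF v u h1 hPu.2)
            · exact Or.inl h1
            · exact absurd h1.1 hxv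
        · have hEuv : ¬ E u v := fun h1 => hxu (hE.1 h1)
          have hxv : σ x v := hside _ _ _ (h.rr x) hu hv hxu huv
          rcases hPu with hPu | hPu
          · rcases c1 v hv with h1 | h1 | h1 | h1
            · exact absurd (h.es _ _ (hKF v u h1 hPu.2.1 (hss _ _ huv))) hEuv
            · exact absurd ⟨hPu.2.1, v, h1.1, huv, hEuv⟩ hPu.2.2
            · exact absurd hxv h1.1
            · exact Or.inr h1
          · exact absurd hPu.1 hxu
      rcases c3 a hxa with h1 | h1
      · exact h1.2.1.2.1 haK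
      · exact h1.2.2.1 haK
    -- K is closed under non-edges
    have hxK : K x := by
      rcases c2 x (h.rr x) with h1 | h1
      · exact h1
      · exfalso
        have h2 : ∀ v, ρ x v → Z v := by
          apply closeN h hn ?_ h1
          intro u v hu hv huv hE hu2
          rcases c2 v hv with h3 | h3
          · exact absurd (h.es _ _ (hKF v u h3 hu2.1 (hss _ _ huv))) hE
          · exact h3
        exact (h2 a hxa).1.2.1 haK
    apply closeN h hn ?_ hxK
    intro u v hu hv huv hE hu2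
    rcases c2 v hv with h3 | h3
    · exact h3
    · exact absurd (hKF u v hu2 h3.1 huv) hE

end Pool.Agent.J4.H24.CF
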