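import Pool.Agent.J4.H24.CF.NxAux
import Pool.Agent.J4.H24.CF.Ma
import Pool.Agent.J4.H24.CF.Sp
import Pool.Agent.J4.H24.CF.PrA

/-!
# Cross-free bipartite graphs: the refinement of the nodes (helpers 16, 50)
-/

set_option autoImplicit false

namespace Pool.Agent.J4.H24.CF

variable {V : Type} {E σ ρ : V → V → Prop} {o : V → ℝ}

theorem nx_nd [Finite V] (h : Nd E σ ρ o) : Nd E σ (Nx E σ ρ) o :=
  NxAux.nx_nd h (fun _ _ => s_symm h) (fun _ _ => s_rho h) (fun _ _ => lk_symm h)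
    (fun _ _ _ => lk_trans h)

theorem nx_le (h : Nd E σ ρ o) {x y : V} (hxy : Nx E σ ρ x y) : ρ x y :=
  NxAux.nx_le h (fun _ _ => s_rho h) hxy

theorem nx_proper [Finite V] (h : Nd E σ ρ o) {x y : V} (hxy : ρ x y) (hne : x ≠ y) :
    ∃ z, ρ x z ∧ ¬ Nx E σ ρ x z :=
  nx_proper_of h (fun h1 h2 => exists_span h h1 h2) (s_symm h) (s_rho h) (not_S h)
    (lk_symm h) (lk_trans h) hxy hne

end Pool.Agent.J4.H24.CF
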