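import Pool.Agent.J4.H24.CF.Defs

/-!
# Cross-free bipartite graphs: the refined nodes are seen uniformly from outside (piece NX3, helper46)
-/

set_option autoImplicit false

namespace Pool.Agent.J4.H24.CF

open Relation

variable {V : Type} {E σ ρ : V → V → Prop} {o : V → ℝ}

/-- NX3: the field `mod` for the refinement of the nodes -/
theorem nx_mod (h : Nd E σ ρ o) {x y z : V} (hxy : Nx E σ ρ x y) (hρ : ρ x y) (hs : σ x y)
    (hz : ¬ Nx E σ ρ x z) : E x z ↔ E y z := by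
  by_cases hr : ρ x z
  swap
  · exact h.mod x y z hρ hs hr
  have hyz : ρ y z := h.rt _ _ _ (h.rs _ _ hρ) hr
  by_cases hσ : σ x z
  · have hσ' : σ y z := h.st _ _ _ (h.ss _ _ hs) hσ
    exact ⟨fun e => absurd hσ (h.en _ _ e), fun e => absurd hσ' (h.en _ _ e)⟩
  have hσ' : ¬ σ y z := fun e => hσ (h.st _ _ _ hs e)
  have hσz : ¬ σ x z := hσ
  rcases hxy with ⟨c1, h1⟩ | ⟨c1, c2, h1⟩ | ⟨c1, c2, c3, h1⟩ | ⟨c1, c2, c3, h1⟩
  · have hn : ¬ ReE E ρ x z := fun e => hz (Or.inl ⟨c1, e⟩)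
    constructor
    · intro e
      exact absurd (ReflTransGen.single ⟨hr, e⟩) hn
    · intro e
      exact absurd (h1.tail ⟨hyz, e⟩) hn
  · have hn : ¬ ReN E σ ρ x z := fun e => hz (Or.inr (Or.inl ⟨c1, c2, e⟩))
    constructor
    · intro _
      by_contra e
      exact hn (h1.tail ⟨hyz, hσ', e⟩)
    · intro _
      by_contra e
      exact hn (ReflTransGen.single ⟨hr, hσz, e⟩)
  · have hn : ¬ N3 E σ ρ x z := fun e => hz (Or.inr (Or.inr (Or.inl ⟨c1, c2, c3, e⟩)))
    rcases h1 with ⟨-, -, h1⟩ | ⟨h1, h2⟩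
    · exact h1 z
    · have hzx : ρ z x := h.rs _ _ hr
      have hzy : ρ z y := h.rs _ _ hyz
      have hsx : σ x x := h.sr x
      have n1 : ¬ σ z x := fun e => hσ (h.ss _ _ e)
      have n2 : ¬ σ z y := fun e => hσ' (h.ss _ _ e)
      constructor
      · intro e
        by_contra e'
        refine hn (Or.inr ⟨ReflTransGen.single ⟨hr, hσ, ?_⟩, ?_⟩)
        · exact ⟨fun _ => hsx, fun _ => e⟩
        · refine ReflTransGen.head ⟨hzy, n2, ?_⟩ h2
          exact ⟨fun k => absurd (h.es _ _ k) e', fun k => absurd k hσ⟩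
      · intro e
        by_contra e'
        refine hn (Or.inr ⟨h1.tail ⟨hyz, hσ', ?_⟩, ReflTransGen.single ⟨hzx, n1, ?_⟩⟩)
        · exact ⟨fun _ => hs, fun _ => e⟩
        · exact ⟨fun k => absurd (h.es _ _ k) e', fun k => absurd k hσ⟩
  · have hn : ¬ N4 E σ ρ x z := fun e => hz (Or.inr (Or.inr (Or.inr ⟨c1, c2, c3, e⟩)))
    rcases h1 with h1 | ⟨-, h1, -⟩
    swap
    · exact absurd hs h1
    have hn2 : ¬ Lk E σ ρ x z := fun e => hn (Or.inr e)
    constructor
    · intro e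
      by_contra e'
      exact hn2 ⟨hr, hσ, x, y, z, ReflTransGen.refl, h1, ReflTransGen.refl, e, e'⟩
    · intro e
      by_contra e'
      exact hn2 ⟨hr, hσ, y, x, z, h1, ReflTransGen.refl, ReflTransGen.refl, e, e'⟩

end Pool.Agent.J4.H24.CF
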