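import Pool.Agent.J4.H24.CF.PrA
import Pool.Agent.J4.H24.CF.Sp
import Pool.Agent.J4.H24.CF.Bl
import Pool.Agent.J4.H24.CF.Ma

/-! Project CF, piece PR. -/

set_option autoImplicit false

namespace Pool.Agent.J4.H24.CF

open Relation

variable {V : Type} {E σ ρ : V → V → Prop} {o : V → ℝ}

theorem nx_proper [Finite V] (h : Nd E σ ρ o) {x y : V} (hxy : ρ x y) (hne : x ≠ y) :
    ∃ z, ρ x z ∧ ¬ Nx E σ ρ x z :=
  nx_proper_of h (fun h1 h2 h3 h4 h5 => exists_span h h1 h2 h3 h4 h5) (fun h1 => s_symm h h1)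
    (fun h1 => s_rho h h1) (fun h1 => not_S h h1) (fun h1 => lk_symm h h1)
    (fun h1 h2 => lk_trans h h1 h2) hxy hne

end Pool.Agent.J4.H24.CF
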