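import Pool.Agent.J4.H24.CF.Defs

/-!
# Piece SP of project CF, with the facts used as hypotheses
-/

set_option autoImplicit false

namespace Pool.Agent.J4.H24.CF

open Relation

variable {V : Type} {E σ ρ : V → V → Prop} {o : V → ℝ}

namespace Sp

theorem rtg_symm {r : V → V → Prop} (hr : ∀ p q, r p q → r q p) {u v : V}
    (h : ReflTransGen r u v) : ReflTransGen r v u := by
  induction h with
  | refl => exact ReflTransGen.refl
  | tail _ hbc ih => exact ReflTransGen.head (hr _ _ hbc) ih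

theorem core {N A K Fu Em : V → Prop} {F : V → V → Prop}
    (hF : ∀ u v, F u v → F v u) {k : V} (hNk : N k) (hKk : K k)
    (hcov : ∀ w, N w → K w ∨ Fu w ∨ Em w)
    (hKFu : ∀ w, Fu w → ¬ K w) (hKEm : ∀ w, Em w → ¬ K w)
    (hFu : ∀ w k, N w → Fu w → K k → ¬ (A k ↔ A w) → F k w)
    (hEm : ∀ w k, N w → Em w → K k → ¬ (A k ↔ A w) → ¬ F k w)
    (star : ∀ r p q, N r → N p → N q → Em r → Fu p → Em q → (A p ↔ A q) →
      ¬ (A r ↔ A p) → F r q → F r p)
    (hFF : ∀ u v, N u → N v → Fu u → Fu v → ¬ (A u ↔ A v) → F u v)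
    (hstr : ∀ W : V → Prop, (∀ u v, N u → N v → W u → ¬ (A u ↔ A v) → (F u v ↔ A u) → W v) →
      ∀ u v, N u → N v → W u → W v)
    (hcon : ∀ W : V → Prop, (∀ u v, N u → N v → W u → ¬ (A u ↔ A v) → F u v → W v) →
      ∀ u v, N u → N v → W u → W v) :
    ∀ w, N w → K w := by
  obtain ⟨Z, hZ⟩ : ∃ Z : V → Prop, ∀ w, Z w ↔
      (Em w ∧ ∃ w', N w' ∧ Em w' ∧ ¬ (A w ↔ A w') ∧ F w w') := ⟨_, fun _ => Iff.rfl⟩
  have hZF : ∀ z v, N z → N v → Z z → Fu v → ¬ (A z ↔ A v) → F z v := by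
    intro z v hz hv hZz hFv hs
    obtain ⟨h1, w', hw', h2, h3, h4⟩ := (hZ z).1 hZz
    exact star z v w' hz hv hw' h1 hFv h2 (by tauto) hs h4
  have step1 : ∀ w, N w → K w ∨ Z w ∨ (Em w ∧ A w) ∨ (Fu w ∧ ¬ A w) := by
    intro w hw
    refine hstr (fun w => K w ∨ Z w ∨ (Em w ∧ A w) ∨ (Fu w ∧ ¬ A w)) ?_ k w hNk hw (Or.inl hKk)
    intro u v hu hv hW hside harc
    rcases hcov v hv with hv1 | hv1 | hv1
    · exact Or.inl hv1
    · by_cases hA : A v
      · exfalso
        have hAu : ¬ A u := fun h' => hside ⟨fun _ => hA, fun _ => h'⟩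
        have hnF : ¬ F u v := fun h' => hAu (harc.1 h')
        apply hnF
        rcases hW with hW | hW | hW | hW
        · exact hFu v u hv hv1 hW hside
        · exact hZF u v hu hv hW hv1 hside
        · exact absurd hW.2 hAu
        · exact hFF u v hu hv hW.1 hv1 hside
      · exact Or.inr (Or.inr (Or.inr ⟨hv1, hA⟩))
    · by_cases hA : A v
      · exact Or.inr (Or.inr (Or.inl ⟨hv1, hA⟩))
      · have hAu : A u := by tauto
        have hFuv : F u v := harc.2 hAu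
        rcases hW with hW | hW | hW | hW
        · exact absurd hFuv (hEm v u hv hv1 hW hside)
        · refine Or.inr (Or.inl ((hZ v).2 ⟨hv1, u, hu, ((hZ u).1 hW).1, ?_, hF _ _ hFuv⟩))
          tauto
        · refine Or.inr (Or.inl ((hZ v).2 ⟨hv1, u, hu, hW.1, ?_, hF _ _ hFuv⟩))
          tauto
        · exact absurd hAu hW.2
  have step2 : ∀ u, N u → ¬ ((Em u ∧ ¬ Z u ∧ A u) ∨ (Fu u ∧ ¬ A u)) := by
    intro u hu hW
    have hk' := hstr (fun w => (Em w ∧ ¬ Z w ∧ A w) ∨ (Fu w ∧ ¬ A w)) ?_ u k hu hNk hW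
    · rcases hk' with h1 | h1
      · exact hKEm k h1.1 hKk
      · exact hKFu k h1.1 hKk
    · intro u v hu hv hW hside harc
      rcases hW with ⟨e1, e2, e3⟩ | ⟨e1, e2⟩
      · have hFuv : F u v := harc.2 e3
        have hAv : ¬ A v := fun h' => hside ⟨fun _ => h', fun _ => e3⟩
        rcases step1 v hv with g | g | g | g
        · exact absurd (hF _ _ hFuv) (hEm u v hu e1 g (by tauto))
        · exact absurd ((hZ u).2 ⟨e1, v, hv, ((hZ v).1 g).1, hside, hFuv⟩) e2
        · exact absurd g.2 hAv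
        · exact Or.inr g
      · have hnF : ¬ F u v := fun hh => e2 (harc.1 hh)
        have hAv : A v := by tauto
        rcases step1 v hv with g | g | g | g
        · exact absurd (hF _ _ (hFu u v hu e1 g (by tauto))) hnF
        · exact absurd (hF _ _ (hZF v u hv hu g e1 (by tauto))) hnF
        · by_cases hz : Z v
          · exact absurd (hF _ _ (hZF v u hv hu hz e1 (by tauto))) hnF
          · exact Or.inl ⟨g.1, hz, g.2⟩
        · exact absurd hAv g.2
  have step3 : ∀ w, N w → K w ∨ Z w := by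
    intro w hw
    have h2 := step2 w hw
    rcases step1 w hw with g | g | g | g
    · exact Or.inl g
    · exact Or.inr g
    · by_cases hz : Z w
      · exact Or.inr hz
      · exact absurd (Or.inl ⟨g.1, hz, g.2⟩) h2
    · exact absurd (Or.inr g) h2
  intro w hw
  refine hcon K ?_ k w hNk hw hKk
  intro u v hu hv hK hside hFuv
  rcases step3 v hv with g | g
  · exact g
  · exact absurd hFuv (hEm v u hv ((hZ v).1 g).1 hK hside)

theorem exists_span_of [Finite V] (h : Nd E σ ρ o) {x : V}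
    (hxi : ∃ a b, ρ x a ∧ ρ x b ∧ Inc E σ a b)
    (hrho : ∀ a b u v, ρ a b → Ga E σ (a, b) (u, v) → ρ a u ∧ ρ a v)
    (hsep : ∀ a b u, Inc E σ a b → Sup E σ a b u → (∃ p, Sup E σ a b p ∧ E u p) ∧
      ∃ q, Sup E σ a b q ∧ ¬ σ u q ∧ ¬ E u q)
    (hunif : ∀ a b z u v, Inc E σ a b → ¬ Sup E σ a b z → Sup E σ a b u → Sup E σ a b v →
      σ u v → (E u z ↔ E v z))
    (hext : ∀ a b p q r, Inc E σ a b → ρ a b → ρ a p → ρ a q → ρ a r → ¬ Sup E σ a b r →
      σ p q → ¬ σ r p → (∀ k, Sup E σ a b k → ¬ σ k p → E k p) →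
      (∀ k, Sup E σ a b k → ¬ E k q) → ¬ E r p → E r q →
      ∃ c d, Inc E σ c d ∧ ρ a c ∧ ρ a d ∧ (∀ k, Sup E σ a b k → Sup E σ c d k) ∧
        Sup E σ c d r)
    (hc : Con E ρ x) (hn : Coc E σ ρ x) (hs : Str E σ ρ x) :
    ∃ a b, ρ x a ∧ Span E σ ρ a b := by
  obtain ⟨a0, b0, ha0, hb0, hi0⟩ := hxi
  obtain ⟨P, hP⟩ : ∃ P : Set (V × V), P = {t | ρ x t.1 ∧ ρ x t.2 ∧ Inc E σ t.1 t.2} := ⟨_, rfl⟩
  obtain ⟨t, htP, hmax⟩ := Set.exists_max_image P
    (fun t => Set.ncard {k | Sup E σ t.1 t.2 k}) (Set.toFinite _)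
    ⟨(a0, b0), by rw [hP]; exact ⟨ha0, hb0, hi0⟩⟩
  obtain ⟨a, b⟩ := t
  rw [hP] at htP
  obtain ⟨ha, hb, hi⟩ := htP
  simp only at ha hb hi
  have hab : ρ a b := h.rt _ _ _ (h.rs _ _ ha) hb
  have hxa : ∀ w, ρ a w → ρ x w := fun w hw => h.rt _ _ _ ha hw
  have hax : ∀ w, ρ x w → ρ a w := fun w hw => h.rt _ _ _ (h.rs _ _ ha) hw
  refine ⟨a, b, ha, hi, hab, ?_⟩
  obtain ⟨K, hK⟩ : ∃ K : V → Prop, ∀ w, K w ↔ Sup E σ a b w := ⟨_, fun _ => Iff.rfl⟩
  have hKN : ∀ w, K w → ρ x w := by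
    intro w hw
    obtain ⟨v, hv | hv⟩ := (hK w).1 hw
    · exact hxa _ (hrho a b w v hab hv).1
    · exact hxa _ (hrho a b v w hab hv).2
  have side : ∀ u v, ρ x u → ρ x v → (σ u v ↔ (σ x u ↔ σ x v)) := by
    intro u v hu hv
    constructor
    · intro huv
      exact ⟨fun h1 => h.st _ _ _ h1 huv, fun h1 => h.st _ _ _ h1 (h.ss _ _ huv)⟩
    · intro hiff
      by_cases h1 : σ x u
      · exact h.st _ _ _ (h.ss _ _ h1) (hiff.1 h1)
      · have h2 : ¬ σ x v := fun h' => h1 (hiff.2 h')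
        exact h.s3 u x v (h.rs _ _ hu) hv (fun h' => h1 (h.ss _ _ h')) h2
  have hKa : K a := (hK a).2 ⟨b, Or.inl ReflTransGen.refl⟩
  have hother : ∀ w, ρ x w → ∃ k, K k ∧ ¬ σ k w := by
    intro w hw
    by_cases haw : σ a w
    · obtain ⟨⟨p, hp, hap⟩, _⟩ := hsep a b a hi ((hK a).1 hKa)
      refine ⟨p, (hK p).2 hp, fun hpw => h.en _ _ hap (h.st _ _ _ haw (h.ss _ _ hpw))⟩
    · exact ⟨a, hKa, haw⟩
  obtain ⟨Fu, hFu⟩ : ∃ Fu : V → Prop, ∀ w, Fu w ↔ (¬ K w ∧ ∀ k, K k → ¬ σ k w → E k w) :=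
    ⟨_, fun _ => Iff.rfl⟩
  obtain ⟨Em, hEm⟩ : ∃ Em : V → Prop, ∀ w, Em w ↔ (¬ K w ∧ ∀ k, K k → ¬ E k w) :=
    ⟨_, fun _ => Iff.rfl⟩
  have hcov : ∀ w, ρ x w → K w ∨ Fu w ∨ Em w := by
    intro w hw
    by_cases hKw : K w
    · exact Or.inl hKw
    · right
      by_cases hex : ∃ k, K k ∧ E k w
      · left
        obtain ⟨k0, hk0, hk0w⟩ := hex
        refine (hFu w).2 ⟨hKw, fun k hk hkw => ?_⟩
        have h0 : ¬ σ k0 w := h.en _ _ hk0w
        have hkk : σ k k0 := h.s3 k w k0 (h.rt _ _ _ (h.rs _ _ (hKN k hk)) hw)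
          (h.rt _ _ _ (h.rs _ _ hw) (hKN k0 hk0)) hkw (fun h' => h0 (h.ss _ _ h'))
        exact (hunif a b w k k0 hi (fun h' => hKw ((hK w).2 h')) ((hK k).1 hk) ((hK k0).1 hk0)
          hkk).2 hk0w
      · right
        exact (hEm w).2 ⟨hKw, fun k hk hkw => hex ⟨k, hk, hkw⟩⟩
  have star : ∀ r p q, ρ x r → ρ x p → ρ x q → ¬ K r → Fu p → Em q → σ p q → ¬ σ r p →
      E r q → E r p := by
    intro r p q hr hp hq hrK hpF hqE hpq hrp hrq
    by_contra hne
    obtain ⟨c, d, hicd, hac, had, hsub, hrs⟩ := hext a b p q r hi hab (hax p hp) (hax q hq)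
      (hax r hr) (fun h' => hrK ((hK r).2 h')) hpq hrp
      (fun k hk hkp => ((hFu p).1 hpF).2 k ((hK k).2 hk) hkp)
      (fun k hk => ((hEm q).1 hqE).2 k ((hK k).2 hk)) hne hrq
    have hle := hmax (c, d) (by rw [hP]; exact ⟨hxa c hac, hxa d had, hicd⟩)
    have hlt : Set.ncard {k | Sup E σ a b k} < Set.ncard {k | Sup E σ c d k} := by
      apply Set.ncard_lt_ncard _ (Set.toFinite _)
      refine ⟨fun k hk => hsub k hk, fun hcon => ?_⟩
      exact hrK ((hK r).2 (hcon hrs))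
    exact absurd hle (not_le.2 hlt)
  have hstr : ∀ W : V → Prop, (∀ u v, ρ x u → ρ x v → W u → ¬ (σ x u ↔ σ x v) →
      (E u v ↔ σ x u) → W v) → ∀ u v, ρ x u → ρ x v → W u → W v := by
    intro W hW u v hu hv hWu
    have hp : ReD E σ ρ x u v := hs u v hu hv
    have : ρ x v ∧ W v := by
      unfold ReD at hp
      induction hp with
      | refl => exact ⟨hu, hWu⟩
      | @tail b c _ hbc ih =>
        obtain ⟨i1, i2⟩ := ih (by
          exact h.rt _ _ _ hv (h.rs _ _ hbc.1))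
        have hc' : ρ x c := h.rt _ _ _ i1 hbc.1
        refine ⟨hc', hW b c i1 hc' i2 ?_ hbc.2.2⟩
        exact fun h' => hbc.2.1 ((side b c i1 hc').2 h')
    exact this.2
  have hconE : ∀ W : V → Prop, (∀ u v, ρ x u → ρ x v → W u → ¬ (σ x u ↔ σ x v) →
      E u v → W v) → ∀ u v, ρ x u → ρ x v → W u → W v := by
    intro W hW u v hu hv hWu
    have hp : ReE E ρ u v := (rtg_symm (fun p q hpq => ⟨h.rs _ _ hpq.1, h.es _ _ hpq.2⟩)
      (hc u hu)).trans (hc v hv)
    have : ρ x v ∧ W v := by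
      unfold ReE at hp
      clear hv
      induction hp with
      | refl => exact ⟨hu, hWu⟩
      | @tail b c _ hbc ih =>
        obtain ⟨i1, i2⟩ := ih
        have hc' : ρ x c := h.rt _ _ _ i1 hbc.1
        refine ⟨hc', hW b c i1 hc' i2 ?_ hbc.2⟩
        exact fun h' => h.en _ _ hbc.2 ((side b c i1 hc').2 h')
    exact this.2
  have hconN : ∀ W : V → Prop, (∀ u v, ρ x u → ρ x v → W u → ¬ (σ x u ↔ σ x v) →
      ¬ E u v → W v) → ∀ u v, ρ x u → ρ x v → W u → W v := by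
    intro W hW u v hu hv hWu
    have hp : ReN E σ ρ u v := (rtg_symm (fun p q hpq => ⟨h.rs _ _ hpq.1,
      fun h' => hpq.2.1 (h.ss _ _ h'), fun h' => hpq.2.2 (h.es _ _ h')⟩) (hn u hu)).trans (hn v hv)
    have : ρ x v ∧ W v := by
      unfold ReN at hp
      clear hv
      induction hp with
      | refl => exact ⟨hu, hWu⟩
      | @tail b c _ hbc ih =>
        obtain ⟨i1, i2⟩ := ih
        have hc' : ρ x c := h.rt _ _ _ i1 hbc.1
        refine ⟨hc', hW b c i1 hc' i2 ?_ hbc.2.2⟩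
        exact fun h' => hbc.2.1 ((side b c i1 hc').2 h')
    exact this.2
  have hall : ∀ w, ρ x w → K w := by
    by_cases hFF : ∀ u v, ρ x u → ρ x v → Fu u → Fu v → ¬ σ u v → E u v
    · refine core (N := ρ x) (A := σ x) (K := K) (Fu := Fu) (Em := Em) (F := E) (k := a)
        h.es ha hKa hcov (fun w hw => ((hFu w).1 hw).1) (fun w hw => ((hEm w).1 hw).1)
        ?_ ?_ ?_ ?_ hstr hconE
      · intro w k hw hFw hk hsd
        refine ((hFu w).1 hFw).2 k hk fun h' => hsd ((side k w (hKN k hk) hw).1 h')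
      · intro w k hw hEw hk _
        exact ((hEm w).1 hEw).2 k hk
      · intro r p q hr hp hq hEr hFp hEq hpq hrp hrq
        exact star r p q hr hp hq ((hEm r).1 hEr).1 hFp hEq ((side p q hp hq).2 hpq)
          (fun h' => hrp ((side r p hr hp).1 h')) hrq
      · intro u v hu hv hFu' hFv hsd
        exact hFF u v hu hv hFu' hFv fun h' => hsd ((side u v hu hv).1 h')
    · push Not at hFF
      obtain ⟨a2, b2, ha2, hb2, hFa, hFb, hsab, hnE⟩ := hFF
      have hKa2 : ¬ K a2 := ((hFu a2).1 hFa).1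
      have key : ∀ u v, ρ x u → ρ x v → Em u → Em v → E u v → σ u a2 → False := by
        intro u v hu hv hEu hEv huv hua
        have hnuv : ¬ σ u v := h.en _ _ huv
        have hau : σ a2 u := h.ss _ _ hua
        have hub : ¬ σ u b2 := fun h' => hsab (h.st _ _ _ hau h')
        have hbv : σ b2 v := h.s3 b2 u v (h.rt _ _ _ (h.rs _ _ hb2) hu)
          (h.rt _ _ _ (h.rs _ _ hu) hv) (fun h' => hub (h.ss _ _ h')) hnuv
        have hva : ¬ σ v a2 := fun h' => hnuv (h.ss _ _ (h.st _ _ _ h' hau))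
        have s1 : E u b2 := star u b2 v hu hb2 hv ((hEm u).1 hEu).1 hFb hEv hbv hub huv
        have s2 : E v a2 := star v a2 u hv ha2 hu ((hEm v).1 hEv).1 hFa hEu hau hva
          (h.es _ _ huv)
        exact hnE (star a2 b2 v ha2 hb2 hv hKa2 hFb hEv hbv hsab (h.es _ _ s2))
      have hEE : ∀ u v, ρ x u → ρ x v → Em u → Em v → ¬ E u v := by
        intro u v hu hv hEu hEv huv
        have hnuv : ¬ σ u v := h.en _ _ huv
        by_cases hua : σ u a2
        · exact key u v hu hv hEu hEv huv hua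
        · exact key v u hv hu hEv hEu (h.es _ _ huv) (h.s3 v u a2 (h.rt _ _ _ (h.rs _ _ hv) hu)
            (h.rt _ _ _ (h.rs _ _ hu) ha2) (fun h' => hnuv (h.ss _ _ h')) hua)
      refine core (N := ρ x) (A := fun w => ¬ σ x w) (K := K) (Fu := Em) (Em := Fu)
        (F := fun u v => ¬ E u v) (k := a)
        (fun u v h1 h2 => h1 (h.es _ _ h2)) ha hKa (fun w hw => ?_)
        (fun w hw => ((hEm w).1 hw).1) (fun w hw => ((hFu w).1 hw).1)
        ?_ ?_ ?_ ?_ ?_ ?_
      · rcases hcov w hw with g | g | g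
        · exact Or.inl g
        · exact Or.inr (Or.inr g)
        · exact Or.inr (Or.inl g)
      · intro w k hw hEw hk _
        exact ((hEm w).1 hEw).2 k hk
      · intro w k hw hFw hk hsd h'
        refine h' (((hFu w).1 hFw).2 k hk fun h'' => hsd ?_)
        exact not_congr ((side k w (hKN k hk) hw).1 h'')
      · intro r p q hr hp hq hFr hEp hFq hpq hrp hrq hrp'
        refine hrq (star r q p hr hq hp ((hFu r).1 hFr).1 hFq hEp ?_ ?_ hrp')
        · exact (side q p hq hp).2 (not_iff_not.1 hpq).symm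
        · intro h'
          have e1 := (side r q hr hq).1 h'
          apply hrp
          rw [not_iff_not] at hpq ⊢
          exact e1.trans hpq.symm
      · intro u v hu hv hEu hEv _
        exact hEE u v hu hv hEu hEv
      · intro W hW
        refine hstr W fun u v hu hv hWu hsd harc => hW u v hu hv hWu ?_ ?_
        · rw [not_iff_not]
          exact hsd
        · rw [not_iff_not]
          exact harc
      · intro W hW
        refine hconN W fun u v hu hv hWu hsd harc => hW u v hu hv hWu ?_ harc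
        rw [not_iff_not]
        exact hsd
  intro w hw
  exact (hK w).1 (hall w (hxa w hw))

end Sp

end Pool.Agent.J4.H24.CF
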