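import Pool.Agent.J4.H24.CF.Defs
import Pool.Agent.J4.H24.CF.Ga
import Pool.Agent.J4.H24.CF.Su
import Pool.Agent.J4.H24.CF.Ex
import Pool.Agent.J4.H24.CF.Xi

/-!
# Some pair of a strongly connected, connected and co-connected node spans it (piece SP)
-/

set_option autoImplicit false

namespace Pool.Agent.J4.H24.CF

open Relation

variable {V : Type} {E σ ρ : V → V → Prop} {o : V → ℝ}

namespace SpB

theorem rtg_symm {r : V → V → Prop} (hr : ∀ u v, r u v → r v u) {u v : V}
    (h : ReflTransGen r u v) : ReflTransGen r v u := by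
  induction h with
  | refl => exact .refl
  | tail _ h2 ih => exact ReflTransGen.head (hr _ _ h2) ih

/-- the abstract argument: `N` the node, `K` the support, `F` full, `M` empty, `A` a side -/
theorem core (N K F M A : V → Prop) (G : V → V → Prop)
    (hG : ∀ u v, G u v → G v u)
    (hcov : ∀ w, N w → ¬ K w → F w ∨ M w)
    (hFK : ∀ w, F w → ¬ K w) (hMK : ∀ w, M w → ¬ K w)
    (hMN : ∀ w, M w → N w)
    (hF : ∀ w k, F w → K k → (A k ↔ ¬ A w) → G k w)
    (hM : ∀ w k, M w → K k → (A k ↔ ¬ A w) → ¬ G k w)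
    (hstar : ∀ p q r, F p → M q → N r → ¬ K r → (A p ↔ A q) → (A r ↔ ¬ A p) → G r q → G r p)
    (hFF : ∀ p q, F p → F q → (A p ↔ ¬ A q) → G p q)
    (hstr : ∀ u v, N u → N v →
      ReflTransGen (fun u v => N v ∧ (A u ↔ ¬ A v) ∧ (G u v ↔ A u)) u v)
    (hcon : ∀ u v, N u → N v → ReflTransGen (fun u v => N v ∧ (A u ↔ ¬ A v) ∧ G u v) u v)
    (k : V) (hkN : N k) (hk : K k) : ∀ w, N w → K w := by
  classical
  let Z : V → Prop := fun w => M w ∧ ∃ z, M z ∧ (A z ↔ ¬ A w) ∧ G w z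
  let P : V → Prop := fun u => K u ∨ Z u ∨ (M u ∧ A u) ∨ (F u ∧ ¬ A u)
  let P2 : V → Prop := fun u => (M u ∧ ¬ Z u ∧ A u) ∨ (F u ∧ ¬ A u)
  have hP : ∀ w, N w → P w := by
    intro w hw
    have hr := hstr k w hkN hw
    clear hw
    induction hr with
    | refl => exact Or.inl hk
    | @tail u v _ huv ih =>
      obtain ⟨hvN, hA, hGA⟩ := huv
      by_cases hvK : K v
      · exact Or.inl hvK
      have hv := hcov v hvN hvK
      by_cases hAu : A u
      · have hAv : ¬ A v := hA.1 hAu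
        have hguv : G u v := hGA.2 hAu
        rcases hv with hv | hv
        · exact Or.inr (Or.inr (Or.inr ⟨hv, hAv⟩))
        · rcases ih with hu | hu | hu | hu
          · exact absurd hguv (hM v u hv hu (by tauto))
          · exact Or.inr (Or.inl ⟨hv, u, hu.1, by tauto, hG _ _ hguv⟩)
          · exact Or.inr (Or.inl ⟨hv, u, hu.1, by tauto, hG _ _ hguv⟩)
          · exact absurd hAu hu.2
      · have hAv : A v := by tauto
        have hguv : ¬ G u v := by tauto
        rcases hv with hv | hv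
        · rcases ih with hu | hu | hu | hu
          · exact absurd (hF v u hv hu (by tauto)) hguv
          · obtain ⟨huM, z, hz, hzA, huz⟩ := hu
            exact absurd (hstar v z u hv hz (hMN u huM) (hMK u huM) (by tauto) (by tauto) huz) hguv
          · exact absurd hu.2 hAu
          · exact absurd (hFF u v hu.1 hv (by tauto)) hguv
        · exact Or.inr (Or.inr (Or.inl ⟨hv, hAv⟩))
  have hP2 : ∀ u, N u → ¬ P2 u := by
    intro u hu hPu
    have : ∀ w, ReflTransGen (fun u v => N v ∧ (A u ↔ ¬ A v) ∧ (G u v ↔ A u)) u w → P2 w := by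
      intro w hw
      induction hw with
      | refl => exact hPu
      | @tail u v _ huv ih =>
        obtain ⟨hvN, hA, hGA⟩ := huv
        rcases ih with hu | hu
        · obtain ⟨huM, huZ, hAu⟩ := hu
          have hAv : ¬ A v := hA.1 hAu
          have hguv : G u v := hGA.2 hAu
          have hvK : ¬ K v := fun hvK => hM u v huM hvK (by tauto) (hG _ _ hguv)
          rcases hcov v hvN hvK with hv | hv
          · exact Or.inr ⟨hv, hAv⟩
          · exact absurd ⟨huM, v, hv, by tauto, hguv⟩ huZ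
        · obtain ⟨huF, hAu⟩ := hu
          have hAv : A v := by tauto
          have hguv : ¬ G u v := by tauto
          have hvK : ¬ K v := fun hvK => hguv (hG _ _ (hF u v huF hvK (by tauto)))
          rcases hcov v hvN hvK with hv | hv
          · exact absurd (hFF u v huF hv (by tauto)) hguv
          · refine Or.inl ⟨hv, ?_, hAv⟩
            rintro ⟨_, z, hz, hzA, hvz⟩
            exact hguv (hG _ _ (hstar u z v huF hz hvN hvK (by tauto) (by tauto) hvz))
    rcases this k (hstr u k hu hkN) with h | h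
    · exact hMK k h.1 hk
    · exact hFK k h.1 hk
  intro w hw
  have hr := hcon k w hkN hw
  clear hw
  induction hr with
  | refl => exact hk
  | @tail u v _ huv ih =>
    obtain ⟨hvN, hA, huv⟩ := huv
    by_contra hvK
    have hvM : M v := by
      rcases hP v hvN with h | h | h | h
      · exact absurd h hvK
      · exact h.1
      · exact h.1
      · exact absurd (Or.inr h) (hP2 v hvN)
    exact hM v u hvM ih hA huv

end SpB

open SpB in
/-- Some pair of a strongly connected, connected and co-connected node spans it. -/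
theorem exists_span [Finite V] (h : Nd E σ ρ o) {x y : V} (hxy : ρ x y) (hne : x ≠ y)
    (hc : Con E ρ x) (hn : Coc E σ ρ x) (hs : Str E σ ρ x) :
    ∃ a b, ρ x a ∧ Span E σ ρ a b := by
  classical
  obtain ⟨a₀, b₀, ha₀, hb₀, hi₀⟩ := exists_inc h hxy hne hc hn
  obtain ⟨⟨a, b⟩, ⟨ha, hb, hi⟩, hmax⟩ := Set.exists_max_image
    {p : V × V | ρ x p.1 ∧ ρ x p.2 ∧ Inc E σ p.1 p.2}
    (fun p => Set.ncard {k | Sup E σ p.1 p.2 k}) (Set.toFinite _) ⟨(a₀, b₀), ha₀, hb₀, hi₀⟩
  dsimp only at ha hb hi hmax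
  have hab : ρ a b := h.rt _ _ _ (h.rs _ _ ha) hb
  refine ⟨a, b, ha, hi, hab, ?_⟩
  -- the support is in the node
  have hKN : ∀ k, Sup E σ a b k → ρ x k := by
    rintro k ⟨v, hv | hv⟩
    · exact h.rt _ _ _ ha (ga_rho h hab hv).1
    · exact h.rt _ _ _ ha (ga_rho h hab hv).2
  -- maximality
  have hstar : ∀ p q r, ρ x p → ρ x q → ρ x r → ¬ Sup E σ a b r → σ p q → ¬ σ r p →
      (∀ k, Sup E σ a b k → ¬ σ k p → E k p) → (∀ k, Sup E σ a b k → ¬ E k q) →
      E r q → E r p := by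
    intro p q r hp hq hr hrK hpq hrp hpf hqe hrq
    by_contra hrp'
    obtain ⟨c, d, hcd, hac, had, hsub, hrc⟩ := ext h hi hab (h.rt _ _ _ (h.rs _ _ ha) hp)
      (h.rt _ _ _ (h.rs _ _ ha) hq) (h.rt _ _ _ (h.rs _ _ ha) hr) hrK hpq hrp hpf hqe hrp' hrq
    have h1 := hmax (c, d) ⟨h.rt _ _ _ ha hac, h.rt _ _ _ ha had, hcd⟩
    dsimp only at h1
    have h2 : Set.ncard {k | Sup E σ a b k} < Set.ncard {k | Sup E σ c d k} := by
      apply Set.ncard_lt_ncard _ (Set.toFinite _)
      refine ⟨fun k hk => hsub k hk, fun hh => hrK (hh hrc)⟩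
    omega
  -- elements of the node on the other sides
  have hside : ∀ u v w, ρ x u → ρ x v → ρ x w → ¬ σ u v → ¬ σ v w → σ u w := by
    intro u v w hu hv hw huv hvw
    exact h.s3 u v w (h.rt _ _ _ (h.rs _ _ hu) hv) (h.rt _ _ _ (h.rs _ _ hv) hw) huv hvw
  have hσ : ∀ u v, ρ x u → ρ x v → (σ u v ↔ (σ x u ↔ σ x v)) := by
    intro u v hu hv
    constructor
    · intro huv
      exact ⟨fun hxu => h.st _ _ _ hxu huv, fun hxv => h.st _ _ _ hxv (h.ss _ _ huv)⟩
    · intro hiff
      by_cases hxu : σ x u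
      · exact h.st _ _ _ (h.ss _ _ hxu) (hiff.1 hxu)
      · have hxv : ¬ σ x v := fun hh => hxu (hiff.2 hh)
        exact hside u x v hu (h.rr x) hv (fun hh => hxu (h.ss _ _ hh)) hxv
  let K : V → Prop := fun k => Sup E σ a b k
  let F : V → Prop := fun w => ρ x w ∧ ¬ K w ∧ ∀ k, K k → ¬ σ k w → E k w
  let M : V → Prop := fun w => ρ x w ∧ ¬ K w ∧ ∀ k, K k → ¬ E k w
  have hKa : K a := ⟨b, Or.inl ReflTransGen.refl⟩
  have hcov : ∀ w, ρ x w → ¬ K w → F w ∨ M w := by
    intro w hw hwK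
    by_cases hM : ∀ k, K k → ¬ E k w
    · exact Or.inr ⟨hw, hwK, hM⟩
    · left
      push Not at hM
      obtain ⟨k₀, hk₀, hk₀w⟩ := hM
      refine ⟨hw, hwK, fun k hk hkw => ?_⟩
      have : σ k₀ k := hside k₀ w k (hKN _ hk₀) hw (hKN _ hk) (h.en _ _ hk₀w)
        (fun hh => hkw (h.ss _ _ hh))
      exact (sup_unif h hi hwK hk₀ hk this).1 hk₀w
  have hne' : ∀ u v, ρ x u → ρ x v → ¬ σ u v → (σ x u ↔ ¬ σ x v) := by
    intro u v hu hv huv
    have := hσ u v hu hv
    tauto
  have conv : ∀ (r r' : V → V → Prop), (∀ u v, ρ x u → r u v → ρ x v ∧ r' u v) →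
      ∀ u w, ρ x u → ReflTransGen r u w → ReflTransGen r' u w := by
    intro r r' hr u w hu huw
    have : ReflTransGen r' u w ∧ ρ x w := by
      induction huw with
      | refl => exact ⟨ReflTransGen.refl, hu⟩
      | tail _ h2 ih =>
        obtain ⟨h3, h4⟩ := hr _ _ ih.2 h2
        exact ⟨ih.1.tail h4, h3⟩
    exact this.1
  have symE : ∀ u v, ReE E ρ u v → ReE E ρ v u := by
    intro u v huv
    refine rtg_symm (fun p q hpq => ?_) huv
    exact ⟨h.rs _ _ hpq.1, h.es _ _ hpq.2⟩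
  have symN : ∀ u v, ReN E σ ρ u v → ReN E σ ρ v u := by
    intro u v huv
    refine rtg_symm (fun p q hpq => ?_) huv
    exact ⟨h.rs _ _ hpq.1, fun hh => hpq.2.1 (h.ss _ _ hh), fun hh => hpq.2.2 (h.es _ _ hh)⟩
  have hcon : ∀ u v, ρ x u → ρ x v →
      ReflTransGen (fun u v => ρ x v ∧ (σ x u ↔ ¬ σ x v) ∧ E u v) u v := by
    intro u v hu hv
    refine conv (fun u v => ρ u v ∧ E u v) _ ?_ u v hu ((symE _ _ (hc u hu)).trans (hc v hv))
    intro p q hp hpq
    have hq := h.rt _ _ _ hp hpq.1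
    exact ⟨hq, hq, hne' p q hp hq (h.en _ _ hpq.2), hpq.2⟩
  have hcoc : ∀ u v, ρ x u → ρ x v →
      ReflTransGen (fun u v => ρ x v ∧ ((¬ σ x u) ↔ ¬ ¬ σ x v) ∧ ¬ E u v) u v := by
    intro u v hu hv
    refine conv (fun u v => ρ u v ∧ ¬ σ u v ∧ ¬ E u v) _ ?_ u v hu
      ((symN _ _ (hn u hu)).trans (hn v hv))
    intro p q hp hpq
    have hq := h.rt _ _ _ hp hpq.1
    have := hne' p q hp hq hpq.2.1
    exact ⟨hq, hq, by tauto, hpq.2.2⟩
  have hstrE : ∀ u v, ρ x u → ρ x v →
      ReflTransGen (fun u v => ρ x v ∧ (σ x u ↔ ¬ σ x v) ∧ (E u v ↔ σ x u)) u v := by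
    intro u v hu hv
    refine conv _ _ ?_ u v hu (hs u v hu hv)
    intro p q hp hpq
    have hq := h.rt _ _ _ hp hpq.1
    exact ⟨hq, hq, hne' p q hp hq hpq.2.1, hpq.2.2⟩
  have hstrN : ∀ u v, ρ x u → ρ x v →
      ReflTransGen (fun u v => ρ x v ∧ ((¬ σ x u) ↔ ¬ ¬ σ x v) ∧ ((¬ E u v) ↔ ¬ σ x u)) u v := by
    intro u v hu hv
    refine conv _ _ ?_ u v hu (hs u v hu hv)
    intro p q hp hpq
    have hq := h.rt _ _ _ hp hpq.1
    have h1 := hne' p q hp hq hpq.2.1
    have h2 := hpq.2.2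
    exact ⟨hq, hq, by tauto, by tauto⟩
  -- the rule (*) on `F`, `M`
  have hst : ∀ p q r, F p → M q → ρ x r → ¬ K r → (σ x p ↔ σ x q) → (σ x r ↔ ¬ σ x p) →
      E r q → E r p := by
    intro p q r hp hq hr hrK hpq hrp
    exact hstar p q r hp.1 hq.1 hr hrK ((hσ p q hp.1 hq.1).2 hpq)
      (fun hh => by have := (hσ r p hr hp.1).1 hh; tauto) hp.2.2 hq.2.2
  have hFE : ∀ w k, F w → K k → (σ x k ↔ ¬ σ x w) → E k w := by
    intro w k hw hk hkw
    exact hw.2.2 k hk (fun hh => by have := (hσ k w (hKN k hk) hw.1).1 hh; tauto)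
  have hall : ∀ w, ρ x w → K w := by
    by_cases hFF : ∀ p q, F p → F q → (σ x p ↔ ¬ σ x q) → E p q
    · exact core (ρ x) K F M (σ x) E h.es hcov (fun w hw => hw.2.1) (fun w hw => hw.2.1)
        (fun w hw => hw.1) hFE (fun w k hw hk _ => hw.2.2 k hk)
        hst hFF hstrE hcon a ha hKa
    · push Not at hFF
      obtain ⟨a'', b'', ha'', hb'', hab'', hnE⟩ := hFF
      refine core (ρ x) K M F (fun w => ¬ σ x w) (fun u v => ¬ E u v)
        (fun u v hh hh' => hh (h.es _ _ hh')) (fun w h1 h2 => (hcov w h1 h2).symm)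
        (fun w hw => hw.2.1) (fun w hw => hw.2.1) (fun w hw => hw.1)
        (fun w k hw hk _ => hw.2.2 k hk) (fun w k hw hk hh => ?_)
        ?_ ?_ hstrN hcoc a ha hKa
      · exact fun hh' => hh' (hFE w k hw hk (by tauto))
      · intro p q r hp hq hr hrK hpq hrp h1 h2
        exact h1 (hst q p r hq hp hr hrK (by tauto) (by tauto) h2)
      · -- no two adjacent empty vertices
        intro a' b' ha' hb' hab' hE
        by_cases hs1 : σ x a' ↔ σ x a''
        · have e1 : E b' a'' := hst a'' a' b' ha'' ha' hb'.1 hb'.2.1 (by tauto) (by tauto)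
            (h.es _ _ hE)
          exact hnE (hst b'' b' a'' hb'' hb' ha''.1 ha''.2.1 (by tauto) (by tauto) (h.es _ _ e1))
        · have e1 : E a' a'' := hst a'' b' a' ha'' hb' ha'.1 ha'.2.1 (by tauto) (by tauto) hE
          exact hnE (hst b'' a' a'' hb'' ha' ha''.1 ha''.2.1 (by tauto) (by tauto) (h.es _ _ e1))
  intro w hw
  exact hall w (h.rt _ _ _ ha hw)

end Pool.Agent.J4.H24.CF
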